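import Pool.Agent.W_MP_5f6b2a_mono.Prob1

/-! Uniform probabilities on products of two types. -/

set_option autoImplicit false

namespace Pool.Agent.W_MP_5f6b2a_mono

section
variable {α β : Type} [Finite α] [Finite β]

theorem Prob2_ncard [Fintype α] (S : Set (α × β)) :
    S.ncard = ∑ a : α, {b | (a, b) ∈ S}.ncard := by
  have e : ↥S ≃ (Σ a : α, {b : β // (a, b) ∈ S}) :=
    { toFun := fun p => ⟨p.1.1, ⟨p.1.2, p.2⟩⟩
      invFun := fun q => ⟨(q.1, q.2.1), q.2.2⟩
      left_inv := fun p => rfl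
      right_inv := fun q => rfl }
  have h1 : S.ncard = Nat.card ↥S := rfl
  rw [h1, Nat.card_congr e, Nat.card_sigma]
  rfl

theorem Prob2_fib [Fintype α] (S : Set (α × β)) :
    P S = (∑ a : α, P {b | (a, b) ∈ S}) / (Nat.card α : ℝ) := by
  unfold P
  rw [Prob2_ncard S, Nat.card_prod, Nat.cast_sum, Nat.cast_mul, ← Finset.sum_div, div_div,
    mul_comm (Nat.card α : ℝ)]

theorem P_prod (A : Set α) (B : Set β) : P {p : α × β | p.1 ∈ A ∧ p.2 ∈ B} = P A * P B := by
  have h : {p : α × β | p.1 ∈ A ∧ p.2 ∈ B} = A ×ˢ B := by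
    ext p
    rfl
  unfold P
  rw [h, Set.ncard_prod, Nat.card_prod]
  push_cast
  rw [mul_div_mul_comm]

theorem P_fst_le (S : Set (α × β)) (c : ℝ) (hc : 0 ≤ c) (h : ∀ a, P {b | (a, b) ∈ S} ≤ c) :
    P S ≤ c := by
  classical
  haveI := Fintype.ofFinite α
  rw [Prob2_fib S]
  have h1 : (∑ a : α, P {b | (a, b) ∈ S}) ≤ (Nat.card α : ℝ) * c := by
    calc (∑ a : α, P {b | (a, b) ∈ S}) ≤ ∑ _a : α, c := Finset.sum_le_sum fun a _ => h a
      _ = (Nat.card α : ℝ) * c := by simp
  rcases Nat.eq_zero_or_pos (Nat.card α) with h0 | h0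
  · rw [h0]
    simpa using hc
  · have h0' : (0 : ℝ) < Nat.card α := by exact_mod_cast h0
    rw [div_le_iff₀ h0']
    linarith

theorem P_snd_le (S : Set (α × β)) (c : ℝ) (hc : 0 ≤ c) (h : ∀ b, P {a | (a, b) ∈ S} ≤ c) :
    P S ≤ c := by
  have h1 := P_equiv (Equiv.prodComm β α) S
  rw [← h1]
  exact P_fst_le _ c hc h

/-- Markov's inequality -/
theorem P_markov (S : Set (α × β)) : P {a | 1 / 2 < P {b | (a, b) ∈ S}} ≤ 2 * P S := by
  classical
  haveI := Fintype.ofFinite α
  rw [Prob2_fib S]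
  set T : Set α := {a | 1 / 2 < P {b | (a, b) ∈ S}} with hT
  have h1 : (T.ncard : ℝ) / 2 ≤ ∑ a : α, P {b | (a, b) ∈ S} := by
    have h2 : T.ncard = (Finset.univ.filter fun a => a ∈ T).card := by
      rw [← Set.ncard_coe_finset]
      congr 1
      ext a
      simp
    calc (T.ncard : ℝ) / 2 = ∑ _a ∈ (Finset.univ.filter fun a => a ∈ T), (1 / 2 : ℝ) := by
          rw [h2, Finset.sum_const, nsmul_eq_mul]
          ring
      _ ≤ ∑ a ∈ (Finset.univ.filter fun a => a ∈ T), P {b | (a, b) ∈ S} := by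
          refine Finset.sum_le_sum fun a ha => ?_
          have h3 : a ∈ T := (Finset.mem_filter.1 ha).2
          exact le_of_lt h3
      _ ≤ ∑ a : α, P {b | (a, b) ∈ S} :=
          Finset.sum_le_sum_of_subset_of_nonneg (Finset.filter_subset _ _)
            fun a _ _ => P_nonneg _
  have h4 : P T = (T.ncard : ℝ) / (Nat.card α : ℝ) := rfl
  rw [h4, ← mul_div_assoc]
  exact div_le_div_of_nonneg_right (by linarith) (Nat.cast_nonneg _)

theorem P_quarter (S : Set (α × β)) (h : 1 / 2 ≤ P S) :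
    1 / 4 ≤ P {a | 1 / 4 ≤ P {b | (a, b) ∈ S}} := by
  classical
  haveI := Fintype.ofFinite α
  rw [Prob2_fib S] at h
  set T : Set α := {a | 1 / 4 ≤ P {b | (a, b) ∈ S}} with hT
  have hc : (0 : ℝ) < Nat.card α := by
    rcases Nat.eq_zero_or_pos (Nat.card α) with h0 | h0
    · rw [h0] at h
      norm_num at h
    · exact_mod_cast h0
  rw [le_div_iff₀ hc] at h
  have h1 : (∑ a : α, P {b | (a, b) ∈ S}) ≤ (T.ncard : ℝ) + (Nat.card α : ℝ) / 4 := by
    have h2 : T.ncard = (Finset.univ.filter fun a => a ∈ T).card := by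
      rw [← Set.ncard_coe_finset]
      congr 1
      ext a
      simp
    calc (∑ a : α, P {b | (a, b) ∈ S})
        ≤ ∑ a : α, ((if a ∈ T then (1 : ℝ) else 0) + 1 / 4) := by
          refine Finset.sum_le_sum fun a _ => ?_
          by_cases ha : a ∈ T
          · rw [if_pos ha]
            have := P_le_one {b | (a, b) ∈ S}
            linarith
          · rw [if_neg ha]
            have h3 : ¬ (1 / 4 ≤ P {b | (a, b) ∈ S}) := ha
            linarith [not_le.1 h3]
      _ = (T.ncard : ℝ) + (Nat.card α : ℝ) / 4 := by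
          rw [Finset.sum_add_distrib, Finset.sum_ite, h2]
          simp
          ring
  have h4 : P T = (T.ncard : ℝ) / (Nat.card α : ℝ) := rfl
  rw [h4, le_div_iff₀ hc]
  linarith

end

end Pool.Agent.W_MP_5f6b2a_mono
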