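import Pool.Agent.W_MP_5f6b2a_mono.Prob2

/-! Uniform probabilities on functions. -/

set_option autoImplicit false

namespace Pool.Agent.W_MP_5f6b2a_mono

section
variable {α β : Type} [Finite α] [Finite β]

theorem P_pi {ι : Type} [Finite ι] [Nonempty β] (I : Finset ι) (B : ι → Set β) :
    P {f : ι → β | ∀ i ∈ I, f i ∈ B i} = ∏ i ∈ I, P (B i) := by
  classical
  have := Fintype.ofFinite ι
  set B' : ι → Set β := fun i => if i ∈ I then B i else Set.univ with hB'
  have hβ : (Nat.card β : ℝ) ≠ 0 := by exact_mod_cast Nat.card_pos.ne'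
  have h1 : {f : ι → β | ∀ i ∈ I, f i ∈ B i} = {f : ι → β | ∀ i, f i ∈ B' i} := by
    ext f
    constructor
    · intro h i
      by_cases hi : i ∈ I
      · simp only [hB', if_pos hi]; exact h i hi
      · simp only [hB', if_neg hi]; trivial
    · intro h i hi
      have := h i
      simp only [hB', if_pos hi] at this
      exact this
  have h2 : {f : ι → β | ∀ i, f i ∈ B' i}.ncard = ∏ i, (B' i).ncard := by
    have e : {f : ι → β // ∀ i, f i ∈ B' i} ≃ (∀ i, {b : β // b ∈ B' i}) :=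
      Equiv.subtypePiEquivPi
    have h3 : {f : ι → β | ∀ i, f i ∈ B' i}.ncard = Nat.card {f : ι → β // ∀ i, f i ∈ B' i} := rfl
    rw [h3, Nat.card_congr e, Nat.card_pi]
    rfl
  have h4 : P {f : ι → β | ∀ i, f i ∈ B' i} = ∏ i, P (B' i) := by
    unfold P
    rw [h2, Finset.prod_div_distrib, Nat.card_fun, Nat.cast_prod, Finset.prod_const,
      Finset.card_univ, Nat.card_eq_fintype_card (α := ι), Nat.cast_pow]
  rw [h1, h4, ← Finset.prod_subset (Finset.subset_univ I)]
  · apply Finset.prod_congr rfl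
    intro i hi
    simp only [hB', if_pos hi]
  · intro i _ hi
    simp only [hB', if_neg hi]
    exact P_univ

/-- a set of functions is at most as large as the product of its projections -/
theorem P_proj {ι : Type} [Finite ι] [Nonempty β] (I : Finset ι) (S : Set (ι → β)) :
    P S ≤ ∏ i ∈ I, P {b | ∃ f ∈ S, f i = b} := by
  rw [← P_pi]
  apply P_mono
  intro f hf i _
  exact ⟨f, hf, rfl⟩

open scoped Classical in
/-- Splitting a function into its restrictions to `T` and to the complement of `T`: if for some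
`τ₀` on `T` the fibre of `A` is empty, and all fibres have probability at most `c`, then `A` has
probability at most `(1 - 1 / |β| ^ |T|) c`. -/
theorem P_split {ι : Type} [Finite ι] (T : Finset ι) (A : Set (ι → β)) (c : ℝ) (hc : 0 ≤ c)
    (h : ∀ τ : {i // i ∈ T} → β,
      P {g : {i // ¬ i ∈ T} → β | (fun i => if h : i ∈ T then τ ⟨i, h⟩ else g ⟨i, h⟩) ∈ A} ≤ c)
    (τ₀ : {i // i ∈ T} → β) (hτ : ∀ g : {i // ¬ i ∈ T} → β,
      (fun i => if h : i ∈ T then τ₀ ⟨i, h⟩ else g ⟨i, h⟩) ∉ A) :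
    P A ≤ (1 - 1 / (Nat.card β : ℝ) ^ T.card) * c := by
  let e := Equiv.piEquivPiSubtypeProd (fun i => i ∈ T) (fun _ : ι => β)
  have := Fintype.ofFinite ({i // i ∈ T} → β)
  have h1 : P {p | e.symm p ∈ A} = P A := P_equiv e.symm A
  have hcard : (Nat.card ({i // i ∈ T} → β) : ℝ) = (Nat.card β : ℝ) ^ T.card := by
    rw [Nat.card_fun]
    push_cast
    congr 1
    simp
  have hpos : (0 : ℝ) < Nat.card ({i // i ∈ T} → β) := by
    have : Nonempty ({i // i ∈ T} → β) := ⟨τ₀⟩
    exact_mod_cast Nat.card_pos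
  have h2 : ∑ τ : {i // i ∈ T} → β, P {g : {i // ¬ i ∈ T} → β | (τ, g) ∈ {p | e.symm p ∈ A}} ≤
      ((Nat.card ({i // i ∈ T} → β) : ℝ) - 1) * c := by
    have h3 : P {g : {i // ¬ i ∈ T} → β | (τ₀, g) ∈ {p | e.symm p ∈ A}} = 0 := by
      have : {g : {i // ¬ i ∈ T} → β | (τ₀, g) ∈ {p | e.symm p ∈ A}} = ∅ := by
        ext g
        simp only [Set.mem_setOf_eq, Set.mem_empty_iff_false, iff_false]
        exact hτ g
      rw [this, P_empty]
    rw [← Finset.add_sum_erase _ _ (Finset.mem_univ τ₀), h3, zero_add]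
    calc ∑ τ ∈ Finset.univ.erase τ₀,
          P {g : {i // ¬ i ∈ T} → β | (τ, g) ∈ {p | e.symm p ∈ A}}
        ≤ ∑ _τ ∈ Finset.univ.erase τ₀, c := Finset.sum_le_sum fun τ _ => h τ
      _ = ((Nat.card ({i // i ∈ T} → β) : ℝ) - 1) * c := by
        rw [Finset.sum_const, Finset.card_erase_of_mem (Finset.mem_univ _), Finset.card_univ,
          nsmul_eq_mul, Nat.cast_sub, Nat.card_eq_fintype_card, Nat.cast_one]
        exact Fintype.card_pos_iff.mpr ⟨τ₀⟩
  rw [← h1, Prob2_fib, ← hcard, div_le_iff₀ hpos]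
  refine h2.trans (le_of_eq ?_)
  field_simp

end

end Pool.Agent.W_MP_5f6b2a_mono
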