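import Pool.Agent.W_MP_5f6b2a_mono.Prob1
import Pool.Agent.W_MP_5f6b2a_mono.Prob2
import Pool.Agent.W_MP_5f6b2a_mono.Prob3
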