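import Pool.Agent.W_MP_5f6b2a_mono.Defs
import Pool.Agent.W_MP_5f6b2a_mono.Prob

/-! Two-sided approximation of the gates of a monotone circuit. -/

set_option autoImplicit false

namespace Pool.Agent.W_MP_5f6b2a_mono


/-- the set of atoms `W` contains all atoms of some member of `F` -/
def Hits {ι κ : Type} (at' : ι → Finset κ) (W : Finset κ) (F : Finset ι) : Prop :=
  ∃ e ∈ F, at' e ⊆ W

/-- the input given by a set of atoms -/
def posI {ι κ : Type} (at' : ι → Finset κ) (Q : Finset κ) : Set ι := {i | at' i ⊆ Q}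

/-- the input in which exactly the members of `N` are missing -/
def negI {ι : Type} (N : Finset ι) : Set ι := {i | i ∉ N}

/-- `Q` hits all members of `𝒱`, but no small subset of `Q` does -/
def ErrP {ι κ : Type} (at' : ι → Finset κ) (u : ℕ) (𝒱 : Set (Finset ι)) (Q : Finset κ) : Prop :=
  (∀ V ∈ 𝒱, Hits at' Q V) ∧ ¬ ∃ U ⊆ Q, U.card ≤ u ∧ ∀ V ∈ 𝒱, Hits at' U V

/-- `N` is hit by all members of `𝒰`, but no small subset of `N` is -/
def ErrN {ι κ : Type} (at' : ι → Finset κ) (w : ℕ) (𝒰 : Set (Finset κ)) (N : Finset ι) : Prop :=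
  (∀ U ∈ 𝒰, Hits at' U N) ∧ ¬ ∃ V ⊆ N, V.card ≤ w ∧ ∀ U ∈ 𝒰, Hits at' U V

/-- Approximation of the gates of a monotone circuit `L`: outside of small sets of exceptions,
for every gate `f` there is a family `𝒰` of sets of at most `u` atoms such that `f` accepts a
positive input only if it contains a member of `𝒰`, and `f` rejects a negative input only if a set
of at most `w` missing bits is hit by all members of `𝒰`. -/
theorem approx {ι κ X Ω : Type} [Finite X] [Finite Ω] (at' : ι → Finset κ) (u w : ℕ)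
    (PX : X → Finset κ) (NΩ : Ω → Finset ι) (hat : ∀ i, (at' i).card ≤ u) (hw : 1 ≤ w) (a b : ℝ)
    (ha : ∀ 𝒱 : Set (Finset ι), (∀ V ∈ 𝒱, V.card ≤ w) → P {x | ErrP at' u 𝒱 (PX x)} ≤ a)
    (hb : ∀ 𝒰 : Set (Finset κ), (∀ U ∈ 𝒰, U.card ≤ u) → P {ω | ErrN at' w 𝒰 (NΩ ω)} ≤ b)
    (L : List (Set ι → Prop)) (hL : Mono L) :
    ∃ (BX : Set X) (BΩ : Set Ω), P BX ≤ L.length * a ∧ P BΩ ≤ L.length * b ∧
      ∀ f ∈ L, ∃ 𝒰 : Set (Finset κ), (∀ U ∈ 𝒰, U.card ≤ u) ∧
        (∀ x, x ∉ BX → f (posI at' (PX x)) → ∃ U ∈ 𝒰, U ⊆ PX x) ∧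
        (∀ ω, ω ∉ BΩ → ¬ f (negI (NΩ ω)) →
          ∃ V ⊆ NΩ ω, V.card ≤ w ∧ ∀ U ∈ 𝒰, Hits at' U V) := by
  have a0 : 0 ≤ a := le_trans (P_nonneg _) (ha ∅ (by simp))
  have b0 : 0 ≤ b := le_trans (P_nonneg _) (hb ∅ (by simp))
  have hmono : ∀ (W W' : Finset κ) (F F' : Finset ι), W ⊆ W' → F ⊆ F' →
      Hits at' W F → Hits at' W' F' := by
    rintro W W' F F' h1 h2 ⟨e, he, he'⟩
    exact ⟨e, h2 he, he'.trans h1⟩
  induction hL with
  | nil =>
    refine ⟨∅, ∅, ?_, ?_, ?_⟩
    · simp [P_empty]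
    · simp [P_empty]
    · simp
  | input i L hL ih =>
    obtain ⟨BX, BΩ, h1, h2, h3⟩ := ih
    refine ⟨BX, BΩ, ?_, ?_, ?_⟩
    · refine h1.trans (mul_le_mul_of_nonneg_right ?_ a0)
      simp
    · refine h2.trans (mul_le_mul_of_nonneg_right ?_ b0)
      simp
    · intro f hf
      rcases List.mem_cons.1 hf with rfl | hf
      · refine ⟨{at' i}, ?_, ?_, ?_⟩
        · intro U hU
          rw [Set.mem_singleton_iff] at hU
          rw [hU]
          exact hat i
        · intro x _ hx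
          exact ⟨at' i, rfl, hx⟩
        · intro ω _ hω
          have hi : i ∈ NΩ ω := by
            by_contra h
            exact hω h
          refine ⟨{i}, by simpa using hi, by simpa using hw, ?_⟩
          intro U hU
          rw [Set.mem_singleton_iff] at hU
          exact ⟨i, by simp, by rw [hU]⟩
      · exact h3 f hf
  | and J L hJ hL ih =>
    obtain ⟨BX, BΩ, h1, h2, h3⟩ := ih
    choose! F hF1 hF2 hF3 using h3
    set VS : Set (Finset ι) := {V | V.card ≤ w ∧ ∃ g ∈ J, ∀ U ∈ F g, Hits at' U V} with hVS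
    refine ⟨BX ∪ {x | ErrP at' u VS (PX x)}, BΩ, ?_, ?_, ?_⟩
    · refine (P_union_le _ _).trans ?_
      have := ha VS (fun V hV => hV.1)
      rw [List.length_cons]
      push_cast
      linarith
    · refine h2.trans (mul_le_mul_of_nonneg_right ?_ b0)
      simp
    · intro f hf
      rcases List.mem_cons.1 hf with rfl | hf
      · refine ⟨{U | U.card ≤ u ∧ ∀ V ∈ VS, Hits at' U V}, fun U hU => hU.1, ?_, ?_⟩
        · intro x hx hfx
          have hx1 : x ∉ BX := fun h => hx (Or.inl h)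
          have hx2 : ¬ ErrP at' u VS (PX x) := fun h => hx (Or.inr h)
          have hall : ∀ V ∈ VS, Hits at' (PX x) V := by
            rintro V ⟨_, g, hg, hgV⟩
            obtain ⟨U, hU, hUx⟩ := hF2 g (hJ hg) x hx1 (hfx g hg)
            exact hmono _ _ _ _ hUx (Finset.Subset.refl V) (hgV U hU)
          by_contra hno
          refine hx2 ⟨hall, ?_⟩
          rintro ⟨U, hUx, hUc, hUV⟩
          exact hno ⟨U, ⟨hUc, hUV⟩, hUx⟩
        · intro ω hω hfω
          have : ∃ g ∈ J, ¬ g (negI (NΩ ω)) := by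
            by_contra h
            push Not at h
            exact hfω h
          obtain ⟨g, hg, hgω⟩ := this
          obtain ⟨V, hV, hVc, hVU⟩ := hF3 g (hJ hg) ω hω hgω
          exact ⟨V, hV, hVc, fun U hU => hU.2 V ⟨hVc, g, hg, hVU⟩⟩
      · refine ⟨F f, hF1 f hf, ?_, hF3 f hf⟩
        intro x hx
        exact hF2 f hf x (fun h => hx (Or.inl h))
  | or J L hJ hL ih =>
    obtain ⟨BX, BΩ, h1, h2, h3⟩ := ih
    choose! F hF1 hF2 hF3 using h3
    set US : Set (Finset κ) := {U | ∃ g ∈ J, U ∈ F g} with hUS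
    refine ⟨BX, BΩ ∪ {ω | ErrN at' w US (NΩ ω)}, ?_, ?_, ?_⟩
    · refine h1.trans (mul_le_mul_of_nonneg_right ?_ a0)
      simp
    · refine (P_union_le _ _).trans ?_
      have := hb US (by
        rintro U ⟨g, hg, hU⟩
        exact hF1 g (hJ hg) U hU)
      rw [List.length_cons]
      push_cast
      linarith
    · intro f hf
      rcases List.mem_cons.1 hf with rfl | hf
      · refine ⟨US, ?_, ?_, ?_⟩
        · rintro U ⟨g, hg, hU⟩
          exact hF1 g (hJ hg) U hU
        · rintro x hx ⟨g, hg, hgx⟩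
          obtain ⟨U, hU, hUx⟩ := hF2 g (hJ hg) x hx hgx
          exact ⟨U, ⟨g, hg, hU⟩, hUx⟩
        · intro ω hω hfω
          have hω1 : ω ∉ BΩ := fun h => hω (Or.inl h)
          have hω2 : ¬ ErrN at' w US (NΩ ω) := fun h => hω (Or.inr h)
          have hall : ∀ U ∈ US, Hits at' U (NΩ ω) := by
            rintro U ⟨g, hg, hU⟩
            obtain ⟨V, hV, _, hVU⟩ := hF3 g (hJ hg) ω hω1 (fun h => hfω ⟨g, hg, h⟩)
            exact hmono _ _ _ _ (Finset.Subset.refl U) hV (hVU U hU)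
          by_contra hno
          refine hω2 ⟨hall, ?_⟩
          rintro ⟨V, hVN, hVc, hVU⟩
          exact hno ⟨V, hVN, hVc, hVU⟩
      · refine ⟨F f, hF1 f hf, hF2 f hf, ?_⟩
        intro ω hω
        exact hF3 f hf ω (fun h => hω (Or.inl h))

end Pool.Agent.W_MP_5f6b2a_mono
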