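import Pool.Agent.W_MP_5f6b2a_mono.Defs

/-! Closing a monotone circuit under small gates. -/

set_option autoImplicit false

namespace Pool.Agent.W_MP_5f6b2a_mono

/-- the size of the closure -/
def cl (m : ℕ) : ℕ → ℕ
  | 0 => m + 2
  | d + 1 => 4 * (cl m d + 1) ^ 2

lemma closure_and_aux {ι : Type} (L L' : List (Set ι → Prop)) (hL : Mono L') (hs : L ⊆ L')
    (K : List ((Set ι → Prop) × (Set ι → Prop))) (hK : ∀ p ∈ K, p.1 ∈ L ∧ p.2 ∈ L) :
    Mono (K.map (fun p => fun e => p.1 e ∧ p.2 e) ++ L') := by
  induction K with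
  | nil => simpa using hL
  | cons p K ih =>
    have h1 := ih (fun q hq => hK q (List.mem_cons_of_mem _ hq))
    have h2 := hK p List.mem_cons_self
    have h3 : (fun e => p.1 e ∧ p.2 e) = (fun e : Set ι => ∀ f ∈ [p.1, p.2], f e) := by
      funext e
      simp
    rw [List.map_cons, List.cons_append, h3]
    refine Mono.and _ _ ?_ h1
    intro f hf
    simp only [List.mem_cons, List.not_mem_nil, or_false] at hf
    rcases hf with rfl | rfl
    · exact List.mem_append_right _ (hs h2.1)
    · exact List.mem_append_right _ (hs h2.2)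

lemma closure_or_aux {ι : Type} (L L' : List (Set ι → Prop)) (hL : Mono L') (hs : L ⊆ L')
    (K : List ((Set ι → Prop) × (Set ι → Prop))) (hK : ∀ p ∈ K, p.1 ∈ L ∧ p.2 ∈ L) :
    Mono (K.map (fun p => fun e => p.1 e ∨ p.2 e) ++ L') := by
  induction K with
  | nil => simpa using hL
  | cons p K ih =>
    have h1 := ih (fun q hq => hK q (List.mem_cons_of_mem _ hq))
    have h2 := hK p List.mem_cons_self
    have h3 : (fun e => p.1 e ∨ p.2 e) = (fun e : Set ι => ∃ f ∈ [p.1, p.2], f e) := by
      funext e
      simp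
    rw [List.map_cons, List.cons_append, h3]
    refine Mono.or _ _ ?_ h1
    intro f hf
    simp only [List.mem_cons, List.not_mem_nil, or_false] at hf
    rcases hf with rfl | rfl
    · exact List.mem_append_right _ (hs h2.1)
    · exact List.mem_append_right _ (hs h2.2)

lemma closure_step {ι : Type} (L : List (Set ι → Prop)) (hL : Mono L) :
    ∃ L2 : List (Set ι → Prop), Mono L2 ∧ L ⊆ L2 ∧
      (∀ f ∈ L, ∀ g ∈ L, (fun e => f e ∧ g e) ∈ L2 ∧ (fun e => f e ∨ g e) ∈ L2) ∧
      L2.length ≤ L.length + 2 * L.length ^ 2 := by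
  have hK : ∀ p ∈ L ×ˢ L, p.1 ∈ L ∧ p.2 ∈ L := fun p hp => List.pair_mem_product.1 hp
  refine ⟨(L ×ˢ L).map (fun p => fun e => p.1 e ∨ p.2 e) ++
    ((L ×ˢ L).map (fun p => fun e => p.1 e ∧ p.2 e) ++ L),
    closure_or_aux L _ (closure_and_aux L L hL (List.Subset.refl _) _ hK)
      (List.subset_append_right _ _) _ hK, ?_, ?_, ?_⟩
  · exact fun f hf => List.mem_append_right _ (List.mem_append_right _ hf)
  · intro f hf g hg
    have hp : (f, g) ∈ L ×ˢ L := List.pair_mem_product.2 ⟨hf, hg⟩
    constructor
    · refine List.mem_append_right _ (List.mem_append_left _ ?_)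
      exact List.mem_map.2 ⟨(f, g), hp, rfl⟩
    · refine List.mem_append_left _ ?_
      exact List.mem_map.2 ⟨(f, g), hp, rfl⟩
  · simp only [List.length_append, List.length_map, List.length_product]
    apply le_of_eq
    ring

/-- A monotone circuit can be extended so that all small combinations of its gates are gates. -/
theorem closure {ι : Type} (L : List (Set ι → Prop)) (hL : Mono L) :
    ∃ Ls : ℕ → List (Set ι → Prop), (∀ d, Mono (Ls d)) ∧ L ⊆ Ls 0 ∧ (fun _ => True) ∈ Ls 0 ∧
      (fun _ => False) ∈ Ls 0 ∧ (∀ d, Ls d ⊆ Ls (d + 1)) ∧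
      (∀ d, ∀ f ∈ Ls d, ∀ g ∈ Ls d, (fun e => f e ∧ g e) ∈ Ls (d + 1) ∧
        (fun e => f e ∨ g e) ∈ Ls (d + 1)) ∧
      ∀ d, (Ls d).length ≤ cl L.length d := by
  classical
  choose F hF1 hF2 hF3 hF4 using fun L : {L : List (Set ι → Prop) // Mono L} =>
    closure_step L.1 L.2
  have h0 : Mono ((fun _ => True) :: (fun _ => False) :: L) := by
    have h1 : (fun _ => False) = (fun e : Set ι => ∃ f ∈ ([] : List (Set ι → Prop)), f e) := by
      funext e
      simp
    have h2 : (fun _ => True) = (fun e : Set ι => ∀ f ∈ ([] : List (Set ι → Prop)), f e) := by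
      funext e
      simp
    rw [h1, h2]
    exact Mono.and _ _ (List.nil_subset _) (Mono.or _ _ (List.nil_subset _) hL)
  let G : ℕ → {L : List (Set ι → Prop) // Mono L} := fun d =>
    Nat.rec ⟨_, h0⟩ (fun _ K => ⟨F K, hF1 K⟩) d
  have hG0 : (G 0).1 = (fun _ => True) :: (fun _ => False) :: L := rfl
  have hGs : ∀ d, (G (d + 1)).1 = F (G d) := fun d => rfl
  refine ⟨fun d => (G d).1, fun d => (G d).2, ?_, ?_, ?_, ?_, ?_, ?_⟩
  · intro f hf
    exact List.mem_cons_of_mem _ (List.mem_cons_of_mem _ hf)
  · exact List.mem_cons_self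
  · exact List.mem_cons_of_mem _ List.mem_cons_self
  · intro d
    simp only [hGs]
    exact hF2 (G d)
  · intro d f hf g hg
    simp only [hGs]
    exact hF3 (G d) f hf g hg
  · intro d
    induction d with
    | zero =>
      simp only [hG0, cl, List.length_cons]
      omega
    | succ d ih =>
      simp only [hGs, cl]
      refine (hF4 (G d)).trans ?_
      have h1 : (G d).1.length ^ 2 ≤ cl L.length d ^ 2 := Nat.pow_le_pow_left ih 2
      nlinarith [Nat.zero_le (cl L.length d)]

/-- For a fixed weighted assignment the gates of weft `0` are gates of the extended circuit. -/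
theorem weft_zero {ι : Type} (Ls : ℕ → List (Set ι → Prop)) (h1 : (fun _ => True) ∈ Ls 0)
    (h2 : (fun _ => False) ∈ Ls 0) (h3 : ∀ d, Ls d ⊆ Ls (d + 1))
    (h4 : ∀ d, ∀ f ∈ Ls d, ∀ g ∈ Ls d, (fun e => f e ∧ g e) ∈ Ls (d + 1) ∧
        (fun e => f e ∨ g e) ∈ Ls (d + 1))
    {N M : ℕ} (T : Fin M → Set ι → Prop) (hT : ∀ j, T j ∈ Ls 0) (C : List (Gate N M))
    (hC : Circ C) (S : Set (Fin N)) :
    ∀ g ∈ C, ∀ d, g.weft = 0 → g.depth ≤ d → (fun e => g.fn S {j | T j e}) ∈ Ls d := by
  have h0 : ∀ d, Ls 0 ⊆ Ls d := by
    intro d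
    induction d with
    | zero => exact List.Subset.refl _
    | succ d ih => exact fun f hf => h3 d (ih hf)
  have hc : ∀ (p : Prop) d, (fun _ => p) ∈ Ls d := by
    intro p d
    by_cases hp : p
    · have : (fun _ => p) = (fun _ : Set ι => True) := by
        funext _
        simp [hp]
      rw [this]
      exact h0 d h1
    · have : (fun _ => p) = (fun _ : Set ι => False) := by
        funext _
        simp [hp]
      rw [this]
      exact h0 d h2
  induction hC with
  | nil => intro g hg; simp at hg
  | pos i C hC ih =>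
    intro g hg d hw hd
    rcases List.mem_cons.1 hg with rfl | hg
    · exact hc (i ∈ S) d
    · exact ih g hg d hw hd
  | neg i C hC ih =>
    intro g hg d hw hd
    rcases List.mem_cons.1 hg with rfl | hg
    · exact hc (i ∉ S) d
    · exact ih g hg d hw hd
  | inst j C hC ih =>
    intro g hg d hw hd
    rcases List.mem_cons.1 hg with rfl | hg
    · exact h0 d (hT j)
    · exact ih g hg d hw hd
  | and J C w dd hJ hC hd' hw' ih =>
    intro g hg d hw hd
    rcases List.mem_cons.1 hg with rfl | hg
    · simp only at hw hd ⊢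
      subst hw
      rcases J with _ | ⟨a, _ | ⟨b, _ | ⟨c, J⟩⟩⟩
      · simpa using hc True d
      · have ha := hd' a (by simp)
        have hwa := hw' a (by simp)
        have := ih a (hJ (by simp)) d (by omega) (by omega)
        simpa using this
      · have ha := hd' a (by simp)
        have hwa := hw' a (by simp)
        have hb := hd' b (by simp)
        have hwb := hw' b (by simp)
        obtain ⟨d, rfl⟩ : ∃ e, d = e + 1 := ⟨d - 1, by omega⟩
        have h5 := ih a (hJ (by simp)) d (by omega) (by omega)
        have h6 := ih b (hJ (by simp)) d (by omega) (by omega)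
        simpa using (h4 d _ h5 _ h6).1
      · have hwa := hw' a (by simp)
        simp at hwa
    · exact ih g hg d hw hd
  | or J C w dd hJ hC hd' hw' ih =>
    intro g hg d hw hd
    rcases List.mem_cons.1 hg with rfl | hg
    · simp only at hw hd ⊢
      subst hw
      rcases J with _ | ⟨a, _ | ⟨b, _ | ⟨c, J⟩⟩⟩
      · simpa using hc False d
      · have ha := hd' a (by simp)
        have hwa := hw' a (by simp)
        have := ih a (hJ (by simp)) d (by omega) (by omega)
        simpa using this
      · have ha := hd' a (by simp)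
        have hwa := hw' a (by simp)
        have hb := hd' b (by simp)
        have hwb := hw' b (by simp)
        obtain ⟨d, rfl⟩ : ∃ e, d = e + 1 := ⟨d - 1, by omega⟩
        have h5 := ih a (hJ (by simp)) d (by omega) (by omega)
        have h6 := ih b (hJ (by simp)) d (by omega) (by omega)
        simpa using (h4 d _ h5 _ h6).2
      · have hwa := hw' a (by simp)
        simp at hwa
    · exact ih g hg d hw hd

/-- Monotone circuits can be transported along a bijection of the input bits. -/
theorem Mono.map {ι κ : Type} (e : κ ≃ ι) (L : List (Set ι → Prop)) (hL : Mono L) :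
    Mono (L.map (fun f => fun E : Set κ => f (e '' E))) := by
  induction hL with
  | nil => exact Mono.nil
  | input i L hL ih =>
    have h : (fun E : Set κ => i ∈ e '' E) = (fun E : Set κ => e.symm i ∈ E) := by
      funext E
      apply propext
      constructor
      · rintro ⟨x, hx, rfl⟩
        simpa using hx
      · intro hx
        exact ⟨_, hx, by simp⟩
    rw [List.map_cons, h]
    exact Mono.input _ _ ih
  | and J L hJ hL ih =>
    have h : (fun E : Set κ => ∀ f ∈ J, f (e '' E)) =
        (fun E : Set κ => ∀ f ∈ J.map (fun f => fun E : Set κ => f (e '' E)), f E) := by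
      funext E
      simp
    rw [List.map_cons, h]
    exact Mono.and _ _ (List.map_subset _ hJ) ih
  | or J L hJ hL ih =>
    have h : (fun E : Set κ => ∃ f ∈ J, f (e '' E)) =
        (fun E : Set κ => ∃ f ∈ J.map (fun f => fun E : Set κ => f (e '' E)), f E) := by
      funext E
      simp
    rw [List.map_cons, h]
    exact Mono.or _ _ (List.map_subset _ hJ) ih

end Pool.Agent.W_MP_5f6b2a_mono
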