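import Pool.Agent.W_MP_5f6b2a_mono.Forms

/-! Gates of bounded weft as alternating combinations. -/

set_option autoImplicit false

namespace Pool.Agent.W_MP_5f6b2a_mono

section convertAux
variable {X Ω : Type}

theorem convert_AndF_mono {N N' : ℕ} {F F' : Fam X Ω} (h : N ≤ N') (hF : ∀ A R, F A R → F' A R)
    {A A' : Set X} {R R' : Set Ω} (hA : A' ⊆ A) (hR : R' ⊆ R) (hp : AndF N F A R) :
    AndF N' F' A' R' := by
  obtain ⟨l, h1, h2, h3, h4⟩ := hp
  exact ⟨l, h1.trans h, fun p hp => hF _ _ (h2 p hp), fun x hx => h3 x (hA hx),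
    fun ω hω => h4 ω (hR hω)⟩

theorem convert_OrF_mono {N N' : ℕ} {F F' : Fam X Ω} (h : N ≤ N') (hF : ∀ A R, F A R → F' A R)
    {A A' : Set X} {R R' : Set Ω} (hA : A' ⊆ A) (hR : R' ⊆ R) (hp : OrF N F A R) :
    OrF N' F' A' R' := by
  obtain ⟨l, h1, h2, h3, h4⟩ := hp
  exact ⟨l, h1.trans h, fun p hp => hF _ _ (h2 p hp), fun x hx => h3 x (hA hx),
    fun ω hω => h4 ω (hR hω)⟩

theorem convert_AndF_single {N : ℕ} (hN : 1 ≤ N) {F : Fam X Ω} {A : Set X} {R : Set Ω}
    (hp : F A R) : AndF N F A R :=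
  ⟨[(A, R)], by simpa using hN, by simpa using hp, by simp, by simp⟩

theorem convert_OrF_single {N : ℕ} (hN : 1 ≤ N) {F : Fam X Ω} {A : Set X} {R : Set Ω}
    (hp : F A R) : OrF N F A R :=
  ⟨[(A, R)], by simpa using hN, by simpa using hp, by simp, by simp⟩

theorem convert_PS_of {N : ℕ} (hN : 1 ≤ N) {F : Fam X Ω} {A : Set X} {R : Set Ω}
    (hp : F A R) : ∀ (i : ℕ) (b : Bool), PS N F i b A R
  | 0, _ => hp
  | i + 1, true => convert_AndF_single hN (convert_PS_of hN hp i false)
  | i + 1, false => convert_OrF_single hN (convert_PS_of hN hp i true)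

/-- swapped family -/
def convert_sw (F : Fam X Ω) : Fam Ω X := fun R A => F A R

theorem convert_AndF_sw {N : ℕ} {F : Fam X Ω} {A : Set X} {R : Set Ω} :
    AndF N F A R ↔ OrF N (convert_sw F) R A := by
  constructor
  · rintro ⟨l, h1, h2, h3, h4⟩
    refine ⟨l.map Prod.swap, by simpa using h1, ?_, ?_, ?_⟩
    · intro p hp
      obtain ⟨q, hq, rfl⟩ := List.mem_map.1 hp
      exact h2 q hq
    · intro ω hω
      obtain ⟨q, hq, hq'⟩ := h4 ω hω
      exact ⟨q.swap, List.mem_map.2 ⟨q, hq, rfl⟩, hq'⟩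
    · intro x hx p hp
      obtain ⟨q, hq, rfl⟩ := List.mem_map.1 hp
      exact h3 x hx q hq
  · rintro ⟨l, h1, h2, h3, h4⟩
    refine ⟨l.map Prod.swap, by simpa using h1, ?_, ?_, ?_⟩
    · intro p hp
      obtain ⟨q, hq, rfl⟩ := List.mem_map.1 hp
      exact h2 q hq
    · intro x hx p hp
      obtain ⟨q, hq, rfl⟩ := List.mem_map.1 hp
      exact h4 x hx q hq
    · intro ω hω
      obtain ⟨q, hq, hq'⟩ := h3 ω hω
      exact ⟨q.swap, List.mem_map.2 ⟨q, hq, rfl⟩, hq'⟩

theorem convert_OrF_sw {N : ℕ} {F : Fam X Ω} {A : Set X} {R : Set Ω} :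
    OrF N F A R ↔ AndF N (convert_sw F) R A :=
  (convert_AndF_sw (F := convert_sw F)).symm

theorem convert_PS_sw {N : ℕ} {F : Fam X Ω} : ∀ (i : ℕ) (b : Bool) (A : Set X) (R : Set Ω),
    PS N F i b A R ↔ PS N (convert_sw F) i (!b) R A
  | 0, _, _, _ => Iff.rfl
  | i + 1, true, A, R => by
    have h : PS N F i false = convert_sw (PS N (convert_sw F) i true) := by
      funext A R
      exact propext (convert_PS_sw i false A R)
    show AndF N (PS N F i false) A R ↔ OrF N (PS N (convert_sw F) i true) R A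
    rw [h]
    exact convert_AndF_sw
  | i + 1, false, A, R => by
    have h : PS N F i true = convert_sw (PS N (convert_sw F) i false) := by
      funext A R
      exact propext (convert_PS_sw i true A R)
    show OrF N (PS N F i true) A R ↔ AndF N (PS N (convert_sw F) i false) R A
    rw [h]
    exact convert_OrF_sw

/-- the claim -/
def convert_Cl (F : Fam X Ω) (i N : ℕ) (A : Set X) (R : Set Ω) : Prop :=
  OrF N (PS N F i true) A R ∧ AndF N (PS N F i false) A R

theorem convert_Cl_sw {F : Fam X Ω} {i N : ℕ} {A : Set X} {R : Set Ω} :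
    convert_Cl F i N A R ↔ convert_Cl (convert_sw F) i N R A := by
  have h1 : PS N F i true = convert_sw (PS N (convert_sw F) i false) := by
    funext A R
    exact propext (convert_PS_sw i true A R)
  have h2 : PS N F i false = convert_sw (PS N (convert_sw F) i true) := by
    funext A R
    exact propext (convert_PS_sw i false A R)
  have e1 : OrF N (PS N F i true) A R ↔ AndF N (PS N (convert_sw F) i false) R A := by
    rw [h1]
    exact convert_OrF_sw (F := convert_sw (PS N (convert_sw F) i false))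
  have e2 : AndF N (PS N F i false) A R ↔ OrF N (PS N (convert_sw F) i true) R A := by
    rw [h2]
    exact convert_AndF_sw (F := convert_sw (PS N (convert_sw F) i true))
  unfold convert_Cl
  rw [e1, e2]
  exact and_comm

theorem convert_Cl_mono {F : Fam X Ω} {i N N' : ℕ} (hN : N ≤ N') {A A' : Set X} {R R' : Set Ω}
    (hA : A' ⊆ A) (hR : R' ⊆ R) (h : convert_Cl F i N A R) : convert_Cl F i N' A' R' :=
  ⟨convert_OrF_mono hN (PS_mono hN (fun _ _ h => h) i true) hA hR h.1,
    convert_AndF_mono hN (PS_mono hN (fun _ _ h => h) i false) hA hR h.2⟩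

theorem convert_Cl_of {F : Fam X Ω} {i N : ℕ} (hN : 1 ≤ N) {A : Set X} {R : Set Ω}
    (h : F A R) : convert_Cl F i N A R :=
  ⟨convert_OrF_single hN (convert_PS_of hN h i true),
    convert_AndF_single hN (convert_PS_of hN h i false)⟩

theorem convert_flat {N' : ℕ} {F : Fam X Ω} (ps : List (Set X × Set Ω))
    (h : ∀ p ∈ ps, AndF N' F p.1 p.2) : AndF (ps.length * N') F
      {x | ∀ p ∈ ps, x ∈ p.1} {ω | ∃ p ∈ ps, ω ∈ p.2} := by
  induction ps with
  | nil => exact ⟨[], by simp, by simp, by simp, by simp⟩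
  | cons p ps ih =>
    obtain ⟨l, h1, h2, h3, h4⟩ := h p (by simp)
    obtain ⟨l', h1', h2', h3', h4'⟩ := ih (fun q hq => h q (by simp [hq]))
    refine ⟨l ++ l', ?_, ?_, ?_, ?_⟩
    · rw [List.length_append, List.length_cons, Nat.succ_mul]
      omega
    · intro q hq
      rcases List.mem_append.1 hq with hq | hq
      · exact h2 q hq
      · exact h2' q hq
    · intro x hx q hq
      rcases List.mem_append.1 hq with hq | hq
      · exact h3 x (hx p (by simp)) q hq
      · exact h3' x (fun r hr => hx r (by simp [hr])) q hq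
    · rintro ω ⟨r, hr, hω⟩
      rcases List.mem_cons.1 hr with rfl | hr
      · obtain ⟨q, hq, hq'⟩ := h4 ω hω
        exact ⟨q, by simp [hq], hq'⟩
      · obtain ⟨q, hq, hq'⟩ := h4' ω ⟨r, hr, hω⟩
        exact ⟨q, by simp [hq], hq'⟩

/-- large conjunctions -/
theorem convert_large {F : Fam X Ω} {i N N' : ℕ} (ps : List (Set X × Set Ω))
    (hps : ∀ p ∈ ps, convert_Cl F i N' p.1 p.2) (h1 : ps.length ≤ N) (h2 : ps.length * N' ≤ N)
    (hN : N' ≤ N) (h1N : 1 ≤ N) (A : Set X) (R : Set Ω) (hA : ∀ x ∈ A, ∀ p ∈ ps, x ∈ p.1)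
    (hR : ∀ ω ∈ R, ∃ p ∈ ps, ω ∈ p.2) : convert_Cl F (i + 1) N A R := by
  refine ⟨convert_OrF_single h1N ?_, ⟨ps, h1, ?_, hA, hR⟩⟩
  · have := convert_flat (N' := N') (F := PS N F i false) ps (fun p hp =>
      convert_AndF_mono le_rfl (PS_mono hN (fun _ _ h => h) i false) (fun _ h => h)
        (fun _ h => h) (hps p hp).2)
    exact convert_AndF_mono h2 (fun _ _ h => h) hA hR this
  · intro p hp
    exact convert_OrF_mono hN (PS_mono hN (fun _ _ h => h) i true) (fun _ h => h)
      (fun _ h => h) (hps p hp).1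

theorem convert_two {N1 N2 : ℕ} {F : Fam X Ω} {A A' : Set X} {R R' : Set Ω}
    (h : AndF N1 F A R) (h' : AndF N2 F A' R') : AndF (N1 + N2) F (A ∩ A') (R ∪ R') := by
  obtain ⟨l, h1, h2, h3, h4⟩ := h
  obtain ⟨l', h1', h2', h3', h4'⟩ := h'
  refine ⟨l ++ l', ?_, ?_, ?_, ?_⟩
  · rw [List.length_append]
    omega
  · intro q hq
    rcases List.mem_append.1 hq with hq | hq
    · exact h2 q hq
    · exact h2' q hq
  · rintro x ⟨hx, hx'⟩ q hq
    rcases List.mem_append.1 hq with hq | hq
    · exact h3 x hx q hq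
    · exact h3' x hx' q hq
  · rintro ω (hω | hω)
    · obtain ⟨q, hq, hq'⟩ := h4 ω hω
      exact ⟨q, by simp [hq], hq'⟩
    · obtain ⟨q, hq, hq'⟩ := h4' ω hω
      exact ⟨q, by simp [hq], hq'⟩

/-- conjunctions of two -/
theorem convert_small {F : Fam X Ω} {i N N' : ℕ} {A A' : Set X} {R R' : Set Ω}
    (h : convert_Cl F (i + 1) N' A R) (h' : convert_Cl F (i + 1) N' A' R')
    (h2 : N' + N' ≤ N) (h3 : N' * N' ≤ N) : convert_Cl F (i + 1) N (A ∩ A') (R ∪ R') := by
  have hN : N' ≤ N := by omega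
  constructor
  · obtain ⟨l, l1, l2, l3, l4⟩ := h.1
    obtain ⟨l', l1', l2', l3', l4'⟩ := h'.1
    refine ⟨(l ×ˢ l').map (fun pq => (pq.1.1 ∩ pq.2.1, pq.1.2 ∪ pq.2.2)), ?_, ?_, ?_, ?_⟩
    · rw [List.length_map, List.length_product]
      exact (Nat.mul_le_mul l1 l1').trans h3
    · intro p hp
      obtain ⟨⟨q, q'⟩, hq, rfl⟩ := List.mem_map.1 hp
      obtain ⟨hq1, hq2⟩ := List.mem_product.1 hq
      have a1 : AndF N' (PS N' F i false) q.1 q.2 := l2 q hq1
      have a2 : AndF N' (PS N' F i false) q'.1 q'.2 := l2' q' hq2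
      exact convert_AndF_mono h2 (PS_mono hN (fun _ _ h => h) i false) (fun _ h => h)
        (fun _ h => h) (convert_two a1 a2)
    · rintro x ⟨hx, hx'⟩
      obtain ⟨q, hq, hq'⟩ := l3 x hx
      obtain ⟨r, hr, hr'⟩ := l3' x hx'
      exact ⟨_, List.mem_map.2 ⟨(q, r), List.mem_product.2 ⟨hq, hr⟩, rfl⟩, hq', hr'⟩
    · intro ω hω p hp
      obtain ⟨⟨q, q'⟩, hq, rfl⟩ := List.mem_map.1 hp
      obtain ⟨hq1, hq2⟩ := List.mem_product.1 hq
      rcases hω with hω | hω
      · exact Or.inl (l4 ω hω q hq1)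
      · exact Or.inr (l4' ω hω q' hq2)
  · exact convert_AndF_mono h2 (PS_mono hN (fun _ _ h => h) (i + 1) false) (fun _ h => h)
      (fun _ h => h) (convert_two h.2 h'.2)

/-- conjunctions of a list of pairs, small or large -/
theorem convert_and {G : Type} {F : Fam X Ω} (a : G → Set X) (r : G → Set Ω) (J C : List G)
    (hJC : J ⊆ C) (s i N N' : ℕ) (hs : C.length ≤ s) (hN' : 1 ≤ N')
    (hN : N = 2 * (s + 1) * N' ^ 2)
    (hsm : J.length ≤ 2 → ∀ g ∈ J, convert_Cl F (i + 1) N' (a g) (r g))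
    (hlg : 2 < J.length → ∀ g ∈ J, convert_Cl F i N' (a g) (r g)) (A : Set X) (R : Set Ω)
    (hA : ∀ x ∈ A, ∀ g ∈ J, x ∈ a g) (hR : ∀ ω ∈ R, ∃ g ∈ J, ω ∈ r g) :
    convert_Cl F (i + 1) N A R := by
  have n1 : 1 ≤ N := by
    rw [hN]
    have : 1 ≤ N' ^ 2 := Nat.one_le_pow _ _ hN'
    nlinarith
  have n2 : N' + N' ≤ N := by
    rw [hN]
    nlinarith [Nat.zero_le s, Nat.zero_le (s * N' ^ 2), Nat.mul_le_mul hN' hN']
  have n3 : N' * N' ≤ N := by
    rw [hN]
    nlinarith [Nat.zero_le s, Nat.zero_le (s * N' ^ 2)]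
  have n4 : s ≤ N := by
    rw [hN]
    have : 1 ≤ N' ^ 2 := Nat.one_le_pow _ _ hN'
    nlinarith [Nat.zero_le s]
  have n5 : s * N' ≤ N := by
    rw [hN]
    have : s * N' ≤ s * N' ^ 2 := Nat.mul_le_mul_left _ (by nlinarith)
    nlinarith [Nat.zero_le (s * N' ^ 2), Nat.zero_le (N' ^ 2)]
  have n6 : N' ≤ N := by omega
  rcases le_or_gt J.length 2 with hJ | hJ
  · have hc := hsm hJ
    match J, hJ, hc, hA, hR with
    | [], _, _, _, hR =>
      refine convert_large [] (by simp) (by simp) (by simp) n6 n1 A R (by simp) ?_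
      intro ω hω
      obtain ⟨g, hg, _⟩ := hR ω hω
      simp at hg
    | [g], _, hc, hA, hR =>
      refine convert_Cl_mono n6 ?_ ?_ (hc g (by simp))
      · intro x hx
        exact hA x hx g (by simp)
      · intro ω hω
        obtain ⟨g', hg', h⟩ := hR ω hω
        rw [List.mem_singleton] at hg'
        rwa [← hg']
    | [g, g'], _, hc, hA, hR =>
      refine convert_Cl_mono le_rfl ?_ ?_
        (convert_small (hc g (by simp)) (hc g' (by simp)) n2 n3)
      · intro x hx
        exact ⟨hA x hx g (by simp), hA x hx g' (by simp)⟩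
      · intro ω hω
        obtain ⟨g'', hg'', h⟩ := hR ω hω
        simp only [List.mem_cons, List.not_mem_nil, or_false] at hg''
        rcases hg'' with rfl | rfl
        · exact Or.inl h
        · exact Or.inr h
    | _ :: _ :: _ :: _, hJ, _, _, _ => simp at hJ
  · classical
    have hlen : J.dedup.length ≤ s :=
      ((List.nodup_dedup J).subperm (fun g hg => hJC (List.mem_dedup.1 hg))).length_le.trans hs
    refine convert_large (J.dedup.map (fun g => (a g, r g))) ?_ ?_ ?_ n6 n1 A R ?_ ?_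
    · intro p hp
      obtain ⟨g, hg, rfl⟩ := List.mem_map.1 hp
      exact hlg hJ g (List.mem_dedup.1 hg)
    · rw [List.length_map]
      omega
    · rw [List.length_map]
      exact (Nat.mul_le_mul_right _ hlen).trans n5
    · intro x hx p hp
      obtain ⟨g, hg, rfl⟩ := List.mem_map.1 hp
      exact hA x hx g (List.mem_dedup.1 hg)
    · intro ω hω
      obtain ⟨g, hg, h⟩ := hR ω hω
      exact ⟨_, List.mem_map.2 ⟨g, List.mem_dedup.2 hg, rfl⟩, h⟩

theorem convert_bd_pos (s d : ℕ) : 1 ≤ bd s d := by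
  induction d with
  | zero => exact le_rfl
  | succ d ih =>
    show 1 ≤ 2 * (s + 1) * (bd s d) ^ 2
    have : 1 ≤ (bd s d) ^ 2 := Nat.one_le_pow _ _ ih
    nlinarith

end convertAux

/-- the claim with a fixed `s` -/
theorem convert_aux {N M : ℕ} {C : List (Gate N M)} (hC : Circ C) {X Ω : Type} (F : Fam X Ω)
    (S : Set (Fin N)) (pv : X → Set (Fin M)) (nv : Ω → Set (Fin M)) (GX : Set X) (GΩ : Set Ω)
    (d s : ℕ) (hs : C.length ≤ s) (h0 : ∀ g ∈ C, g.weft = 0 → g.depth ≤ d →
      F {x | x ∈ GX ∧ g.fn S (pv x)} {ω | ω ∈ GΩ ∧ ¬ g.fn S (nv ω)}) :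
    ∀ g ∈ C, ∀ i δ, g.weft ≤ i → g.depth ≤ δ → δ ≤ d →
      convert_Cl F i (bd s δ)
        {x | x ∈ GX ∧ g.fn S (pv x)} {ω | ω ∈ GΩ ∧ ¬ g.fn S (nv ω)} := by
  induction hC with
  | nil => simp
  | pos j C hC ih =>
    have hs' : C.length ≤ s := by
      rw [List.length_cons] at hs
      omega
    intro g hg i δ hw hd hδ
    rcases List.mem_cons.1 hg with rfl | hg
    · exact convert_Cl_of (convert_bd_pos s δ) (h0 _ (by simp) rfl (hd.trans hδ))
    · exact ih hs' (fun g hg => h0 g (by simp [hg])) g hg i δ hw hd hδ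
  | neg j C hC ih =>
    have hs' : C.length ≤ s := by
      rw [List.length_cons] at hs
      omega
    intro g hg i δ hw hd hδ
    rcases List.mem_cons.1 hg with rfl | hg
    · exact convert_Cl_of (convert_bd_pos s δ) (h0 _ (by simp) rfl (hd.trans hδ))
    · exact ih hs' (fun g hg => h0 g (by simp [hg])) g hg i δ hw hd hδ
  | inst j C hC ih =>
    have hs' : C.length ≤ s := by
      rw [List.length_cons] at hs
      omega
    intro g hg i δ hw hd hδ
    rcases List.mem_cons.1 hg with rfl | hg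
    · exact convert_Cl_of (convert_bd_pos s δ) (h0 _ (by simp) rfl (hd.trans hδ))
    · exact ih hs' (fun g hg => h0 g (by simp [hg])) g hg i δ hw hd hδ
  | and J C w dd hJ hC hdep hweft ih =>
    have hs' : C.length ≤ s := by
      rw [List.length_cons] at hs
      omega
    intro g hg i δ hw hd hδ
    rcases List.mem_cons.1 hg with rfl | hg
    · have IH := ih hs' (fun g hg => h0 g (by simp [hg]))
      rcases Nat.eq_zero_or_pos w with hw0 | hw0
      · exact convert_Cl_of (convert_bd_pos s δ) (h0 _ (by simp) hw0 (hd.trans hδ))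
      · simp only at hw hd
        obtain ⟨i, rfl⟩ : ∃ i', i = i' + 1 := ⟨i - 1, by omega⟩
        rcases J with _ | ⟨g0, J'⟩
        · refine convert_large [] (by simp) (by simp) (by simp) le_rfl (convert_bd_pos s δ)
            _ _ (by simp) ?_
          rintro ω ⟨_, hω⟩
          simp at hω
        · have hδ1 : 1 ≤ δ := by
            have := hdep g0 (by simp)
            omega
          obtain ⟨δ', rfl⟩ : ∃ δ', δ = δ' + 1 := ⟨δ - 1, by omega⟩
          refine convert_and (fun g => {x | x ∈ GX ∧ g.fn S (pv x)})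
            (fun g => {ω | ω ∈ GΩ ∧ ¬ g.fn S (nv ω)}) (g0 :: J') C hJ s i _ (bd s δ') hs'
            (convert_bd_pos s δ') rfl ?_ ?_ _ _ ?_ ?_
          · intro hJ2 g hg
            have h1 := hdep g hg
            have h2 := hweft g hg
            rw [if_neg (by omega)] at h2
            exact IH g (hJ hg) (i + 1) δ' (by omega) (by omega) (by omega)
          · intro hJ2 g hg
            have h1 := hdep g hg
            have h2 := hweft g hg
            rw [if_pos hJ2] at h2
            exact IH g (hJ hg) i δ' (by omega) (by omega) (by omega)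
          · rintro x ⟨hx, hx'⟩ g hg
            exact ⟨hx, hx' g hg⟩
          · rintro ω ⟨hω, hω'⟩
            by_contra hcon
            push Not at hcon
            apply hω'
            intro g hg
            by_contra h
            exact hcon g hg ⟨hω, h⟩
    · exact ih hs' (fun g hg => h0 g (by simp [hg])) g hg i δ hw hd hδ
  | or J C w dd hJ hC hdep hweft ih =>
    have hs' : C.length ≤ s := by
      rw [List.length_cons] at hs
      omega
    intro g hg i δ hw hd hδ
    rcases List.mem_cons.1 hg with rfl | hg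
    · have IH := ih hs' (fun g hg => h0 g (by simp [hg]))
      rcases Nat.eq_zero_or_pos w with hw0 | hw0
      · exact convert_Cl_of (convert_bd_pos s δ) (h0 _ (by simp) hw0 (hd.trans hδ))
      · simp only at hw hd
        obtain ⟨i, rfl⟩ : ∃ i', i = i' + 1 := ⟨i - 1, by omega⟩
        rw [convert_Cl_sw]
        rcases J with _ | ⟨g0, J'⟩
        · refine convert_large [] (by simp) (by simp) (by simp) le_rfl (convert_bd_pos s δ)
            _ _ (by simp) ?_
          rintro x ⟨_, hx⟩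
          simp at hx
        · have hδ1 : 1 ≤ δ := by
            have := hdep g0 (by simp)
            omega
          obtain ⟨δ', rfl⟩ : ∃ δ', δ = δ' + 1 := ⟨δ - 1, by omega⟩
          refine convert_and (fun g => {ω | ω ∈ GΩ ∧ ¬ g.fn S (nv ω)})
            (fun g => {x | x ∈ GX ∧ g.fn S (pv x)}) (g0 :: J') C hJ s i _ (bd s δ') hs'
            (convert_bd_pos s δ') rfl ?_ ?_ _ _ ?_ ?_
          · intro hJ2 g hg
            have h1 := hdep g hg
            have h2 := hweft g hg
            rw [if_neg (by omega)] at h2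
            rw [← convert_Cl_sw]
            exact IH g (hJ hg) (i + 1) δ' (by omega) (by omega) (by omega)
          · intro hJ2 g hg
            have h1 := hdep g hg
            have h2 := hweft g hg
            rw [if_pos hJ2] at h2
            rw [← convert_Cl_sw]
            exact IH g (hJ hg) i δ' (by omega) (by omega) (by omega)
          · rintro ω ⟨hω, hω'⟩ g hg
            exact ⟨hω, fun h => hω' ⟨g, hg, h⟩⟩
          · rintro x ⟨hx, g, hg, hx'⟩
            exact ⟨g, hg, hx, hx'⟩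
    · exact ih hs' (fun g hg => h0 g (by simp [hg])) g hg i δ hw hd hδ

/-- Gates of weft `i` are disjunctions of `i`-level conjunctions and conjunctions of `i`-level
disjunctions. -/
theorem convert {N M : ℕ} {C : List (Gate N M)} (hC : Circ C) {X Ω : Type} (F : Fam X Ω)
    (S : Set (Fin N)) (pv : X → Set (Fin M)) (nv : Ω → Set (Fin M)) (GX : Set X) (GΩ : Set Ω)
    (d : ℕ) (h0 : ∀ g ∈ C, g.weft = 0 → g.depth ≤ d →
      F {x | x ∈ GX ∧ g.fn S (pv x)} {ω | ω ∈ GΩ ∧ ¬ g.fn S (nv ω)}) :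
    ∀ g ∈ C, ∀ i δ, g.weft ≤ i → g.depth ≤ δ → δ ≤ d →
      OrF (bd C.length δ) (PS (bd C.length δ) F i true)
        {x | x ∈ GX ∧ g.fn S (pv x)} {ω | ω ∈ GΩ ∧ ¬ g.fn S (nv ω)} ∧
      AndF (bd C.length δ) (PS (bd C.length δ) F i false)
        {x | x ∈ GX ∧ g.fn S (pv x)} {ω | ω ∈ GΩ ∧ ¬ g.fn S (nv ω)} :=
  convert_aux hC F S pv nv GX GΩ d C.length le_rfl h0

end Pool.Agent.W_MP_5f6b2a_mono
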