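import Pool.Agent.W_MP_5f6b2a_mono.Closure
import Pool.Agent.W_MP_5f6b2a_mono.Convert
import Pool.Agent.W_MP_5f6b2a_mono.Prob

/-! The criterion for lower bounds. -/

set_option autoImplicit false

namespace Pool.Agent.W_MP_5f6b2a_mono

/-- The criterion: for every monotone circuit `L` of size `ℓ` there are positive and negative test
inputs such that the pairs belonging to the gates of `L` form a family `F` for which `t`-level
conjunctions that reject half of the negative inputs accept few positive ones. -/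
def Crit {ι : Type} (f : Set ι → Prop) (t ℓ Nf : ℕ) (δ : ℝ) : Prop :=
  ∀ L : List (Set ι → Prop), Mono L → L.length ≤ ℓ →
    ∃ (X Ω : Type) (_ : Finite X) (_ : Finite Ω) (pos : X → Set ι) (neg : Ω → Set ι)
      (GX : Set X) (GΩ : Set Ω) (F : Fam X Ω),
      (∀ x ∈ GX, f (pos x)) ∧ (∀ ω ∈ GΩ, ¬ f (neg ω)) ∧ 1 / 2 ≤ P GX ∧ 1 / 2 ≤ P GΩ ∧
      (∀ T ∈ L, F {x | x ∈ GX ∧ T (pos x)} {ω | ω ∈ GΩ ∧ ¬ T (neg ω)}) ∧
      ∀ A R, PS Nf F t true A R → 1 / 2 ≤ P R → P A ≤ δ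

theorem Core_cl_mono {m m' : ℕ} (h : m ≤ m') (d : ℕ) : cl m d ≤ cl m' d := by
  induction d with
  | zero => simp only [cl]; omega
  | succ d ih =>
    simp only [cl]
    exact Nat.mul_le_mul_left _ (Nat.pow_le_pow_left (Nat.add_le_add_right ih 1) 2)

theorem Core_bd_mono {s s' : ℕ} (h : s ≤ s') (d : ℕ) : bd s d ≤ bd s' d := by
  induction d with
  | zero => simp only [bd]; omega
  | succ d ih =>
    simp only [bd]
    exact Nat.mul_le_mul (Nat.mul_le_mul_left _ (Nat.add_le_add_right h 1))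
      (Nat.pow_le_pow_left ih 2)

/-- Under the criterion `f` has no small representation of weft `t`. -/
theorem core {ι : Type} (f : Set ι → Prop) (t ℓ Nf : ℕ) (δ : ℝ) (crit : Crit f t ℓ Nf δ)
    {N M k' m s d : ℕ} (T : Fin M → Set ι → Prop) (L : List (Set ι → Prop))
    (C : List (Gate N M)) (o : Gate N M) (hL : Mono L) (hm : L.length ≤ m) (hT : ∀ j, T j ∈ L)
    (hC : Circ C) (hs : C.length ≤ s) (ho : o ∈ C) (hw : o.weft ≤ t) (hd : o.depth ≤ d)
    (h1 : cl m d ≤ ℓ) (h2 : bd s d ≤ Nf) (hδ : 0 ≤ δ)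
    (h3 : ((N : ℝ) + 1) ^ k' * (Nf * δ) < 1 / 2)
    (hrep : ∀ e : Set ι, f e ↔ ∃ S : Finset (Fin N), S.card = k' ∧ o.fn ↑S {j | T j e}) :
    False := by
  obtain ⟨Ls, hMono, hLs0, hTrue, hFalse, hstep, hcomb, hlen⟩ := closure L hL
  have hℓ : (Ls d).length ≤ ℓ := ((hlen d).trans (Core_cl_mono hm d)).trans h1
  obtain ⟨X, Ω, _, _, pos, neg, GX, GΩ, F, hpos, hneg, hGX, hGΩ, hF, hPS⟩ :=
    crit (Ls d) (hMono d) hℓ
  have hbd : bd C.length d ≤ Nf := (Core_bd_mono hs d).trans h2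
  -- the accepted positive inputs for a fixed assignment
  have key : ∀ S : Finset (Fin N), S.card = k' →
      P {x | x ∈ GX ∧ o.fn ↑S {j | T j (pos x)}} ≤ Nf * δ := by
    intro S hS
    have h0 : ∀ g ∈ C, g.weft = 0 → g.depth ≤ d →
        F {x | x ∈ GX ∧ g.fn ↑S {j | T j (pos x)}}
          {ω | ω ∈ GΩ ∧ ¬ g.fn ↑S {j | T j (neg ω)}} := by
      intro g hg hgw hgd
      have := weft_zero Ls hTrue hFalse hstep hcomb T (fun j => hLs0 (hT j)) C hC (↑S) g hg d
        hgw hgd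
      exact hF _ this
    obtain ⟨⟨l, hl1, hl2, hl3, hl4⟩, -⟩ := convert hC F (↑S)
      (fun x => {j | T j (pos x)}) (fun ω => {j | T j (neg ω)}) GX GΩ d h0 o ho t d hw hd le_rfl
    have hmem : ∀ p ∈ l, P p.1 ≤ δ := by
      intro p hp
      apply hPS p.1 p.2 (PS_mono hbd (fun _ _ h => h) t true _ _ (hl2 p hp))
      refine hGΩ.trans (P_mono ?_)
      intro ω hω
      refine hl4 ω ⟨hω, ?_⟩ p hp
      intro hacc
      exact hneg ω hω ((hrep (neg ω)).2 ⟨S, hS, hacc⟩)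
    have h5 := P_list_le l (fun p => p.1) {x | x ∈ GX ∧ o.fn ↑S {j | T j (pos x)}} δ hl3 hmem
    refine h5.trans (mul_le_mul_of_nonneg_right ?_ hδ)
    exact_mod_cast hl1.trans hbd
  have hunion := P_biUnion_le (Finset.powersetCard k' (Finset.univ : Finset (Fin N)))
    (fun S => {x | x ∈ GX ∧ o.fn ↑S {j | T j (pos x)}}) GX (by
      intro x hx
      obtain ⟨S, hS, hacc⟩ := (hrep (pos x)).1 (hpos x hx)
      exact ⟨S, Finset.mem_powersetCard.2 ⟨Finset.subset_univ _, hS⟩, hx, hacc⟩)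
  have hsum : ∑ S ∈ Finset.powersetCard k' (Finset.univ : Finset (Fin N)),
      P {x | x ∈ GX ∧ o.fn ↑S {j | T j (pos x)}} ≤
      (Finset.powersetCard k' (Finset.univ : Finset (Fin N))).card • ((Nf : ℝ) * δ) :=
    Finset.sum_le_card_nsmul _ _ _ (fun S hS => key S (Finset.mem_powersetCard.1 hS).2)
  rw [Finset.card_powersetCard, Finset.card_univ, Fintype.card_fin, nsmul_eq_mul] at hsum
  have hchoose : ((N.choose k' : ℕ) : ℝ) ≤ ((N : ℝ) + 1) ^ k' := by
    have h6 : N.choose k' ≤ (N + 1) ^ k' :=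
      (Nat.choose_le_pow N k').trans (Nat.pow_le_pow_left (Nat.le_succ N) k')
    exact_mod_cast h6
  have hNδ : 0 ≤ (Nf : ℝ) * δ := mul_nonneg (Nat.cast_nonneg _) hδ
  have h7 := mul_le_mul_of_nonneg_right hchoose hNδ
  linarith

end Pool.Agent.W_MP_5f6b2a_mono
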