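import Pool.Agent.W_MP_5f6b2a_mono.Prob

/-! Revealing the coordinates of a random function. -/

set_option autoImplicit false

namespace Pool.Agent.W_MP_5f6b2a_mono

/-- membership in `Q` depends only on the coordinates in `T` -/
def Dep {C B : Type} (Q : Set (C → B)) (T : Finset C) : Prop :=
  ∀ f g : C → B, (∀ c ∈ T, f c = g c) → (f ∈ Q ↔ g ∈ Q)

theorem cube_fac_nonneg {b : ℝ} (hb : 1 ≤ b) (m : ℕ) : 0 ≤ 1 - 1 / b ^ m := by
  have h1 : (1 : ℝ) ≤ b ^ m := one_le_pow₀ hb
  have h2 : 1 / b ^ m ≤ 1 := by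
    rw [div_le_one (by linarith)]
    exact h1
  linarith

theorem cube_fac_mono {b : ℝ} (hb : 1 ≤ b) {k m : ℕ} (hk : k ≤ m) :
    1 - 1 / b ^ k ≤ 1 - 1 / b ^ m := by
  have h1 : b ^ k ≤ b ^ m := pow_le_pow_right₀ hb hk
  have h0 : (0 : ℝ) < b ^ k := by positivity
  have h2 : 1 / b ^ m ≤ 1 / b ^ k := one_div_le_one_div_of_le h0 h1
  linarith

theorem cube_card {C : Type} [DecidableEq C] (T : Finset C) (S' : Finset {i // ¬ i ∈ T})
    (m K : ℕ) (hT : T.card ≤ m) (hS : S'.card ≤ m * K) :
    (T ∪ S'.map (Function.Embedding.subtype _)).card ≤ m * (K + 1) := by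
  refine (Finset.card_union_le _ _).trans ?_
  rw [Finset.card_map]
  nlinarith

open scoped Classical in
theorem cube_dep {C B : Type} (Q : Set (C → B)) (T T₁ : Finset C) (h : Dep Q T₁)
    (τ : {i // i ∈ T} → B) :
    Dep {g : {i // ¬ i ∈ T} → B | (fun i => if h : i ∈ T then τ ⟨i, h⟩ else g ⟨i, h⟩) ∈ Q}
      (T₁.subtype (fun i => ¬ i ∈ T)) := by
  intro f g hfg
  refine h _ _ ?_
  intro c hc
  by_cases hcT : c ∈ T
  · simp [hcT]
  · simp only [hcT, dite_false]
    exact hfg ⟨c, hcT⟩ (by simpa using hc)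

open scoped Classical in
theorem cube_subtype_card {C : Type} (T T₁ : Finset C) (m : ℕ) (h : T₁.card ≤ m) :
    (T₁.subtype (fun i => ¬ i ∈ T)).card ≤ m := by
  rw [Finset.card_subtype]
  exact (Finset.card_filter_le _ _).trans h

/-- Let every member of `𝒬` depend on at most `m` coordinates. It is unlikely that a random
function avoids all members of `𝒬` but that this is not implied by its values on some set of at
most `m * K` coordinates. -/
theorem reveal {C B : Type} [Finite C] [Finite B] [Nonempty B] (m K : ℕ) (𝒬 : Set (Set (C → B)))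
    (hdep : ∀ Q ∈ 𝒬, ∃ T : Finset C, T.card ≤ m ∧ Dep Q T) :
    P {f : C → B | (∀ Q ∈ 𝒬, f ∉ Q) ∧ ¬ ∃ S : Finset C, S.card ≤ m * K ∧
      ∀ g : C → B, (∀ c ∈ S, g c = f c) → ∀ Q ∈ 𝒬, g ∉ Q} ≤
      (1 - 1 / (Nat.card B : ℝ) ^ m) ^ K := by
  classical
  have hb : (1 : ℝ) ≤ (Nat.card B : ℝ) := by exact_mod_cast Nat.card_pos
  induction K generalizing C with
  | zero =>
    rw [pow_zero]
    exact P_le_one _
  | succ K ih =>
    by_cases hne : ∃ Q ∈ 𝒬, Q.Nonempty
    · obtain ⟨Q, hQ, f₀, hf₀⟩ := hne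
      obtain ⟨T, hTm, hT⟩ := hdep Q hQ
      refine (P_split T _ ((1 - 1 / (Nat.card B : ℝ) ^ m) ^ K)
        (pow_nonneg (cube_fac_nonneg hb m) K) ?_ (fun i => f₀ i) ?_).trans ?_
      · intro τ
        refine (P_mono ?_).trans (ih (C := {i // ¬ i ∈ T})
          {Q' | ∃ Q ∈ 𝒬, Q' = {g : {i // ¬ i ∈ T} → B |
            (fun i => if h : i ∈ T then τ ⟨i, h⟩ else g ⟨i, h⟩) ∈ Q}} ?_)
        · rintro g ⟨hg1, hg2⟩
          refine ⟨?_, ?_⟩
          · rintro _ ⟨Q', hQ', rfl⟩ hg
            exact hg1 Q' hQ' hg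
          · rintro ⟨S', hS'c, hS'⟩
            refine hg2 ⟨T ∪ S'.map (Function.Embedding.subtype _),
              cube_card T S' m K hTm hS'c, ?_⟩
            intro g' hg' Q' hQ' hmem
            refine hS' (fun i => g' i) ?_ _ ⟨Q', hQ', rfl⟩ ?_
            · intro c hc
              have := hg' c (Finset.mem_union_right _
                (Finset.mem_map.2 ⟨c, hc, rfl⟩))
              rw [this]
              simp [c.2]
            · have hEq : (fun i => if h : i ∈ T then τ ⟨i, h⟩ else g' i) = g' := by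
                funext i
                by_cases hi : i ∈ T
                · have := hg' i (Finset.mem_union_left _ hi)
                  rw [this]
                  simp [hi]
                · simp [hi]
              show (fun i => if h : i ∈ T then τ ⟨i, h⟩ else g' i) ∈ Q'
              rw [hEq]
              exact hmem
        · rintro _ ⟨Q', hQ', rfl⟩
          obtain ⟨T₁, hT₁m, hT₁⟩ := hdep Q' hQ'
          exact ⟨_, cube_subtype_card T T₁ m hT₁m, cube_dep Q' T T₁ hT₁ τ⟩
      · intro g hg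
        refine hg.1 Q hQ ((hT _ _ ?_).2 hf₀)
        intro c hc
        simp [hc]
      · rw [pow_succ, mul_comm]
        exact mul_le_mul_of_nonneg_left (cube_fac_mono hb hTm)
          (pow_nonneg (cube_fac_nonneg hb m) K)
    · have hem : {f : C → B | (∀ Q ∈ 𝒬, f ∉ Q) ∧ ¬ ∃ S : Finset C, S.card ≤ m * (K + 1) ∧
          ∀ g : C → B, (∀ c ∈ S, g c = f c) → ∀ Q ∈ 𝒬, g ∉ Q} = ∅ := by
        ext f
        simp only [Set.mem_setOf_eq, Set.mem_empty_iff_false, iff_false, not_and, not_not]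
        intro _
        refine ⟨∅, by simp, ?_⟩
        intro g _ Q hQ hg
        exact hne ⟨Q, hQ, g, hg⟩
      rw [hem, P_empty]
      exact pow_nonneg (cube_fac_nonneg hb m) _

/-- If outside of every small set of coordinates there is a nonempty condition on few coordinates
which is never satisfied in `A`, then `A` is small. -/
theorem greedy {C B : Type} [Finite C] [Finite B] [Nonempty B] (m M : ℕ) (A : Set (C → B))
    (h : ∀ S : Finset C, S.card ≤ m * M → ∃ (Q : Set (C → B)) (T : Finset C), T.card ≤ m ∧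
      Disjoint S T ∧ Dep Q T ∧ Q.Nonempty ∧ Disjoint A Q) :
    P A ≤ (1 - 1 / (Nat.card B : ℝ) ^ m) ^ M := by
  classical
  have hb : (1 : ℝ) ≤ (Nat.card B : ℝ) := by exact_mod_cast Nat.card_pos
  induction M generalizing C with
  | zero =>
    rw [pow_zero]
    exact P_le_one _
  | succ M ih =>
    obtain ⟨Q, T, hTm, -, hT, ⟨f₀, hf₀⟩, hAQ⟩ := h ∅ (by simp)
    refine (P_split T _ ((1 - 1 / (Nat.card B : ℝ) ^ m) ^ M)
      (pow_nonneg (cube_fac_nonneg hb m) M) ?_ (fun i => f₀ i) ?_).trans ?_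
    · intro τ
      refine ih (C := {i // ¬ i ∈ T}) _ ?_
      intro S' hS'
      obtain ⟨Q', T', hT'm, hdis, hT', ⟨f₁, hf₁⟩, hAQ'⟩ :=
        h (T ∪ S'.map (Function.Embedding.subtype _)) (cube_card T S' m M hTm hS')
      rw [Finset.disjoint_union_left] at hdis
      refine ⟨_, _, cube_subtype_card T T' m hT'm, ?_, cube_dep Q' T T' hT' τ, ?_, ?_⟩
      · rw [Finset.disjoint_left]
        intro c hc hc'
        exact Finset.disjoint_left.1 hdis.2 (Finset.mem_map.2 ⟨c, hc, rfl⟩)
          (by simpa using hc')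
      · refine ⟨fun i => f₁ i, (hT' _ _ ?_).2 hf₁⟩
        intro c hc
        have : c ∉ T := fun hcT => Finset.disjoint_left.1 hdis.1 hcT hc
        simp [this]
      · rw [Set.disjoint_left]
        intro g hg hg'
        exact Set.disjoint_left.1 hAQ' hg hg'
    · intro g hg
      refine Set.disjoint_left.1 hAQ hg ((hT _ _ ?_).2 hf₀)
      intro c hc
      simp [hc]
    · rw [pow_succ, mul_comm]
      exact mul_le_mul_of_nonneg_left (cube_fac_mono hb hTm)
        (pow_nonneg (cube_fac_nonneg hb m) M)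

end Pool.Agent.W_MP_5f6b2a_mono
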