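import Mathlib

/-!
# Parameterized classes with monotone preprocessing

An input of length `n` is coded by the set of the positions which carry a `1`; a Boolean function
of `n` bits is a predicate on `Set (Fin n)`.
-/

set_option autoImplicit false

namespace Pool.Agent.W_MP_5f6b2a_mono

/-- `Mono L`: the list `L` of Boolean functions of the bits indexed by `ι` is a monotone circuit
with unbounded fan-in (a straight line program, the last gate is the head of the list): every
member is an input bit, or the conjunction or the disjunction of functions computed by earlier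
gates. The size of the circuit is the length of `L`; there is no bound on the depth. -/
inductive Mono {ι : Type} : List (Set ι → Prop) → Prop
  | nil : Mono []
  | input (i : ι) (L : List (Set ι → Prop)) : Mono L → Mono ((fun e => i ∈ e) :: L)
  | and (J L : List (Set ι → Prop)) : J ⊆ L → Mono L → Mono ((fun e => ∀ f ∈ J, f e) :: L)
  | or (J L : List (Set ι → Prop)) : J ⊆ L → Mono L → Mono ((fun e => ∃ f ∈ J, f e) :: L)

/-- A gate of a circuit with `N` weighted inputs and `M` instance inputs: the Boolean function which
it computes, with a bound for its weft and a bound for its depth. -/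
structure Gate (N M : ℕ) where
  /-- the function computed at the gate -/
  fn : Set (Fin N) → Set (Fin M) → Prop
  /-- at most this number of large gates on a path from an input to this gate -/
  weft : ℕ
  /-- at most this number of gates on a path from an input to this gate -/
  depth : ℕ

/-- `Circ C`: the list `C` is a circuit with `N` weighted inputs (which may be negated) and `M`
instance inputs (which are used positively). The last gate is the head of the list. A conjunction
or disjunction of fan-in at most `2` is small and does not count for the weft; those of larger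
fan-in are large. -/
inductive Circ {N M : ℕ} : List (Gate N M) → Prop
  | nil : Circ []
  | pos (i : Fin N) (C : List (Gate N M)) : Circ C → Circ (⟨fun x _ => i ∈ x, 0, 0⟩ :: C)
  | neg (i : Fin N) (C : List (Gate N M)) : Circ C → Circ (⟨fun x _ => i ∉ x, 0, 1⟩ :: C)
  | inst (j : Fin M) (C : List (Gate N M)) : Circ C → Circ (⟨fun _ y => j ∈ y, 0, 0⟩ :: C)
  | and (J C : List (Gate N M)) (w d : ℕ) : J ⊆ C → Circ C → (∀ g ∈ J, g.depth + 1 ≤ d) →
      (∀ g ∈ J, g.weft + (if 2 < J.length then 1 else 0) ≤ w) →
      Circ (⟨fun x y => ∀ g ∈ J, g.fn x y, w, d⟩ :: C)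
  | or (J C : List (Gate N M)) (w d : ℕ) : J ⊆ C → Circ C → (∀ g ∈ J, g.depth + 1 ≤ d) →
      (∀ g ∈ J, g.weft + (if 2 < J.length then 1 else 0) ≤ w) →
      Circ (⟨fun x y => ∃ g ∈ J, g.fn x y, w, d⟩ :: C)

/-- The class of the families `f n k` of Boolean functions (of `n` bits, with parameter `k`) for
which there are `c`, `d` and `g` such that for all `n`, `k` there are Boolean functions
`T 0, …, T (M-1)` computed by a monotone circuit `L` of size at most `g k * (n+1)^c` (unbounded
depth) and a gate `o` of weft at most `t` and depth at most `d` of a circuit `C` of size at most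
`g k * (n+1)^c`, whose instance inputs are used positively, with: `f n k e` holds if and only if
some assignment `S` of weight exactly `k' ≤ g k` to the weighted inputs satisfies
`o (S, T 0 e, …, T (M-1) e)`. -/
def MW (t : ℕ) : Set (∀ n : ℕ, ℕ → Set (Fin n) → Prop) :=
  {f | ∃ (c d : ℕ) (g : ℕ → ℕ), ∀ n k : ℕ, ∃ (N M k' : ℕ) (T : Fin M → Set (Fin n) → Prop)
    (L : List (Set (Fin n) → Prop)) (C : List (Gate N M)) (o : Gate N M),
    Mono L ∧ L.length ≤ g k * (n + 1) ^ c ∧ (∀ j, T j ∈ L) ∧
    Circ C ∧ C.length ≤ g k * (n + 1) ^ c ∧ N ≤ g k * (n + 1) ^ c ∧ k' ≤ g k ∧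
    o ∈ C ∧ o.weft ≤ t ∧ o.depth ≤ d ∧
    ∀ e : Set (Fin n), f n k e ↔ ∃ S : Finset (Fin N), S.card = k' ∧ o.fn ↑S {j | T j e}}

end Pool.Agent.W_MP_5f6b2a_mono
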