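import Pool.Agent.W_MP_5f6b2a_mono.Forms
import Pool.Agent.W_MP_5f6b2a_mono.Prob

/-! Adding two levels: the induction on the depth. -/

set_option autoImplicit false

namespace Pool.Agent.W_MP_5f6b2a_mono

theorem Depth_P_fin {n : ℕ} (Z : Finset (Fin n)) : P (↑Z : Set (Fin n)) = Z.card / n := by
  unfold P
  rw [Set.ncard_coe_finset, Nat.card_eq_fintype_card, Fintype.card_fin]

/-- The main step for one `y`. -/
theorem Depth_one {X Ω X' Ω' : Type} [Finite X] [Finite Ω] [Nonempty Ω] {n : ℕ}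
    (hn : 0 < n) (vX : X' ≃ (Fin n → Fin n × X)) (vΩ : Ω' ≃ Fin n × (Fin n → Ω)) (F : Fam X Ω)
    (F' : Fam X' Ω')
    (hF : ∀ A R, F' A R → ∀ (y z : Fin n) (c : Ω → Fin n → Ω), (∀ ω, c ω z = ω) →
      F {x | ∃ x' ∈ A, vX x' y = (z, x)} {ω | vΩ.symm (y, c ω) ∈ R})
    (N t : ℕ) (δ : ℝ) (hδ : 0 ≤ δ) (hS : ∀ A R, PS N F t true A R → 1 / 2 ≤ P R → P A ≤ δ)
    (K : ℕ) (hK : 4 * N < 2 ^ K) (y : Fin n) (A : Set X') (R : Set Ω')
    (hAR : OrF N (PS N F' t true) A R)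
    (hR : 1 / 4 ≤ (N : ℝ) * P {w : Fin n → Ω | vΩ.symm (y, w) ∈ R}) :
    ∃ Bad : Set (Fin n × X), P Bad ≤ (K : ℝ) / n + N * δ ∧ ∀ x ∈ A, vX x y ∈ Bad := by
  classical
  obtain ⟨l, hlN, hl, hAl, hRl⟩ := hAR
  set T : Set (Fin n → Ω) := {w | vΩ.symm (y, w) ∈ R} with hT
  set pr : Fin n → Set Ω := fun z => {ω | ∃ w ∈ T, w z = ω} with hpr
  set Zb : Finset (Fin n) := Finset.univ.filter (fun z => P (pr z) < 1 / 2) with hZb
  -- few bad coordinates
  have hcard : Zb.card < K := by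
    have h1 : P T ≤ ∏ z ∈ Zb, P (pr z) := P_proj Zb T
    have h2 : ∏ z ∈ Zb, P (pr z) ≤ ∏ _z ∈ Zb, (1 / 2 : ℝ) := by
      apply Finset.prod_le_prod
      · intro z _; exact P_nonneg _
      · intro z hz
        exact (Finset.mem_filter.mp hz).2.le
    rw [Finset.prod_const] at h2
    have h3 : (1 / 4 : ℝ) ≤ N * (1 / 2) ^ Zb.card :=
      hR.trans (mul_le_mul_of_nonneg_left (h1.trans h2) (Nat.cast_nonneg N))
    have h4 : (2 : ℝ) ^ Zb.card ≤ 4 * N := by
      have h5 : (0 : ℝ) < 2 ^ Zb.card := by positivity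
      have h6 : ((1 : ℝ) / 2) ^ Zb.card = 1 / 2 ^ Zb.card := by rw [one_div_pow]
      rw [h6, mul_one_div, le_div_iff₀ h5] at h3
      linarith
    have h7 : (2 : ℝ) ^ Zb.card < 2 ^ K := by
      refine lt_of_le_of_lt h4 ?_
      exact_mod_cast hK
    exact (pow_lt_pow_iff_right₀ (by norm_num : (1 : ℝ) < 2)).mp h7
  refine ⟨{q | q.1 ∈ (↑Zb : Set (Fin n)) ∧ q.2 ∈ (Set.univ : Set X)} ∪
    {q | q.1 ∉ Zb ∧ ∃ p ∈ l, ∃ x' ∈ p.1, vX x' y = (q.1, q.2)}, ?_, ?_⟩
  · refine (P_union_le _ _).trans (add_le_add ?_ ?_)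
    · rw [P_prod, Depth_P_fin]
      have h1 : ((Zb.card : ℝ)) / n ≤ (K : ℝ) / n := by
        apply div_le_div_of_nonneg_right _ (Nat.cast_nonneg n)
        exact_mod_cast hcard.le
      have h0 : (0 : ℝ) ≤ (Zb.card : ℝ) / n := by positivity
      calc (Zb.card : ℝ) / n * P (Set.univ : Set X) ≤ (Zb.card : ℝ) / n * 1 :=
            mul_le_mul_of_nonneg_left (P_le_one _) h0
        _ ≤ (K : ℝ) / n := by rw [mul_one]; exact h1
    · apply P_fst_le _ _ (by positivity)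
      intro z
      by_cases hz : z ∈ Zb
      · have : {b : X | (z, b) ∈ {q : Fin n × X | q.1 ∉ Zb ∧ ∃ p ∈ l, ∃ x' ∈ p.1,
            vX x' y = (q.1, q.2)}} = ∅ := by
          ext b; simp [hz]
        rw [this, P_empty]
        positivity
      · have hz2 : 1 / 2 ≤ P (pr z) := by
          by_contra h
          exact hz (Finset.mem_filter.mpr ⟨Finset.mem_univ _, not_le.mp h⟩)
        let c : Ω → Fin n → Ω := fun ω =>
          if h : ∃ w ∈ T, w z = ω then h.choose else fun _ => ω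
        have hc : ∀ ω, c ω z = ω := by
          intro ω
          by_cases h : ∃ w ∈ T, w z = ω
          · simp only [c, dif_pos h]; exact h.choose_spec.2
          · simp only [c, dif_neg h]
        have hcT : ∀ ω ∈ pr z, c ω ∈ T := by
          intro ω h
          have h' : ∃ w ∈ T, w z = ω := h
          simp only [c, dif_pos h']; exact h'.choose_spec.1
        have h1 : P {b : X | (z, b) ∈ {q : Fin n × X | q.1 ∉ Zb ∧ ∃ p ∈ l, ∃ x' ∈ p.1,
            vX x' y = (q.1, q.2)}} ≤ l.length * δ := by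
          apply P_list_le l (fun p => {x | ∃ x' ∈ p.1, vX x' y = (z, x)})
          · rintro b ⟨_, p, hp, x', hx', he⟩
            exact ⟨p, hp, x', hx', he⟩
          · intro p hp
            have h2 := PS_map N F F' (fun x' x => vX x' y = (z, x))
              (fun ω => vΩ.symm (y, c ω)) (fun A R h => hF A R h y z c hc) t true p.1 p.2
              (hl p hp)
            refine hS _ _ h2 (hz2.trans (P_mono ?_))
            intro ω hω
            exact hRl _ (hcT ω hω) p hp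
        refine h1.trans (mul_le_mul_of_nonneg_right ?_ hδ)
        exact_mod_cast hlN
  · intro x hx
    obtain ⟨p, hp, hxp⟩ := hAl x hx
    by_cases hz : (vX x y).1 ∈ Zb
    · exact Or.inl ⟨hz, trivial⟩
    · exact Or.inr ⟨hz, p, hp, x, hxp, rfl⟩

/-- Suppose that for the pair of families `(X, Ω)` every `t`-level conjunction which rejects half
of `Ω` accepts at most the part `δ` of `X`. In the game where the positive player chooses, for every
`y < n`, some `z < n` and a member of `X`, and the negative player chooses one `y` and, for all `z`,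
members of `Ω`, every `(t+2)`-level conjunction which rejects half of the negative choices accepts
at most the part `(K/n + Nδ)^(n/4)` of the positive ones. -/
theorem depth_step {X Ω X' Ω' : Type} [Finite X] [Finite Ω] [Finite X'] [Finite Ω'] {n : ℕ}
    (hn : 0 < n) (vX : X' ≃ (Fin n → Fin n × X)) (vΩ : Ω' ≃ Fin n × (Fin n → Ω)) (F : Fam X Ω)
    (F' : Fam X' Ω')
    (hF : ∀ A R, F' A R → ∀ (y z : Fin n) (c : Ω → Fin n → Ω), (∀ ω, c ω z = ω) →
      F {x | ∃ x' ∈ A, vX x' y = (z, x)} {ω | vΩ.symm (y, c ω) ∈ R})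
    (N t : ℕ) (δ : ℝ) (hδ : 0 ≤ δ) (hS : ∀ A R, PS N F t true A R → 1 / 2 ≤ P R → P A ≤ δ)
    (K : ℕ) (hK : 4 * N < 2 ^ K) (hq : (K : ℝ) / n + N * δ ≤ 1) :
    ∀ A R, PS N F' (t + 2) true A R → 1 / 2 ≤ P R → P A ≤ ((K : ℝ) / n + N * δ) ^ (n / 4) := by
  classical
  intro A R hAR hR
  have hq0 : 0 ≤ (K : ℝ) / n + N * δ := by positivity
  obtain ⟨l, hlN, hl, hAl, hRl⟩ : AndF N (OrF N (PS N F' t true)) A R := hAR
  have hRne : R.Nonempty := (P_pos_iff R).mp (by linarith)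
  obtain ⟨ω0, _⟩ := hRne
  have : Nonempty Ω := ⟨(vΩ ω0).2 ⟨0, hn⟩⟩
  rcases isEmpty_or_nonempty X with hX | hX
  · have : IsEmpty X' := ⟨fun x => hX.false (vX x ⟨0, hn⟩).2⟩
    have hA : A = ∅ := Set.eq_empty_of_isEmpty A
    rw [hA, P_empty]
    positivity
  have hPS : P {p : Fin n × (Fin n → Ω) | vΩ.symm p ∈ R} = P R := P_equiv vΩ.symm R
  have hQ := P_quarter {p : Fin n × (Fin n → Ω) | vΩ.symm p ∈ R} (by rw [hPS]; exact hR)
  set Y1 : Finset (Fin n) := Finset.univ.filter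
    (fun y => 1 / 4 ≤ P {w : Fin n → Ω | vΩ.symm (y, w) ∈ R}) with hY1
  have hY : n / 4 ≤ Y1.card := by
    have h1 : (1 / 4 : ℝ) ≤ (Y1.card : ℝ) / n := by
      rw [← Depth_P_fin]
      refine hQ.trans (le_of_eq ?_)
      congr 1
      ext y
      simp [hY1]
    have h2 : (0 : ℝ) < n := by exact_mod_cast hn
    rw [le_div_iff₀ h2] at h1
    have h3 : (n : ℝ) ≤ 4 * Y1.card := by linarith
    have h4 : n ≤ 4 * Y1.card := by exact_mod_cast h3
    omega
  have hB : ∀ y ∈ Y1, ∃ Bad : Set (Fin n × X), P Bad ≤ (K : ℝ) / n + N * δ ∧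
      ∀ x ∈ A, vX x y ∈ Bad := by
    intro y hy
    have hy2 : 1 / 4 ≤ P {w : Fin n → Ω | vΩ.symm (y, w) ∈ R} := (Finset.mem_filter.mp hy).2
    obtain ⟨p, hp, hpP⟩ := P_pigeon l (fun p => {w : Fin n → Ω | vΩ.symm (y, w) ∈ p.2})
      {w : Fin n → Ω | vΩ.symm (y, w) ∈ R} (fun w hw => hRl _ hw) (by linarith)
    have hN : (l.length : ℝ) ≤ N := by exact_mod_cast hlN
    have hpR : 1 / 4 ≤ (N : ℝ) * P {w : Fin n → Ω | vΩ.symm (y, w) ∈ p.2} :=
      (hy2.trans hpP).trans (mul_le_mul_of_nonneg_right hN (P_nonneg _))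
    obtain ⟨Bad, h1, h2⟩ := Depth_one hn vX vΩ F F' hF N t δ hδ hS K hK y p.1 p.2 (hl p hp) hpR
    exact ⟨Bad, h1, fun x hx => h2 x (hAl x hx p hp)⟩
  choose! Bad hBad1 hBad2 using hB
  have h1 : P A ≤ P {x : X' | vX x ∈ {f : Fin n → Fin n × X | ∀ y ∈ Y1, f y ∈ Bad y}} := by
    apply P_mono
    intro x hx y hy
    exact hBad2 y hy x hx
  rw [P_equiv] at h1
  have : Nonempty (Fin n × X) := ⟨(⟨0, hn⟩, hX.some)⟩
  rw [P_pi] at h1
  have h2 : ∏ y ∈ Y1, P (Bad y) ≤ ∏ _y ∈ Y1, ((K : ℝ) / n + N * δ) := by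
    apply Finset.prod_le_prod
    · intro y _; exact P_nonneg _
    · intro y hy; exact hBad1 y hy
  rw [Finset.prod_const] at h2
  exact (h1.trans h2).trans (pow_le_pow_of_le_one hq0 hq hY)

end Pool.Agent.W_MP_5f6b2a_mono
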