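import Pool.Agent.W_MP_5f6b2a_mono.EvenDefs
import Pool.Agent.W_MP_5f6b2a_mono.Prob

/-! The pairs of the even case. -/

set_option autoImplicit false

namespace Pool.Agent.W_MP_5f6b2a_mono

theorem LPE_restrict {k n b j : ℕ} (s : ℕ) (A : Set (SP n (j + 1)))
    (R : Set (OM Unit k n b (j + 1))) (h : LPE s A R) (y z : Fin n)
    (c : OM Unit k n b j → Fin n → OM Unit k n b j) (hc : ∀ ω, c ω z = ω) :
    LPE s {x | ∃ x' ∈ A, vXE n j x' y = (z, x)} {ω | (vOM Unit k n b j).symm (y, c ω) ∈ R} := by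
  rintro x ⟨x', hx', hx⟩
  obtain ⟨S, hS, hR⟩ := h x' hx'
  refine ⟨S, hS, ?_⟩
  intro ω hω
  obtain ⟨c₁, c₂, hleaf, a, ha, a', ha', hne, heq⟩ := hR _ hω
  have h1 : (c₁.1, (x' c₁.1).1, leafP j (x' c₁.1).2 c₁.2) =
      (y, c₂.1, leafM j (c ω c₂.1).1 c₂.2) := hleaf
  have hy : c₁.1 = y := congrArg Prod.fst h1
  have h2 : ((x' c₁.1).1, leafP j (x' c₁.1).2 c₁.2) =
      (c₂.1, leafM j (c ω c₂.1).1 c₂.2) := congrArg Prod.snd h1
  rw [hy] at h2
  have hx0 : x' y = (z, x) := hx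
  rw [hx0] at h2
  have hz : z = c₂.1 := congrArg Prod.fst h2
  have h3 : leafP j x c₁.2 = leafM j (c ω c₂.1).1 c₂.2 := congrArg Prod.snd h2
  rw [← hz, hc] at h3
  have h4 : (c ω c₂.1).2 c₂.2 a = (c ω c₂.1).2 c₂.2 a' := heq
  rw [← hz, hc] at h4
  exact ⟨c₁.2, c₂.2, h3, a, ha, a', ha', hne, h4⟩

theorem EvenLP_pair {ι : Type} [Finite ι] {b : ℕ} (hb : 0 < b) (a a' : ι) (hne : a ≠ a') :
    P {χ : ι → Fin b | χ a = χ a'} ≤ 1 / (b : ℝ) := by
  classical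
  haveI : Nonempty (Fin b) := ⟨⟨0, hb⟩⟩
  have hb' : (b : ℝ) ≠ 0 := by exact_mod_cast hb.ne'
  refine (P_biUnion_le Finset.univ
    (fun v => {χ : ι → Fin b | ∀ i ∈ ({a, a'} : Finset ι), χ i ∈ ({v} : Set (Fin b))}) _ ?_).trans ?_
  · intro χ hχ
    refine ⟨χ a, Finset.mem_univ _, ?_⟩
    intro i hi
    rw [Finset.mem_insert, Finset.mem_singleton] at hi
    rcases hi with rfl | rfl
    · rfl
    · exact hχ.symm
  · have hv : ∀ v : Fin b, P ({v} : Set (Fin b)) = 1 / (b : ℝ) := by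
      intro v
      simp [P]
    have : ∀ v ∈ (Finset.univ : Finset (Fin b)),
        P {χ : ι → Fin b | ∀ i ∈ ({a, a'} : Finset ι), χ i ∈ ({v} : Set (Fin b))} =
          (1 / (b : ℝ)) ^ 2 := by
      intro v _
      rw [P_pi, Finset.prod_congr rfl (fun i _ => hv v), Finset.prod_const,
        Finset.card_pair hne]
    rw [Finset.sum_congr rfl this, Finset.sum_const, Finset.card_univ, Fintype.card_fin,
      nsmul_eq_mul]
    apply le_of_eq
    field_simp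

theorem LPE_base {k n b : ℕ} (s : ℕ) (hb : 2 * s ^ 2 < b) (A : Set (SP n 0))
    (R : Set (OM Unit k n b 0)) (h : LPE s A R) (hR : 1 / 2 ≤ P R) : P A ≤ 0 := by
  classical
  by_contra hA
  rw [not_le, P_pos_iff] at hA
  obtain ⟨σ, hσ⟩ := hA
  obtain ⟨S, hS, hS2⟩ := h σ hσ
  have hb0 : 0 < b := lt_of_le_of_lt (Nat.zero_le _) hb
  have hbR : (0 : ℝ) < (b : ℝ) := by exact_mod_cast hb0
  have h1 : P R ≤ ∑ p ∈ S.offDiag, P {ω : OM Unit k n b 0 | ω.2 () p.1 = ω.2 () p.2} := by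
    refine P_biUnion_le S.offDiag
      (fun p => {ω : OM Unit k n b 0 | ω.2 () p.1 = ω.2 () p.2}) R ?_
    intro ω hω
    obtain ⟨c, c', -, a, ha, a', ha', hne, heq⟩ := hS2 ω hω
    exact ⟨(a, a'), Finset.mem_offDiag.2 ⟨ha, ha', hne⟩, heq⟩
  have h2 : ∀ p ∈ S.offDiag,
      P {ω : OM Unit k n b 0 | ω.2 () p.1 = ω.2 () p.2} ≤ 1 / (b : ℝ) := by
    intro p hp
    refine P_fst_le _ _ (by positivity) ?_
    intro t
    have h3 : P {χ : Cd Unit n 0 → Rw k n → Fin b | χ () p.1 = χ () p.2} =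
        P {χ : Rw k n → Fin b | χ p.1 = χ p.2} := by
      refine P_equiv (α := Cd Unit n 0 → Rw k n → Fin b) (β := Rw k n → Fin b)
        { toFun := fun χ => χ ()
          invFun := fun χ _ => χ
          left_inv := fun χ => by
            funext u
            rfl
          right_inv := fun χ => rfl } {χ : Rw k n → Fin b | χ p.1 = χ p.2}
    have h4 := EvenLP_pair hb0 p.1 p.2 (Finset.mem_offDiag.1 hp).2.2
    calc P {χ : Cd Unit n 0 → Rw k n → Fin b | χ () p.1 = χ () p.2}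
        = P {χ : Rw k n → Fin b | χ p.1 = χ p.2} := h3
      _ ≤ 1 / (b : ℝ) := h4
  have h5 := h1.trans (Finset.sum_le_sum h2)
  rw [Finset.sum_const, nsmul_eq_mul] at h5
  have h6 : S.offDiag.card ≤ s ^ 2 := by
    rw [Finset.offDiag_card]
    calc S.card * S.card - S.card ≤ S.card * S.card := Nat.sub_le _ _
      _ ≤ s * s := Nat.mul_le_mul hS hS
      _ = s ^ 2 := by ring
  have h7 : ((S.offDiag.card : ℕ) : ℝ) ≤ (s : ℝ) ^ 2 := by exact_mod_cast h6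
  have h8 : 2 * (s : ℝ) ^ 2 < (b : ℝ) := by exact_mod_cast hb
  have h9 : ((S.offDiag.card : ℕ) : ℝ) * (1 / (b : ℝ)) < 1 / 2 := by
    rw [mul_one_div, div_lt_div_iff₀ hbR (by norm_num)]
    linarith
  linarith

end Pool.Agent.W_MP_5f6b2a_mono
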