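import Pool.Agent.W_MP_5f6b2a_mono.EvenDefs
import Pool.Agent.W_MP_5f6b2a_mono.Cube

/-! Negative inputs, even case. -/

set_option autoImplicit false

namespace Pool.Agent.W_MP_5f6b2a_mono

open scoped Classical in
/-- A map which is injective on a part of a small set can be changed outside of this part so that
it becomes injective on the set. -/
theorem extend_inj {R : Type} [Finite R] {b : ℕ} (A S : Finset R) (f : R → Fin b)
    (hA : A.card ≤ b) (hf : Set.InjOn f {a | a ∈ A ∧ a ∈ S}) :
    ∃ h : R → Fin b, (∀ a ∈ S, h a = f a) ∧ (∀ a, a ∉ A → h a = f a) ∧ Set.InjOn h ↑A := by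
  have h1 : ((A ∩ S).image f).card ≤ A.card :=
    Finset.card_image_le.trans (Finset.card_le_card Finset.inter_subset_left)
  obtain ⟨t, ht1, -, ht3⟩ := Finset.exists_subsuperset_card_eq
    (Finset.subset_univ ((A ∩ S).image f)) h1 (by simpa using hA)
  obtain ⟨g, hg⟩ := Finset.exists_equiv_extend_of_card_eq (α := {a // a ∈ A}) (β := Fin b)
    (t := t) (by simpa using ht3.symm) (s := Finset.univ.filter fun a => a.1 ∈ S)
    (f := fun a => f a.1) (by
      intro x hx
      apply ht1
      simp only [Finset.mem_image, Finset.mem_filter, Finset.mem_univ, true_and] at hx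
      obtain ⟨a, ha, rfl⟩ := hx
      exact Finset.mem_image_of_mem f (Finset.mem_inter.2 ⟨a.2, ha⟩)) (by
      intro x hx y hy hxy
      simp only [Finset.coe_filter, Finset.mem_univ, true_and, Set.mem_ofPred_eq] at hx hy
      exact Subtype.ext (hf ⟨x.2, hx⟩ ⟨y.2, hy⟩ hxy))
  refine ⟨fun a => if h : a ∈ A then (g ⟨a, h⟩ : Fin b) else f a, ?_, ?_, ?_⟩
  · intro a ha
    by_cases h : a ∈ A
    · simp only [h, dif_pos]
      exact hg ⟨a, h⟩ (by simpa using ha)
    · simp [h]
  · intro a ha
    simp [ha]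
  · intro x hx y hy hxy
    have hx' : x ∈ A := hx
    have hy' : y ∈ A := hy
    simp only [hx', hy', dif_pos] at hxy
    have := g.injective (Subtype.ext hxy)
    simpa using this

theorem even_minus {k n b : ℕ} (hb : 0 < b) (j s K : ℕ) (hs : s ≤ b)
    (𝒰 : Set (Finset (Rw k n ⊕ Lf Unit n j))) (h𝒰 : ∀ U ∈ 𝒰, U.card ≤ s) :
    P {ω : OM Unit k n b j | ErrN atE ((s ^ 2 * K) ^ 2) 𝒰 (NE ω)} ≤
      (1 - 1 / (b : ℝ) ^ (s ^ 2)) ^ K := by
  classical
  have : Nonempty (Fin b) := ⟨⟨0, hb⟩⟩
  have hb1 : (1 : ℝ) ≤ (b : ℝ) ^ (s ^ 2) := one_le_pow₀ (by exact_mod_cast hb)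
  have h0 : 0 ≤ (1 - 1 / (b : ℝ) ^ (s ^ 2)) ^ K := by
    apply pow_nonneg
    rw [sub_nonneg]
    rw [div_le_one (by positivity)]
    exact hb1
  refine P_fst_le _ _ h0 fun τ => ?_
  have hrev := reveal (C := Cd Unit n j × Rw k n) (B := Fin b) (s ^ 2) K
    {Q | ∃ U ∈ 𝒰, Q = {f : Cd Unit n j × Rw k n → Fin b |
      ¬ Hits atE U (NE ((τ, fun c a => f (c, a)) : OM Unit k n b j))}} (by
    rintro Q ⟨U, hU, rfl⟩
    let f1 : Cd Unit n j × Rw k n → (Lf Unit n j) × Rw k n := fun p => (leafM j τ p.1, p.2)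
    have hf1 : Function.Injective f1 := by
      rintro ⟨c, a⟩ ⟨c', a'⟩ h
      simp only [f1, Prod.mk.injEq] at h
      rw [leafM_inj j τ h.1, h.2]
    have hfin : (Set.univ : Set (Cd Unit n j × Rw k n)).Finite := Set.toFinite _
    let T : Finset (Cd Unit n j × Rw k n) := (Set.toFinite {p : Cd Unit n j × Rw k n |
      Sum.inr (leafM j τ p.1) ∈ U ∧ Sum.inl p.2 ∈ U}).toFinset
    refine ⟨T, ?_, ?_⟩
    · have h1 : T.image f1 ⊆ (U.toRight ×ˢ U.toLeft) := by
        intro q hq
        simp only [T, f1, Finset.mem_image, Set.Finite.mem_toFinset, Set.mem_ofPred_eq] at hq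
        obtain ⟨p, hp, rfl⟩ := hq
        simp only [Finset.mem_product, Finset.mem_toRight, Finset.mem_toLeft]
        exact hp
      have h2 := Finset.card_le_card h1
      rw [Finset.card_image_of_injective _ hf1, Finset.card_product] at h2
      have h3 : U.toLeft.card + U.toRight.card = U.card := Finset.card_toLeft_add_card_toRight
      have h4 := h𝒰 U hU
      have h5 : U.toRight.card ≤ s := by omega
      have h6 : U.toLeft.card ≤ s := by omega
      calc T.card ≤ _ := h2
        _ ≤ s * s := Nat.mul_le_mul h5 h6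
        _ = s ^ 2 := by ring
    · intro f g hfg
      have key : ∀ f g : Cd Unit n j × Rw k n → Fin b, (∀ c ∈ T, f c = g c) →
          Hits atE U (NE ((τ, fun c a => f (c, a)) : OM Unit k n b j)) →
          Hits atE U (NE ((τ, fun c a => g (c, a)) : OM Unit k n b j)) := by
        rintro f g hfg ⟨e, he, heU⟩
        refine ⟨e, ?_, heU⟩
        rw [mem_NE] at he ⊢
        obtain ⟨h1, c, h2, h3⟩ := he
        refine ⟨h1, c, h2, ?_⟩
        have hc : Sum.inr (leafM j τ c) ∈ U := by
          apply heU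
          rw [h2.symm]
          simp [atE]
        have ha : Sum.inl e.1.1 ∈ U := heU (by simp [atE])
        have ha' : Sum.inl e.1.2 ∈ U := heU (by simp [atE])
        have e1 := hfg (c, e.1.1) (by simp [T, hc, ha])
        have e2 := hfg (c, e.1.2) (by simp [T, hc, ha'])
        simp only at h3 ⊢
        rw [← e1, ← e2]
        exact h3
      simp only [Set.mem_ofPred_eq]
      exact not_congr ⟨key f g hfg, key g f fun c hc => (hfg c hc).symm⟩)
  rw [Nat.card_fin] at hrev
  refine le_trans ?_ hrev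
  rw [← P_equiv (Equiv.curry (Cd Unit n j) (Rw k n) (Fin b))]
  apply P_mono
  rintro f ⟨hf1, hf2⟩
  have hf1' : ∀ U ∈ 𝒰, Hits atE U (NE ((τ, fun c a => f (c, a)) : OM Unit k n b j)) := hf1
  refine ⟨?_, ?_⟩
  · rintro Q ⟨U, hU, rfl⟩ hQ
    exact hQ (hf1' U hU)
  · rintro ⟨S, hS, hcert⟩
    apply hf2
    let V : Finset ((Rw k n × Rw k n) × Lf Unit n j) :=
      ((S ×ˢ S).filter fun q => q.1.1 = q.2.1 ∧ q.1.2 ≠ q.2.2 ∧ f q.1 = f q.2).image
        fun q => ((q.1.2, q.2.2), leafM j τ q.1.1)
    have hV : V ⊆ NE ((τ, fun c a => f (c, a)) : OM Unit k n b j) := by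
      intro e he
      simp only [V, Finset.mem_image, Finset.mem_filter, Finset.mem_product] at he
      obtain ⟨q, ⟨-, hq1, hq2, hq3⟩, rfl⟩ := he
      rw [mem_NE]
      refine ⟨hq2, q.1.1, rfl, ?_⟩
      change f (q.1.1, q.1.2) = f (q.1.1, q.2.2)
      rw [show (q.1.1, q.2.2) = q.2 by rw [hq1]]
      exact hq3
    refine ⟨V, hV, ?_, ?_⟩
    · calc V.card ≤ (S ×ˢ S).card := Finset.card_image_le.trans (Finset.card_filter_le _ _)
        _ = S.card ^ 2 := by rw [Finset.card_product]; ring
        _ ≤ (s ^ 2 * K) ^ 2 := Nat.pow_le_pow_left hS 2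
    · intro U hU
      by_contra hno
      have hUl : U.toLeft.card ≤ b := by
        have h3 : U.toLeft.card + U.toRight.card = U.card := Finset.card_toLeft_add_card_toRight
        have h4 := h𝒰 U hU
        omega
      have hext : ∀ c : Cd Unit n j, Sum.inr (leafM j τ c) ∈ U → ∃ h : Rw k n → Fin b,
          (∀ a, (c, a) ∈ S → h a = f (c, a)) ∧ Set.InjOn h ↑U.toLeft := by
        intro c hc
        obtain ⟨h, h1, -, h3⟩ := extend_inj U.toLeft
          ((Set.toFinite {a | (c, a) ∈ S}).toFinset) (fun a => f (c, a)) hUl (by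
            rintro x ⟨hx1, hx2⟩ y ⟨hy1, hy2⟩ hxy
            by_contra hne
            apply hno
            simp only [Set.Finite.mem_toFinset, Set.mem_ofPred_eq] at hx2 hy2
            refine ⟨((x, y), leafM j τ c), ?_, ?_⟩
            · simp only [V, Finset.mem_image, Finset.mem_filter, Finset.mem_product]
              exact ⟨((c, x), (c, y)), ⟨⟨hx2, hy2⟩, rfl, hne, hxy⟩, rfl⟩
            · intro z hz
              simp only [atE, Finset.mem_insert, Finset.mem_singleton] at hz
              rcases hz with rfl | rfl | rfl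
              · exact Finset.mem_toLeft.1 hx1
              · exact Finset.mem_toLeft.1 hy1
              · exact hc)
        exact ⟨h, fun a ha => h1 a (by simpa using ha), h3⟩
      choose h hh1 hh2 using hext
      let g : Cd Unit n j × Rw k n → Fin b := fun p =>
        if hc : Sum.inr (leafM j τ p.1) ∈ U then h p.1 hc p.2 else f p
      have hg1 : ∀ c ∈ S, g c = f c := by
        rintro ⟨c, a⟩ hca
        by_cases hc : Sum.inr (leafM j τ c) ∈ U
        · simp only [g, hc, dif_pos]
          exact hh1 c hc a hca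
        · simp [g, hc]
      refine hcert g hg1 _ ⟨U, hU, rfl⟩ ?_
      rintro ⟨e, he, heU⟩
      rw [mem_NE] at he
      obtain ⟨h1, c, h2, h3⟩ := he
      have hc : Sum.inr (leafM j τ c) ∈ U := by
        apply heU
        rw [h2.symm]
        simp [atE]
      have ha : e.1.1 ∈ U.toLeft := Finset.mem_toLeft.2 (heU (by simp [atE]))
      have ha' : e.1.2 ∈ U.toLeft := Finset.mem_toLeft.2 (heU (by simp [atE]))
      apply h1
      apply hh2 c hc ha ha'
      simpa [g, hc] using h3

end Pool.Agent.W_MP_5f6b2a_mono
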