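import Pool.Agent.W_MP_5f6b2a_mono.Defs

/-! Alternating combinations of pairs of sets, and gates of bounded weft. -/

set_option autoImplicit false

namespace Pool.Agent.W_MP_5f6b2a_mono

/-- a family of pairs (set of accepted positive inputs, set of rejected negative inputs) -/
abbrev Fam (X Ω : Type) := Set X → Set Ω → Prop

/-- conjunctions of at most `N` members of `F` -/
def AndF {X Ω : Type} (N : ℕ) (F : Fam X Ω) : Fam X Ω := fun A R =>
  ∃ l : List (Set X × Set Ω), l.length ≤ N ∧ (∀ p ∈ l, F p.1 p.2) ∧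
    (∀ x ∈ A, ∀ p ∈ l, x ∈ p.1) ∧ (∀ ω ∈ R, ∃ p ∈ l, ω ∈ p.2)

/-- disjunctions of at most `N` members of `F` -/
def OrF {X Ω : Type} (N : ℕ) (F : Fam X Ω) : Fam X Ω := fun A R =>
  ∃ l : List (Set X × Set Ω), l.length ≤ N ∧ (∀ p ∈ l, F p.1 p.2) ∧
    (∀ x ∈ A, ∃ p ∈ l, x ∈ p.1) ∧ (∀ ω ∈ R, ∀ p ∈ l, ω ∈ p.2)

/-- alternating combinations with `i` levels over `F`; the top level is a conjunction for `true`
and a disjunction for `false` -/
def PS {X Ω : Type} (N : ℕ) (F : Fam X Ω) : ℕ → Bool → Fam X Ω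
  | 0, _ => F
  | i + 1, true => AndF N (PS N F i false)
  | i + 1, false => OrF N (PS N F i true)

theorem PS_mono {X Ω : Type} {N N' : ℕ} (h : N ≤ N') {F F' : Fam X Ω}
    (hF : ∀ A R, F A R → F' A R) (i : ℕ) (b : Bool) (A : Set X) (R : Set Ω)
    (hp : PS N F i b A R) : PS N' F' i b A R := by
  induction i generalizing b A R with
  | zero => exact hF A R hp
  | succ i ih =>
    cases b with
    | true =>
      obtain ⟨l, h1, h2, h3, h4⟩ := hp
      exact ⟨l, h1.trans h, fun p hpl => ih false p.1 p.2 (h2 p hpl), h3, h4⟩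
    | false =>
      obtain ⟨l, h1, h2, h3, h4⟩ := hp
      exact ⟨l, h1.trans h, fun p hpl => ih true p.1 p.2 (h2 p hpl), h3, h4⟩

/-- Restricting all pairs of a combination. -/
theorem PS_map {X Ω X' Ω' : Type} (N : ℕ) (F : Fam X Ω) (F' : Fam X' Ω') (ρ : X' → X → Prop)
    (γ : Ω → Ω') (hF : ∀ A R, F' A R → F {x | ∃ x' ∈ A, ρ x' x} {ω | γ ω ∈ R}) (i : ℕ)
    (b : Bool) (A : Set X') (R : Set Ω') (hp : PS N F' i b A R) :
    PS N F i b {x | ∃ x' ∈ A, ρ x' x} {ω | γ ω ∈ R} := by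
  induction i generalizing b A R with
  | zero => exact hF A R hp
  | succ i ih =>
    cases b with
    | true =>
      obtain ⟨l, h1, h2, h3, h4⟩ := hp
      refine ⟨l.map (fun p => ({x | ∃ x' ∈ p.1, ρ x' x}, {ω | γ ω ∈ p.2})), by simpa using h1,
        ?_, ?_, ?_⟩
      · intro q hq
        obtain ⟨p, hpl, rfl⟩ := List.mem_map.mp hq
        exact ih false p.1 p.2 (h2 p hpl)
      · rintro x ⟨x', hx', hr⟩ q hq
        obtain ⟨p, hpl, rfl⟩ := List.mem_map.mp hq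
        exact ⟨x', h3 x' hx' p hpl, hr⟩
      · intro ω hω
        obtain ⟨p, hpl, hp2⟩ := h4 (γ ω) hω
        exact ⟨_, List.mem_map.mpr ⟨p, hpl, rfl⟩, hp2⟩
    | false =>
      obtain ⟨l, h1, h2, h3, h4⟩ := hp
      refine ⟨l.map (fun p => ({x | ∃ x' ∈ p.1, ρ x' x}, {ω | γ ω ∈ p.2})), by simpa using h1,
        ?_, ?_, ?_⟩
      · intro q hq
        obtain ⟨p, hpl, rfl⟩ := List.mem_map.mp hq
        exact ih true p.1 p.2 (h2 p hpl)
      · rintro x ⟨x', hx', hr⟩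
        obtain ⟨p, hpl, hp1⟩ := h3 x' hx'
        exact ⟨_, List.mem_map.mpr ⟨p, hpl, rfl⟩, ⟨x', hp1, hr⟩⟩
      · intro ω hω q hq
        obtain ⟨p, hpl, rfl⟩ := List.mem_map.mp hq
        exact h4 (γ ω) hω p hpl

/-- the size of the combination for a gate -/
def bd (s : ℕ) : ℕ → ℕ
  | 0 => 1
  | d + 1 => 2 * (s + 1) * (bd s d) ^ 2

end Pool.Agent.W_MP_5f6b2a_mono
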