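import Pool.Agent.W_MP_5f6b2a_mono.Games
import Pool.Agent.W_MP_5f6b2a_mono.Forms
import Pool.Agent.W_MP_5f6b2a_mono.Approx

/-! The hard functions of odd index and their test inputs. -/

set_option autoImplicit false

namespace Pool.Agent.W_MP_5f6b2a_mono

/-- `∃ X, |X| = k, ∀ y₁ ∃ z₁ … ∀ v ∃ a ∈ X, E (a, (y₁, z₁, …, v))` -/
def fO (k n j : ℕ) (E : Set (Rw k n × Lf (Fin n) n j)) : Prop :=
  ∃ X : Finset (Rw k n), X.card = k ∧ Ev j (fun l => ∃ a ∈ X, (a, l) ∈ E)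

/-- the map which sends an element to its singleton -/
def sg {ι : Type} (e : ι) : Finset ι := {e}

/-- the edges of the positive input `x` for the rows `(i, D i)` -/
noncomputable def PXO {k n j : ℕ} (D : Fin k → Fin n) (x : XO k n j) :
    Finset (Rw k n × Lf (Fin n) n j) :=
  (Set.toFinite {e : Rw k n × Lf (Fin n) n j |
    ∃ c, e = ((x.2 c, D (x.2 c)), leafP j x.1 c)}).toFinset

/-- the missing edges of the negative input `ω` -/
noncomputable def NO {k n b j : ℕ} (ω : OM (Fin n) k n b j) : Finset (Rw k n × Lf (Fin n) n j) :=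
  (Set.toFinite {e : Rw k n × Lf (Fin n) n j |
    ∃ c, e.2 = leafM j ω.1 c ∧ (ω.2 c e.1).val = 0}).toFinset

theorem mem_PXO {k n j : ℕ} (D : Fin k → Fin n) (x : XO k n j) (e : Rw k n × Lf (Fin n) n j) :
    e ∈ PXO D x ↔ ∃ c, e = ((x.2 c, D (x.2 c)), leafP j x.1 c) := by
  simp [PXO]

theorem mem_NO {k n b j : ℕ} (ω : OM (Fin n) k n b j) (e : Rw k n × Lf (Fin n) n j) :
    e ∈ NO ω ↔ ∃ c, e.2 = leafM j ω.1 c ∧ (ω.2 c e.1).val = 0 := by
  simp [NO]

/-- the pairs `(A, R)` for which every `ω ∈ R` has a short clause of missing edges, without a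
complete column of the rows `(i, D i)`, hit by all members of `A` -/
def LPO {k n b j : ℕ} (s : ℕ) (D : Fin k → Fin n) : Fam (XO k n j) (OM (Fin n) k n b j) :=
  fun A R => ∀ ω ∈ R, ∃ V : Finset (Rw k n × Lf (Fin n) n j), V.card ≤ s ∧ V ⊆ NO ω ∧
    (∀ l, ∃ i, ((i, D i), l) ∉ V) ∧ ∀ x ∈ A, ∃ e ∈ V, e ∈ PXO D x

/-- the bound after `j` steps of the induction on the depth -/
noncomputable def dl (δ₀ : ℝ) (K N n : ℕ) : ℕ → ℝ
  | 0 => δ₀
  | j + 1 => ((K : ℝ) / n + N * dl δ₀ K N n j) ^ (n / 4)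

end Pool.Agent.W_MP_5f6b2a_mono
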