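import Pool.Agent.W_MP_5f6b2a_mono.EvenPos
import Pool.Agent.W_MP_5f6b2a_mono.EvenNeg
import Pool.Agent.W_MP_5f6b2a_mono.EvenLP
import Pool.Agent.W_MP_5f6b2a_mono.Depth
import Pool.Agent.W_MP_5f6b2a_mono.Core
import Pool.Agent.W_MP_5f6b2a_mono.OddDefs

/-! The criterion for the hard functions of even index. -/

set_option autoImplicit false

namespace Pool.Agent.W_MP_5f6b2a_mono

theorem EvenCrit_nonempty_SP {n : ℕ} (hn : 0 < n) : ∀ j, Nonempty (SP n j)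
  | 0 => ⟨()⟩
  | j + 1 => by
    obtain ⟨x⟩ := EvenCrit_nonempty_SP hn j
    exact ⟨fun _ => (⟨0, hn⟩, x)⟩

theorem EvenCrit_nonempty_SM {n : ℕ} (hn : 0 < n) : ∀ j, Nonempty (SM n j)
  | 0 => ⟨()⟩
  | j + 1 => by
    obtain ⟨x⟩ := EvenCrit_nonempty_SM hn j
    exact ⟨(⟨0, hn⟩, fun _ => x)⟩

theorem EvenCrit_dl_nonneg {δ₀ : ℝ} (h : 0 ≤ δ₀) (K N n : ℕ) : ∀ i, 0 ≤ dl δ₀ K N n i
  | 0 => h
  | i + 1 => by
    have := EvenCrit_dl_nonneg h K N n i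
    show 0 ≤ ((K : ℝ) / n + N * dl δ₀ K N n i) ^ (n / 4)
    positivity

/-- The induction on the depth of the game. -/
theorem EvenCrit_depth (k n b j s Nf K' : ℕ) (hn : 0 < n)
    (hb : 2 * s ^ 2 < b) (hK' : 4 * Nf < 2 ^ K')
    (hq : ∀ i < j, (K' : ℝ) / n + Nf * dl 0 K' Nf n i ≤ 1) :
    ∀ i ≤ j, ∀ (A : Set (SP n i)) (R : Set (OM Unit k n b i)),
      PS Nf (LPE s) (2 * i) true A R → 1 / 2 ≤ P R → P A ≤ dl 0 K' Nf n i := by
  intro i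
  induction i with
  | zero =>
    intro _ A R h hR
    exact LPE_base s hb A R h hR
  | succ i ih =>
    intro hi A R h hR
    exact depth_step hn (vXE n i) (vOM Unit k n b i) (LPE s) (LPE s)
      (fun A R h y z c hc => LPE_restrict s A R h y z c hc) Nf (2 * i) (dl 0 K' Nf n i)
      (EvenCrit_dl_nonneg le_rfl K' Nf n i) (ih (by omega)) K' hK' (hq i (by omega)) A R h hR

theorem even_crit (k n b j s K ℓ Nf K' : ℕ) (hn : 0 < n) (hs : 3 ≤ s) (hK : 1 ≤ K)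
    (hb : 2 * s ^ 2 < b) (hbk : b < k) (hK' : 4 * Nf < 2 ^ K')
    (hq : ∀ i < j + 1, (K' : ℝ) / n + Nf * dl 0 K' Nf n i ≤ 1)
    (h1 : 2 * ((ℓ : ℝ) * ((s + 2) * (((s ^ 2 * K) ^ 2 : ℕ) : ℝ) ^ (s + 1) *
      (1 / (n : ℝ)) ^ (s + 1))) < 1)
    (h2 : (ℓ : ℝ) * (1 - 1 / (b : ℝ) ^ (s ^ 2)) ^ K ≤ 1 / 2) :
    Crit (fE k n (j + 1)) (2 * (j + 1)) ℓ Nf (dl 0 K' Nf n (j + 1)) := by
  classical
  intro L hL hLℓ
  have hb0 : 0 < b := by omega
  have hsb : s ≤ b := by nlinarith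
  have hr : 1 ≤ (s ^ 2 * K) ^ 2 := by
    have : 0 < s ^ 2 * K := by positivity
    exact Nat.one_le_pow _ _ this
  have hat : ∀ i : (Rw k n × Rw k n) × Lf Unit n (j + 1), (atE i).card ≤ s := by
    intro i
    refine le_trans ?_ hs
    unfold atE
    exact Finset.card_le_three
  have hLr : (L.length : ℝ) ≤ ℓ := by exact_mod_cast hLℓ
  have ha0 : (0 : ℝ) ≤ (s + 2) * (((s ^ 2 * K) ^ 2 : ℕ) : ℝ) ^ (s + 1) *
      (1 / (n : ℝ)) ^ (s + 1) := by positivity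
  have hb1 : (0 : ℝ) ≤ (1 - 1 / (b : ℝ) ^ (s ^ 2)) ^ K := by
    apply pow_nonneg
    have h3 : (1 : ℝ) ≤ (b : ℝ) ^ (s ^ 2) := one_le_pow₀ (by exact_mod_cast hb0)
    rw [sub_nonneg, div_le_one (by linarith)]
    exact h3
  obtain ⟨BX, BΩ, hBX, hBΩ, happ⟩ := approx (atE (k := k) (n := n) (j := j + 1)) s
    ((s ^ 2 * K) ^ 2) (fun x : (Fin k → Fin n) × SP n (j + 1) => PXE x.1 x.2)
    (NE (k := k) (n := n) (b := b) (j := j + 1)) hat hr _ _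
    (even_plus hn j s _ hr) (even_minus hb0 (j + 1) s K hsb) L hL
  -- the choice of `D`
  have hBX' : 2 * P BX < 1 := by
    have h3 := hBX.trans (mul_le_mul_of_nonneg_right hLr ha0)
    linarith
  have hne : Nonempty (Fin k → Fin n) := ⟨fun _ => ⟨0, hn⟩⟩
  obtain ⟨D, hD⟩ : ∃ D : Fin k → Fin n, P {σ : SP n (j + 1) | (D, σ) ∈ BX} ≤ 1 / 2 := by
    by_contra hno
    push Not at hno
    have h3 : {D : Fin k → Fin n | 1 / 2 < P {σ : SP n (j + 1) | (D, σ) ∈ BX}} = Set.univ := by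
      ext D
      simp only [Set.mem_ofPred_eq, Set.mem_univ, iff_true]
      exact hno D
    have h4 := P_markov BX
    rw [h3, P_univ] at h4
    linarith
  have hSP := EvenCrit_nonempty_SP hn (j + 1)
  have hSM := EvenCrit_nonempty_SM hn (j + 1)
  have hOM : Nonempty (OM Unit k n b (j + 1)) :=
    hSM.elim fun τ => ⟨(τ, fun _ _ => ⟨0, hb0⟩)⟩
  refine ⟨SP n (j + 1), OM Unit k n b (j + 1), inferInstance, inferInstance,
    fun σ => posI atE (PXE D σ), fun ω => negI (NE ω), {σ | (D, σ) ∈ BX}ᶜ, BΩᶜ, LPE s,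
    fun σ _ => fE_pos D σ, fun ω _ => fE_neg hbk ω, ?_, ?_, ?_, ?_⟩
  · rw [P_compl]
    linarith
  · rw [P_compl]
    have h3 := hBΩ.trans (mul_le_mul_of_nonneg_right hLr hb1)
    linarith
  · intro T hT
    obtain ⟨𝒰, h𝒰c, h𝒰p, h𝒰n⟩ := happ T hT
    rintro σ ⟨hσ, hTσ⟩
    obtain ⟨U, hU, hUσ⟩ := h𝒰p (D, σ) hσ hTσ
    refine ⟨U.toLeft, ?_, ?_⟩
    · have h3 : U.toLeft.card + U.toRight.card = U.card := Finset.card_toLeft_add_card_toRight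
      have h4 := h𝒰c U hU
      omega
    · rintro ω ⟨hω, hTω⟩
      obtain ⟨V, hV, -, hVU⟩ := h𝒰n ω hω hTω
      obtain ⟨e, he, heU⟩ := hVU U hU
      have h5 := (mem_NE ω e).1 (hV he)
      obtain ⟨hne', c', hc', hcol⟩ := h5
      have h6 : (Sum.inr e.2 : Rw k n ⊕ Lf Unit n (j + 1)) ∈ U := heU (by simp [atE])
      have h7 : (Sum.inl e.1.1 : Rw k n ⊕ Lf Unit n (j + 1)) ∈ U := heU (by simp [atE])
      have h8 : (Sum.inl e.1.2 : Rw k n ⊕ Lf Unit n (j + 1)) ∈ U := heU (by simp [atE])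
      have h9 := (mem_PXE D σ _).1 (hUσ h6)
      obtain ⟨i, hi⟩ | ⟨c, hc⟩ := h9
      · exact absurd hi (by simp)
      · refine ⟨c, c', ?_, e.1.1, Finset.mem_toLeft.2 h7, e.1.2, Finset.mem_toLeft.2 h8, hne',
          hcol⟩
        rw [← hc']
        exact (Sum.inr.inj hc).symm
  · exact EvenCrit_depth k n b (j + 1) s Nf K' hn hb hK' hq (j + 1) le_rfl

end Pool.Agent.W_MP_5f6b2a_mono
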