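import Pool.Agent.W_MP_5f6b2a_mono.Games
import Pool.Agent.W_MP_5f6b2a_mono.Forms
import Pool.Agent.W_MP_5f6b2a_mono.Approx

/-! The hard functions of even index and their test inputs. -/

set_option autoImplicit false

namespace Pool.Agent.W_MP_5f6b2a_mono

/-- `∃ X, |X| = k, ∀ y₁ ∃ z₁ … ∀ a ≠ a' ∈ X, E (a, a', (y₁, z₁, …))` -/
def fE (k n j : ℕ) (E : Set ((Rw k n × Rw k n) × Lf Unit n j)) : Prop :=
  ∃ X : Finset (Rw k n), X.card = k ∧
    Ev j (fun l => ∀ a ∈ X, ∀ a' ∈ X, a ≠ a' → ((a, a'), l) ∈ E)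

open scoped Classical in
/-- the atoms of a bit: two rows and a leaf -/
noncomputable def atE {k n j : ℕ} (e : (Rw k n × Rw k n) × Lf Unit n j) :
    Finset (Rw k n ⊕ Lf Unit n j) :=
  {Sum.inl e.1.1, Sum.inl e.1.2, Sum.inr e.2}

/-- the atoms of the positive input `σ` for the rows `(i, D i)` -/
noncomputable def PXE {k n j : ℕ} (D : Fin k → Fin n) (σ : SP n j) :
    Finset (Rw k n ⊕ Lf Unit n j) :=
  (Set.toFinite {a : Rw k n ⊕ Lf Unit n j |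
    (∃ i, a = Sum.inl (i, D i)) ∨ ∃ c, a = Sum.inr (leafP j σ c)}).toFinset

/-- the missing bits of the negative input `ω` -/
noncomputable def NE {k n b j : ℕ} (ω : OM Unit k n b j) :
    Finset ((Rw k n × Rw k n) × Lf Unit n j) :=
  (Set.toFinite {e : (Rw k n × Rw k n) × Lf Unit n j | e.1.1 ≠ e.1.2 ∧
    ∃ c, e.2 = leafM j ω.1 c ∧ ω.2 c e.1.1 = ω.2 c e.1.2}).toFinset

theorem mem_PXE {k n j : ℕ} (D : Fin k → Fin n) (σ : SP n j) (a : Rw k n ⊕ Lf Unit n j) :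
    a ∈ PXE D σ ↔ (∃ i, a = Sum.inl (i, D i)) ∨ ∃ c, a = Sum.inr (leafP j σ c) := by
  simp [PXE]

theorem mem_NE {k n b j : ℕ} (ω : OM Unit k n b j) (e : (Rw k n × Rw k n) × Lf Unit n j) :
    e ∈ NE ω ↔ e.1.1 ≠ e.1.2 ∧ ∃ c, e.2 = leafM j ω.1 c ∧ ω.2 c e.1.1 = ω.2 c e.1.2 := by
  simp [NE]

/-- the pairs `(A, R)` for which every `σ ∈ A` has a small set of rows on which the labels at the
common leaf are not injective, for all members of `R` -/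
def LPE {k n b j : ℕ} (s : ℕ) : Fam (SP n j) (OM Unit k n b j) :=
  fun A R => ∀ σ ∈ A, ∃ S : Finset (Rw k n), S.card ≤ s ∧ ∀ ω ∈ R, ∃ c c',
    leafP j σ c = leafM j ω.1 c' ∧ ∃ a ∈ S, ∃ a' ∈ S, a ≠ a' ∧ ω.2 c' a = ω.2 c' a'

end Pool.Agent.W_MP_5f6b2a_mono
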