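import Pool.Agent.W_MP_5f6b2a_mono.Approx

/-! Counting hitting sets along paths. -/

set_option autoImplicit false

namespace Pool.Agent.W_MP_5f6b2a_mono

open Classical in
/-- the successors of `V`: add the atoms of a member of an unhit set -/
noncomputable def paths_step {ι κ : Type} (at' : ι → Finset κ) (𝓕 : Set (Finset ι))
    (V : Finset κ) : Finset (Finset κ) :=
  if h : ∃ F ∈ 𝓕, ¬ Hits at' V F then (h.choose).image (fun e => V ∪ at' e) else ∅

open Classical in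
/-- the sets reached after `i` steps -/
noncomputable def paths_Q {ι κ : Type} (at' : ι → Finset κ) (𝓕 : Set (Finset ι)) :
    ℕ → Finset (Finset κ)
  | 0 => {∅}
  | i + 1 => (paths_Q at' 𝓕 i).biUnion (paths_step at' 𝓕)

theorem paths_step_card {ι κ : Type} (at' : ι → Finset κ) (𝓕 : Set (Finset ι)) (r : ℕ)
    (h𝓕 : ∀ F ∈ 𝓕, F.card ≤ r) (V : Finset κ) : (paths_step at' 𝓕 V).card ≤ r := by
  classical
  unfold paths_step
  split_ifs with h
  · exact Finset.card_image_le.trans (h𝓕 _ h.choose_spec.1)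
  · simp

theorem paths_step_mem {ι κ : Type} (at' : ι → Finset κ) (𝓕 : Set (Finset ι))
    (V V' : Finset κ) (h : V' ∈ paths_step at' 𝓕 V) (h1 : ∀ e, (at' e).card ≤ 1) :
    V'.card ≤ V.card + 1 := by
  classical
  unfold paths_step at h
  split_ifs at h with h2
  · obtain ⟨e, -, rfl⟩ := Finset.mem_image.1 h
    refine (Finset.card_union_le _ _).trans ?_
    have := h1 e
    omega
  · simp at h

theorem paths_step_grow {ι κ : Type} (at' : ι → Finset κ) (𝓕 : Set (Finset ι))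
    (V W : Finset κ) (hVW : V ⊆ W) (hW : ∀ F ∈ 𝓕, Hits at' W F) (hV : ¬ ∀ F ∈ 𝓕, Hits at' V F) :
    ∃ V' ∈ paths_step at' 𝓕 V, V' ⊆ W ∧ V.card + 1 ≤ V'.card := by
  classical
  have h : ∃ F ∈ 𝓕, ¬ Hits at' V F := by
    push Not at hV
    exact hV
  obtain ⟨hF, hnF⟩ := h.choose_spec
  obtain ⟨e, he, heW⟩ := hW _ hF
  have heV : ¬ at' e ⊆ V := fun h3 => hnF ⟨e, he, h3⟩
  refine ⟨V ∪ at' e, ?_, Finset.union_subset hVW heW, ?_⟩
  · unfold paths_step
    rw [dif_pos h]
    exact Finset.mem_image.2 ⟨e, he, rfl⟩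
  · have hss : V ⊂ V ∪ at' e := by
      refine Finset.ssubset_iff_subset_ne.2 ⟨Finset.subset_union_left, ?_⟩
      intro h4
      apply heV
      rw [h4]
      exact Finset.subset_union_right
    exact Finset.card_lt_card hss

/-- For a family `𝓕` of sets of at most `r` elements there are few sets `V` (the members of
`Q 0`, `Q 1`, ...) such that every `W` hitting all members of `𝓕` contains one of them which
hits all members of `𝓕` or is large. -/
theorem paths {ι κ : Type} (at' : ι → Finset κ) (𝓕 : Set (Finset ι)) (r : ℕ)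
    (h𝓕 : ∀ F ∈ 𝓕, F.card ≤ r) :
    ∃ Q : ℕ → Finset (Finset κ), (∀ i, (Q i).card ≤ r ^ i) ∧
      (∀ i, ∀ V ∈ Q i, (∀ e, (at' e).card ≤ 1) → V.card ≤ i) ∧
      ∀ W : Finset κ, (∀ F ∈ 𝓕, Hits at' W F) → ∀ i,
        (∃ i' < i, ∃ V ∈ Q i', V ⊆ W ∧ ∀ F ∈ 𝓕, Hits at' V F) ∨
        (∃ V ∈ Q i, V ⊆ W ∧ i ≤ V.card) := by
  classical
  refine ⟨paths_Q at' 𝓕, ?_, ?_, ?_⟩
  · intro i
    induction i with
    | zero => simp [paths_Q]
    | succ i ih =>
      have h1 : (paths_Q at' 𝓕 (i + 1)).card ≤ (paths_Q at' 𝓕 i).card * r := by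
        rw [show paths_Q at' 𝓕 (i + 1) = (paths_Q at' 𝓕 i).biUnion (paths_step at' 𝓕) from by
          simp only [paths_Q]]
        exact Finset.card_biUnion_le_card_mul _ _ _ (fun V _ => paths_step_card at' 𝓕 r h𝓕 V)
      rw [pow_succ]
      exact h1.trans (Nat.mul_le_mul_right r ih)
  · intro i
    induction i with
    | zero =>
      intro V hV _
      have : V = ∅ := by simpa [paths_Q] using hV
      simp [this]
    | succ i ih =>
      intro V' hV' h1
      obtain ⟨V, hV, hVV'⟩ := Finset.mem_biUnion.1 (by simpa only [paths_Q] using hV')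
      have h2 := paths_step_mem at' 𝓕 V V' hVV' h1
      have h3 := ih V hV h1
      omega
  · intro W hW i
    induction i with
    | zero => exact Or.inr ⟨∅, by simp [paths_Q], by simp, by simp⟩
    | succ i ih =>
      rcases ih with ⟨i', hi', V, hV, hVW, hall⟩ | ⟨V, hV, hVW, hc⟩
      · exact Or.inl ⟨i', by omega, V, hV, hVW, hall⟩
      · by_cases hall : ∀ F ∈ 𝓕, Hits at' V F
        · exact Or.inl ⟨i, by omega, V, hV, hVW, hall⟩
        · obtain ⟨V', hV', hV'W, hc'⟩ := paths_step_grow at' 𝓕 V W hVW hW hall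
          refine Or.inr ⟨V', ?_, hV'W, by omega⟩
          simp only [paths_Q]
          exact Finset.mem_biUnion.2 ⟨V, hV, hV'⟩

/-- It is unlikely that a random set `W ω` hits all members of `𝓕` but that no subset of size at
most `s` does. -/
theorem path_bound {ι κ Ω : Type} [Finite Ω] (at' : ι → Finset κ) (𝓕 : Set (Finset ι)) (r : ℕ)
    (hr : 1 ≤ r) (h𝓕 : ∀ F ∈ 𝓕, F.card ≤ r) (W : Ω → Finset κ) (s : ℕ) (p : ℝ) (h0 : 0 ≤ p)
    (hp : ∀ V : Finset κ, s + 1 ≤ V.card → P {ω | V ⊆ W ω} ≤ p) :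
    P {ω | (∀ F ∈ 𝓕, Hits at' (W ω) F) ∧
      ¬ ∃ V ⊆ W ω, V.card ≤ s ∧ ∀ F ∈ 𝓕, Hits at' V F} ≤ (s + 2) * (r : ℝ) ^ (s + 1) * p := by
  classical
  obtain ⟨Q, hQc, -, hQ⟩ := paths at' 𝓕 r h𝓕
  have h1 := P_biUnion_le (((Finset.range (s + 2)).biUnion Q).filter (fun V => s + 1 ≤ V.card))
    (fun V => {ω | V ⊆ W ω})
    {ω | (∀ F ∈ 𝓕, Hits at' (W ω) F) ∧ ¬ ∃ V ⊆ W ω, V.card ≤ s ∧ ∀ F ∈ 𝓕, Hits at' V F} ?_
  · refine h1.trans ?_
    have h2 : ∑ V ∈ ((Finset.range (s + 2)).biUnion Q).filter (fun V => s + 1 ≤ V.card),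
        P {ω | V ⊆ W ω} ≤
        ∑ V ∈ ((Finset.range (s + 2)).biUnion Q).filter (fun V => s + 1 ≤ V.card), p :=
      Finset.sum_le_sum (fun V hV => hp V (Finset.mem_filter.1 hV).2)
    refine h2.trans ?_
    rw [Finset.sum_const, nsmul_eq_mul]
    apply mul_le_mul_of_nonneg_right _ h0
    have h3 : (((Finset.range (s + 2)).biUnion Q).filter (fun V => s + 1 ≤ V.card)).card ≤
        (s + 2) * r ^ (s + 1) := by
      refine (Finset.card_filter_le _ _).trans ?_
      have h4 := Finset.card_biUnion_le_card_mul (Finset.range (s + 2)) Q (r ^ (s + 1)) (by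
        intro i hi
        have hi' : i < s + 2 := Finset.mem_range.1 hi
        exact (hQc i).trans (Nat.pow_le_pow_right hr (by omega)))
      simpa using h4
    exact_mod_cast h3
  · rintro ω ⟨hall, hno⟩
    rcases hQ (W ω) hall (s + 1) with ⟨i', hi', V, hV, hVW, hVall⟩ | ⟨V, hV, hVW, hc⟩
    · refine ⟨V, Finset.mem_filter.2 ⟨Finset.mem_biUnion.2 ⟨i', Finset.mem_range.2 (by omega), hV⟩,
        ?_⟩, hVW⟩
      by_contra hlt
      exact hno ⟨V, hVW, by omega, hVall⟩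
    · exact ⟨V, Finset.mem_filter.2 ⟨Finset.mem_biUnion.2
        ⟨s + 1, Finset.mem_range.2 (by omega), hV⟩, hc⟩, hVW⟩

end Pool.Agent.W_MP_5f6b2a_mono
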