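import Pool.Agent.W_MP_5f6b2a_mono.EvenDefs
import Pool.Agent.W_MP_5f6b2a_mono.Paths

/-! Positive inputs, even case. -/

set_option autoImplicit false

namespace Pool.Agent.W_MP_5f6b2a_mono

theorem EvenPos_leafM {n : ℕ} : ∀ (j : ℕ) (τ : SM n j) (φ : Lf Unit n j → Prop),
    Ev j φ → ∃ c, φ (leafM j τ c)
  | 0, _, φ, h => ⟨(), h ()⟩
  | j + 1, τ, φ, h => by
    obtain ⟨z, hz⟩ := h τ.1
    obtain ⟨c, hc⟩ := EvenPos_leafM j (τ.2 z) (fun l => φ (τ.1, z, l)) hz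
    exact ⟨(z, c), hc⟩

theorem fE_pos {k n j : ℕ} (D : Fin k → Fin n) (σ : SP n j) : fE k n j (posI atE (PXE D σ)) := by
  classical
  refine ⟨Finset.univ.map ⟨fun i => (i, D i), fun i i' h => (Prod.mk.inj h).1⟩, by simp, ?_⟩
  refine Ev_of_leafP j σ _ ?_
  intro c a ha a' ha' _
  simp only [Finset.mem_map, Finset.mem_univ, true_and] at ha ha'
  obtain ⟨i, rfl⟩ := ha
  obtain ⟨i', rfl⟩ := ha'
  intro x hx
  rw [mem_PXE]
  simp only [atE, Finset.mem_insert, Finset.mem_singleton] at hx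
  rcases hx with rfl | rfl | rfl
  · exact Or.inl ⟨i, rfl⟩
  · exact Or.inl ⟨i', rfl⟩
  · exact Or.inr ⟨c, rfl⟩

theorem fE_neg {k n b j : ℕ} (hb : b < k) (ω : OM Unit k n b j) : ¬ fE k n j (negI (NE ω)) := by
  rintro ⟨X, hX, hE⟩
  obtain ⟨c, hc⟩ := EvenPos_leafM j ω.1 _ hE
  have hcard : (Finset.univ : Finset (Fin b)).card < X.card := by
    rw [hX, Finset.card_univ, Fintype.card_fin]
    exact hb
  obtain ⟨a, ha, a', ha', hne, heq⟩ :=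
    Finset.exists_ne_map_eq_of_card_lt_of_maps_to hcard (f := ω.2 c)
      (fun _ _ => Finset.mem_univ _)
  have h := hc a ha a' ha' hne
  exact h ((mem_NE ω _).2 ⟨hne, c, rfl, heq⟩)

theorem EvenPos_sub {k n : ℕ} (hn : 0 < n) (j s : ℕ)
    (V : Finset (Rw k n ⊕ Lf Unit n (j + 1))) (hV : s + 1 ≤ V.card) :
    P {x : (Fin k → Fin n) × SP n (j + 1) | V ⊆ PXE x.1 x.2} ≤ (1 / (n : ℝ)) ^ (s + 1) := by
  classical
  have hn' : (1 : ℝ) ≤ n := by exact_mod_cast hn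
  have h0 : (0 : ℝ) ≤ 1 / (n : ℝ) := by positivity
  have h1 : 1 / (n : ℝ) ≤ 1 := by
    rw [div_le_one (by linarith)]
    exact hn'
  have hsub : {x : (Fin k → Fin n) × SP n (j + 1) | V ⊆ PXE x.1 x.2} ⊆
      {p : (Fin k → Fin n) × SP n (j + 1) |
        p.1 ∈ {D : Fin k → Fin n | ∀ a ∈ V.toLeft, D a.1 = a.2} ∧
        p.2 ∈ {σ : SP n (j + 1) | ∀ l ∈ V.toRight, ∃ c, leafP (j + 1) σ c = l}} := by
    rintro ⟨D, σ⟩ h
    refine ⟨?_, ?_⟩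
    · intro a ha
      have h2 := (mem_PXE D σ _).1 (h (Finset.mem_toLeft.1 ha))
      rcases h2 with ⟨i, hi⟩ | ⟨c, hc⟩
      · have h3 := Sum.inl_injective hi
        rw [h3]
      · exact absurd hc (by simp)
    · intro l hl
      have h2 := (mem_PXE D σ _).1 (h (Finset.mem_toRight.1 hl))
      rcases h2 with ⟨i, hi⟩ | ⟨c, hc⟩
      · exact absurd hi (by simp)
      · exact ⟨c, (Sum.inr_injective hc).symm⟩
  refine (P_mono hsub).trans ?_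
  rw [P_prod]
  have hc : V.toLeft.card + V.toRight.card = V.card := Finset.card_toLeft_add_card_toRight
  calc P {D : Fin k → Fin n | ∀ a ∈ V.toLeft, D a.1 = a.2} *
        P {σ : SP n (j + 1) | ∀ l ∈ V.toRight, ∃ c, leafP (j + 1) σ c = l}
      ≤ (1 / (n : ℝ)) ^ V.toLeft.card * (1 / (n : ℝ)) ^ V.toRight.card :=
        mul_le_mul (P_rows hn _) (P_leaves hn j _) (P_nonneg _) (pow_nonneg h0 _)
    _ = (1 / (n : ℝ)) ^ V.card := by rw [← pow_add, hc]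
    _ ≤ (1 / (n : ℝ)) ^ (s + 1) := pow_le_pow_of_le_one h0 h1 hV

theorem even_plus {k n : ℕ} (hn : 0 < n) (j s r : ℕ) (hr : 1 ≤ r)
    (𝒱 : Set (Finset ((Rw k n × Rw k n) × Lf Unit n (j + 1)))) (h𝒱 : ∀ V ∈ 𝒱, V.card ≤ r) :
    P {x : (Fin k → Fin n) × SP n (j + 1) | ErrP atE s 𝒱 (PXE x.1 x.2)} ≤
      (s + 2) * (r : ℝ) ^ (s + 1) * (1 / (n : ℝ)) ^ (s + 1) :=
  path_bound atE 𝒱 r hr h𝒱 (fun x : (Fin k → Fin n) × SP n (j + 1) => PXE x.1 x.2) s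
    ((1 / (n : ℝ)) ^ (s + 1)) (by positivity) (fun V hV => EvenPos_sub hn j s V hV)

end Pool.Agent.W_MP_5f6b2a_mono
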