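import Pool.Agent.W_MP_5f6b2a_mono.OddDefs
import Pool.Agent.W_MP_5f6b2a_mono.EvenDefs

/-! The separating families. -/

set_option autoImplicit false

namespace Pool.Agent.W_MP_5f6b2a_mono

/-- the family of the functions `fO` -/
def famO (j N k : ℕ) (e : Set (Fin N)) : Prop :=
  ∃ n ≤ N, ∃ h : Nat.card (Rw k n × Lf (Fin n) n j) = N,
    fO k n j {a | Finite.equivFinOfCardEq h a ∈ e}

/-- the family of the functions `fE` -/
def famE (j N k : ℕ) (e : Set (Fin N)) : Prop :=
  ∃ n ≤ N, ∃ h : Nat.card ((Rw k n × Rw k n) × Lf Unit n j) = N,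
    fE k n j {a | Finite.equivFinOfCardEq h a ∈ e}

end Pool.Agent.W_MP_5f6b2a_mono
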