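import Pool.Agent.W_MP_5f6b2a_mono.OddDefs
import Pool.Agent.W_MP_5f6b2a_mono.Paths

/-! Columns, odd case. -/

set_option autoImplicit false

namespace Pool.Agent.W_MP_5f6b2a_mono

theorem oddCol_comm {ι : Type} (U V : Finset ι) (h : Hits sg U V) : Hits sg V U := by
  obtain ⟨e, he, h⟩ := h
  exact ⟨e, by simpa [sg] using h, by simpa [sg] using he⟩

/-- the probability that a fixed finite set contains the column of a fixed leaf -/
theorem oddCol_one {k n : ℕ} (hn : 0 < n) {Λ : Type} (s : ℕ) (V : Finset (Rw k n × Λ))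
    (hV : V.card ≤ s) (l : Λ) :
    P {D : Fin k → Fin n | ∀ c, ((c, D c), l) ∈ V} ≤ ((s : ℝ) / n) ^ k := by
  classical
  have : Nonempty (Fin n) := ⟨⟨0, hn⟩⟩
  have h1 : {D : Fin k → Fin n | ∀ c, ((c, D c), l) ∈ V} =
      {D : Fin k → Fin n | ∀ c ∈ (Finset.univ : Finset (Fin k)),
        D c ∈ (fun c : Fin k => {x : Fin n | ((c, x), l) ∈ V}) c} := by
    ext D
    simp
  rw [h1, P_pi]
  have h2 : ∀ c ∈ (Finset.univ : Finset (Fin k)),
      P ((fun c : Fin k => {x : Fin n | ((c, x), l) ∈ V}) c) ≤ (s : ℝ) / n := by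
    intro c _
    have h3 : {x : Fin n | ((c, x), l) ∈ V}.ncard ≤ s := by
      refine le_trans ?_ hV
      rw [← Set.ncard_coe_finset V]
      refine Set.ncard_le_ncard_of_injOn (fun x => ((c, x), l)) (fun x hx => hx) ?_
        V.finite_toSet
      intro x _ y _ hxy
      simpa using hxy
    unfold P
    rw [Nat.card_eq_fintype_card, Fintype.card_fin]
    exact div_le_div_of_nonneg_right (by exact_mod_cast h3) (Nat.cast_nonneg n)
  calc ∏ c ∈ (Finset.univ : Finset (Fin k)),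
        P ((fun c : Fin k => {x : Fin n | ((c, x), l) ∈ V}) c)
      ≤ ∏ c ∈ (Finset.univ : Finset (Fin k)), ((s : ℝ) / n) :=
        Finset.prod_le_prod (fun c _ => P_nonneg _) h2
    _ = ((s : ℝ) / n) ^ k := by rw [Finset.prod_const, Finset.card_univ, Fintype.card_fin]

/-- For most `D`, small sets hit by all members of `𝒰` can be chosen without a complete column. -/
theorem odd_col {k n : ℕ} (hk : 0 < k) (hn : 0 < n) (j s r : ℕ) (hr : 1 ≤ r)
    (𝒰 : Set (Finset (Rw k n × Lf (Fin n) n j))) (h𝒰 : ∀ U ∈ 𝒰, U.card ≤ r) :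
    ∃ B : Set (Fin k → Fin n),
      P B ≤ (s + 1) * (r : ℝ) ^ s * ((s : ℝ) ^ (k + 1) * (1 / (n : ℝ)) ^ k) ∧
      ∀ D ∉ B, ∀ V : Finset (Rw k n × Lf (Fin n) n j), V.card ≤ s → (∀ U ∈ 𝒰, Hits sg U V) →
        ∃ V' ⊆ V, (∀ U ∈ 𝒰, Hits sg U V') ∧ ∀ l, ∃ i, ((i, D i), l) ∉ V' := by
  classical
  obtain ⟨Q, hQ1, hQ2, hQ3⟩ := paths sg 𝒰 r h𝒰
  have hsg : ∀ e : Rw k n × Lf (Fin n) n j, (sg e).card ≤ 1 := fun e => by simp [sg]
  have hr' : (1 : ℝ) ≤ r := by exact_mod_cast hr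
  set q : ℝ := ((s : ℝ) / n) ^ k with hq
  have hq0 : 0 ≤ q := by positivity
  refine ⟨{D | ∃ i < s + 1, ∃ V ∈ Q i, ∃ l, ∀ c, ((c, D c), l) ∈ V}, ?_, ?_⟩
  · -- one set
    have e1 : ∀ i < s + 1, ∀ V ∈ Q i,
        P {D : Fin k → Fin n | ∃ l, ∀ c, ((c, D c), l) ∈ V} ≤ s * q := by
      intro i hi V hV
      have hc : V.card ≤ s := (hQ2 i V hV hsg).trans (by omega)
      refine (P_biUnion_le (V.image Prod.snd)
        (fun l => {D : Fin k → Fin n | ∀ c, ((c, D c), l) ∈ V}) _ ?_).trans ?_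
      · rintro D ⟨l, hl⟩
        exact ⟨l, Finset.mem_image.2 ⟨_, hl ⟨0, hk⟩, rfl⟩, hl⟩
      · refine (Finset.sum_le_card_nsmul _ _ q (fun l _ => oddCol_one hn s V hc l)).trans ?_
        rw [nsmul_eq_mul]
        refine mul_le_mul_of_nonneg_right ?_ hq0
        exact_mod_cast (Finset.card_image_le.trans hc)
    have e2 : ∀ i < s + 1,
        P {D : Fin k → Fin n | ∃ V ∈ Q i, ∃ l, ∀ c, ((c, D c), l) ∈ V} ≤
          (r : ℝ) ^ s * (s * q) := by
      intro i hi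
      refine (P_biUnion_le (Q i)
        (fun V => {D : Fin k → Fin n | ∃ l, ∀ c, ((c, D c), l) ∈ V}) _ ?_).trans ?_
      · rintro D ⟨V, hV, h⟩
        exact ⟨V, hV, h⟩
      · refine (Finset.sum_le_card_nsmul _ _ (s * q) (fun V hV => e1 i hi V hV)).trans ?_
        rw [nsmul_eq_mul]
        refine mul_le_mul_of_nonneg_right ?_ (by positivity)
        calc ((Q i).card : ℝ) ≤ (r : ℝ) ^ i := by exact_mod_cast hQ1 i
          _ ≤ (r : ℝ) ^ s := pow_le_pow_right₀ hr' (by omega)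
    refine (P_biUnion_le (Finset.range (s + 1))
      (fun i => {D : Fin k → Fin n | ∃ V ∈ Q i, ∃ l, ∀ c, ((c, D c), l) ∈ V}) _ ?_).trans ?_
    · rintro D ⟨i, hi, h⟩
      exact ⟨i, Finset.mem_range.2 hi, h⟩
    · refine (Finset.sum_le_card_nsmul _ _ ((r : ℝ) ^ s * (s * q))
        (fun i hi => e2 i (Finset.mem_range.1 hi))).trans ?_
      rw [nsmul_eq_mul, Finset.card_range, hq]
      apply le_of_eq
      push_cast
      rw [div_pow, one_div, inv_pow]
      ring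
  · intro D hD V hV hH
    rcases hQ3 V (fun U hU => oddCol_comm U V (hH U hU)) (s + 1) with ⟨i, hi, V', hV', hsub, hh⟩ | ⟨V', _, hsub, hc⟩
    · refine ⟨V', hsub, fun U hU => oddCol_comm V' U (hh U hU), fun l => ?_⟩
      by_contra hcon
      push Not at hcon
      exact hD ⟨i, hi, V', hV', l, hcon⟩
    · exact absurd (hc.trans (Finset.card_le_card hsub)) (by omega)

end Pool.Agent.W_MP_5f6b2a_mono
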