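import Pool.Agent.W_MP_5f6b2a_mono.OddDefs
import Pool.Agent.W_MP_5f6b2a_mono.Cube

/-! The pairs of the odd case. -/

set_option autoImplicit false

namespace Pool.Agent.W_MP_5f6b2a_mono

theorem LPO_restrict {k n b j : ℕ} (s : ℕ) (D : Fin k → Fin n) (A : Set (XO k n (j + 1)))
    (R : Set (OM (Fin n) k n b (j + 1))) (h : LPO s D A R) (y z : Fin n)
    (c : OM (Fin n) k n b j → Fin n → OM (Fin n) k n b j) (hc : ∀ ω, c ω z = ω) :
    LPO s D {x | ∃ x' ∈ A, vXO k n j x' y = (z, x)}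
      {ω | (vOM (Fin n) k n b j).symm (y, c ω) ∈ R} := by
  intro ω hω
  obtain ⟨V, hVs, hVN, hVcol, hVA⟩ := h _ hω
  let f : Rw k n × Lf (Fin n) n j → Rw k n × Lf (Fin n) n (j + 1) := fun e => (e.1, (y, z, e.2))
  have hf : Function.Injective f := by
    rintro ⟨a, l⟩ ⟨a', l'⟩ hh
    simp only [f, Prod.mk.injEq] at hh
    obtain ⟨h1, h2⟩ := hh
    have h3 : l = l' := congrArg (fun p : Fin n × Fin n × Lf (Fin n) n j => p.2.2) h2
    rw [h1, h3]
  refine ⟨V.preimage f hf.injOn, ?_, ?_, ?_, ?_⟩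
  · refine le_trans ?_ hVs
    apply Finset.card_le_card_of_injOn f
    · intro e he
      exact (Finset.mem_preimage.1 he)
    · exact hf.injOn
  · intro e he
    have h1 := hVN (Finset.mem_preimage.1 he)
    rw [mem_NO] at h1 ⊢
    obtain ⟨c0, h2, h3⟩ := h1
    have h4 : z = c0.1 := congrArg (fun p : Fin n × Fin n × Lf (Fin n) n j => p.2.1) h2
    have h5 : e.2 = leafM j (c ω c0.1).1 c0.2 :=
      congrArg (fun p : Fin n × Fin n × Lf (Fin n) n j => p.2.2) h2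
    have h6 : ((c ω c0.1).2 c0.2 e.1).val = 0 := h3
    rw [← h4, hc] at h5 h6
    exact ⟨c0.2, h5, h6⟩
  · intro l
    obtain ⟨i, hi⟩ := hVcol (y, z, l)
    refine ⟨i, fun hh => hi ?_⟩
    have h1 : f ((i, D i), l) ∈ V := Finset.mem_preimage.1 hh
    exact h1
  · rintro x ⟨x', hx', hxx⟩
    obtain ⟨e, heV, heP⟩ := hVA x' hx'
    have heN := hVN heV
    rw [mem_NO] at heN
    obtain ⟨c0, h2, _⟩ := heN
    rw [mem_PXO] at heP
    obtain ⟨c1, h3⟩ := heP
    have h3' : e.2 = leafP (j + 1) x'.1 c1 := congrArg Prod.snd h3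
    have h4 : e.2 = (c1.1, (x'.1 c1.1).1, leafP j (x'.1 c1.1).2 c1.2) := h3'
    have h5 : (c1.1, (x'.1 c1.1).1, leafP j (x'.1 c1.1).2 c1.2) =
      leafM (j + 1) ((vOM (Fin n) k n b j).symm (y, c ω)).1 c0 := h4.symm.trans h2
    have h6 : c1.1 = y := congrArg (fun p : Fin n × Fin n × Lf (Fin n) n j => p.1) h5
    have hxx' : ((x'.1 y).1, ((x'.1 y).2, fun c => x'.2 (y, c))) = (z, x) := hxx
    have h7 : (x'.1 y).1 = z := congrArg Prod.fst hxx'
    have h8 : ((x'.1 y).2, fun c => x'.2 (y, c)) = x := congrArg Prod.snd hxx'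
    obtain ⟨c1a, c1b⟩ := c1
    simp only at h6
    subst h6
    refine ⟨(e.1, leafP j x.1 c1b), ?_, ?_⟩
    · rw [Finset.mem_preimage]
      have h9 : f (e.1, leafP j x.1 c1b) = e := by
        apply Prod.ext
        · rfl
        · rw [h4]
          simp only [f]
          rw [← h7, ← h8]
      rw [h9]
      exact heV
    · rw [mem_PXO]
      refine ⟨c1b, ?_⟩
      have h10 : e.1 = (x'.2 (c1a, c1b), D (x'.2 (c1a, c1b))) := congrArg Prod.fst h3
      rw [h10, ← h8]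

lemma OddLP_P_zero {k n b : ℕ} (v : Cd (Fin n) n 0) (a : Rw k n) :
    P {ω : OM (Fin n) k n b 0 | (ω.2 v a).val = 0} ≤ 1 / (b : ℝ) := by
  rcases Nat.eq_zero_or_pos b with hb | hb
  · subst hb
    have hE : IsEmpty (OM (Fin n) k n 0 0) := ⟨fun ω => (ω.2 v a).elim0⟩
    have : {ω : OM (Fin n) k n 0 0 | (ω.2 v a).val = 0} = ∅ := Set.eq_empty_of_isEmpty _
    rw [this, P_empty]
    simp
  · have hne : Nonempty (Fin b) := ⟨⟨0, hb⟩⟩
    apply P_fst_le
    · positivity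
    · intro τ
      have h1 := P_pi (β := Rw k n → Fin b) ({v} : Finset (Cd (Fin n) n 0))
        (fun _ => {g : Rw k n → Fin b | ∀ i ∈ ({a} : Finset (Rw k n)), g i ∈ {x : Fin b | x.val = 0}})
      have h2 := P_pi (β := Fin b) ({a} : Finset (Rw k n)) (fun _ => {x : Fin b | x.val = 0})
      have h3 : P {x : Fin b | x.val = 0} = 1 / (b : ℝ) := by
        have h4 : {x : Fin b | x.val = 0} = {⟨0, hb⟩} := by
          ext x
          simp [Fin.ext_iff]
        rw [h4]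
        simp [P]
      rw [Finset.prod_singleton] at h1 h2
      rw [h2, h3] at h1
      have h5 : {β : Cd (Fin n) n 0 → Rw k n → Fin b |
          (τ, β) ∈ {ω : OM (Fin n) k n b 0 | (ω.2 v a).val = 0}} =
          {f : Cd (Fin n) n 0 → Rw k n → Fin b | ∀ i ∈ ({v} : Finset (Cd (Fin n) n 0)),
            f i ∈ {g : Rw k n → Fin b | ∀ i ∈ ({a} : Finset (Rw k n)),
              g i ∈ {x : Fin b | x.val = 0}}} := by
        ext f
        simp
      rw [h5, h1]

theorem LPO_base {k n b : ℕ} (hk : 0 < k) (s M N : ℕ) (D : Fin k → Fin n)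
    (hM : 2 * (k * (s * M)) < b) (A : Set (XO k n 0)) (R : Set (OM (Fin n) k n b 0))
    (h : PS N (LPO s D) 1 true A R) (hR : 1 / 2 ≤ P R) : P A ≤ (1 - 1 / (k : ℝ) ^ s) ^ M := by
  classical
  have hne : Nonempty (Fin k) := ⟨⟨0, hk⟩⟩
  obtain ⟨L, _, hL1, hL2, hL3⟩ := h
  have hkpos : (1 : ℝ) ≤ (k : ℝ) ^ s := by
    apply one_le_pow₀
    exact_mod_cast hk
  have hc : 0 ≤ (1 - 1 / (k : ℝ) ^ s) ^ M := by
    apply pow_nonneg
    have : 1 / (k : ℝ) ^ s ≤ 1 := by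
      rw [div_le_one (by linarith)]
      exact hkpos
    linarith
  apply P_fst_le _ _ hc
  intro a
  have hcard : (Nat.card (Fin k) : ℝ) = k := by simp
  rw [← hcard]
  apply greedy s M
  intro S hS
  -- choose ω
  have hbpos : (0 : ℝ) < b := by
    have : 0 < b := by omega
    exact_mod_cast this
  have hex : ∃ ω ∈ R, ∀ i : Fin k, ∀ v ∈ S, ¬ ((ω.2 v (i, D i)).val = 0) := by
    by_contra hcon
    push Not at hcon
    have h1 : P R ≤ ∑ p ∈ (Finset.univ : Finset (Fin k)) ×ˢ S,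
        P {ω : OM (Fin n) k n b 0 | (ω.2 p.2 (p.1, D p.1)).val = 0} := by
      apply P_biUnion_le
      intro ω hω
      obtain ⟨i, v, hv, hh⟩ := hcon ω hω
      exact ⟨(i, v), Finset.mem_product.2 ⟨Finset.mem_univ _, hv⟩, hh⟩
    have h2 : ∑ p ∈ (Finset.univ : Finset (Fin k)) ×ˢ S,
        P {ω : OM (Fin n) k n b 0 | (ω.2 p.2 (p.1, D p.1)).val = 0} ≤
        ∑ p ∈ (Finset.univ : Finset (Fin k)) ×ˢ S, 1 / (b : ℝ) :=
      Finset.sum_le_sum fun p _ => OddLP_P_zero p.2 _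
    rw [Finset.sum_const, Finset.card_product, Finset.card_univ, Fintype.card_fin,
      nsmul_eq_mul] at h2
    have h3 : ((k * S.card : ℕ) : ℝ) * (1 / (b : ℝ)) < 1 / 2 := by
      have h4 : k * S.card ≤ k * (s * M) := Nat.mul_le_mul_left _ hS
      have h5 : 2 * (k * S.card) < b := by omega
      have h6 : (2 : ℝ) * ((k * S.card : ℕ) : ℝ) < b := by exact_mod_cast h5
      rw [mul_one_div, div_lt_iff₀ hbpos]
      linarith
    linarith
  obtain ⟨ω, hωR, hω⟩ := hex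
  obtain ⟨p, hp, hωp⟩ := hL3 ω hωR
  obtain ⟨V, hVs, hVN, hVcol, hVA⟩ := hL1 p hp ω hωp
  have hmem : ∀ (i : Fin k) (v : Cd (Fin n) n 0), ((i, D i), v) ∈ V → (ω.2 v (i, D i)).val = 0 := by
    intro i v hv
    have h1 := hVN hv
    rw [mem_NO] at h1
    obtain ⟨c, hc1, hc2⟩ := h1
    have h2 : v = c := hc1
    rw [← h2] at hc2
    exact hc2
  refine ⟨{ξ | ∀ v : Cd (Fin n) n 0, ((ξ v, D (ξ v)), v) ∉ V},
    (V.filter (fun e => ∃ i, e.1 = (i, D i))).image Prod.snd, ?_, ?_, ?_, ?_, ?_⟩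
  · exact (Finset.card_image_le.trans (Finset.card_filter_le _ _)).trans hVs
  · rw [Finset.disjoint_left]
    intro v hv hv'
    rw [Finset.mem_image] at hv'
    obtain ⟨⟨e1, e2⟩, he, rfl⟩ := hv'
    have he' : (e1, e2) ∈ V ∧ ∃ i, e1 = (i, D i) := Finset.mem_filter.1 he
    obtain ⟨heV, i, hi⟩ := he'
    subst hi
    exact hω i _ hv (hmem i _ heV)
  · intro f g hfg
    have key : ∀ f g : Cd (Fin n) n 0 → Fin k,
        (∀ c ∈ (V.filter (fun e => ∃ i, e.1 = (i, D i))).image Prod.snd, f c = g c) →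
        (∀ v : Cd (Fin n) n 0, ((f v, D (f v)), v) ∉ V) →
        (∀ v : Cd (Fin n) n 0, ((g v, D (g v)), v) ∉ V) := by
      intro f g hfg hf v hv
      have h1 : f v = g v := by
        apply hfg
        rw [Finset.mem_image]
        exact ⟨_, Finset.mem_filter.2 ⟨hv, g v, rfl⟩, rfl⟩
      apply hf v
      rw [h1]
      exact hv
    exact ⟨key f g hfg, key g f (fun c hc => (hfg c hc).symm)⟩
  · choose ξ hξ using hVcol
    exact ⟨ξ, hξ⟩
  · rw [Set.disjoint_left]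
    intro ξ hξA hξQ
    obtain ⟨e, heV, heP⟩ := hVA (a, ξ) (hL2 _ hξA p hp)
    rw [mem_PXO] at heP
    obtain ⟨c, hc'⟩ := heP
    rw [hc'] at heV
    exact hξQ c heV

end Pool.Agent.W_MP_5f6b2a_mono
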