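import Pool.Agent.W_MP_5f6b2a_mono.OddDefs
import Pool.Agent.W_MP_5f6b2a_mono.Paths
import Pool.Agent.W_MP_5f6b2a_mono.Cube

/-! Negative inputs, odd case. -/

set_option autoImplicit false

namespace Pool.Agent.W_MP_5f6b2a_mono

theorem oddNeg_P_zero {b : ℕ} (hb : 0 < b) : P {x : Fin b | x.val = 0} = 1 / (b : ℝ) := by
  have h : {x : Fin b | x.val = 0} = {⟨0, hb⟩} := by
    ext x
    simp [Fin.ext_iff]
  rw [h, P, Set.ncard_singleton, Nat.card_fin]
  simp

theorem odd_sub {k n b j : ℕ} (hb : 0 < b) (W : Finset (Rw k n × Lf (Fin n) n j)) :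
    P {ω : OM (Fin n) k n b j | W ⊆ NO ω} ≤ (1 / (b : ℝ)) ^ W.card := by
  classical
  have : Nonempty (Fin b) := ⟨⟨0, hb⟩⟩
  have hpos : (0 : ℝ) ≤ (1 / (b : ℝ)) ^ W.card := by positivity
  refine P_fst_le _ _ hpos fun τ => ?_
  by_cases hc : ∀ e ∈ W, ∃ c, e.2 = leafM j τ c
  · choose c hc using hc
    have hinj : Function.Injective (fun e : {e // e ∈ W} => (c e.1 e.2, e.1.1)) := by
      intro e e' h
      have h1 : c e.1 e.2 = c e'.1 e'.2 := congrArg Prod.fst h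
      have h2 : e.1.1 = e'.1.1 := congrArg Prod.snd h
      refine Subtype.ext (Prod.ext h2 ?_)
      have h3 := hc e.1 e.2
      rw [h1] at h3
      exact h3.trans (hc e'.1 e'.2).symm
    let I : Finset (Cd (Fin n) n j × Rw k n) := W.attach.image fun e => (c e.1 e.2, e.1.1)
    have hle : {χ : Cd (Fin n) n j → Rw k n → Fin b | (τ, χ) ∈ {ω : OM (Fin n) k n b j | W ⊆ NO ω}} ⊆
        {χ | (Equiv.curry _ _ _).symm χ ∈
          {f : Cd (Fin n) n j × Rw k n → Fin b | ∀ i ∈ I, f i ∈ {x : Fin b | x.val = 0}}} := by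
      intro χ hχ i hi
      obtain ⟨e, _, rfl⟩ := Finset.mem_image.mp hi
      have h1 := (mem_NO _ _).mp (hχ e.2)
      obtain ⟨c', h2, h3⟩ := h1
      have h4 : c' = c e.1 e.2 := leafM_inj j τ (h2.symm.trans (hc e.1 e.2))
      change (χ (c e.1 e.2) e.1.1).val = 0
      rw [← h4]
      exact h3
    refine (P_mono hle).trans ?_
    rw [P_equiv, P_pi]
    rw [Finset.prod_const, oddNeg_P_zero hb, Finset.card_image_of_injective _ hinj,
      Finset.card_attach]
  · have : {χ : Cd (Fin n) n j → Rw k n → Fin b |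
        (τ, χ) ∈ {ω : OM (Fin n) k n b j | W ⊆ NO ω}} = ∅ := by
      ext χ
      refine ⟨fun hχ => hc ?_, fun h => h.elim⟩
      intro e he
      obtain ⟨c, h1, _⟩ := (mem_NO _ _).mp (hχ he)
      exact ⟨c, h1⟩
    rw [this, P_empty]
    exact hpos

theorem oddNeg_hits_comm {ι : Type} (U V : Finset ι) : Hits sg U V ↔ Hits sg V U := by
  simp only [Hits, sg, Finset.singleton_subset_iff]
  exact ⟨fun ⟨e, h1, h2⟩ => ⟨e, h2, h1⟩, fun ⟨e, h1, h2⟩ => ⟨e, h2, h1⟩⟩

theorem odd_minus {k n b j : ℕ} (hb : 0 < b) (s r : ℕ) (hr : 1 ≤ r)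
    (𝒰 : Set (Finset (Rw k n × Lf (Fin n) n j))) (h𝒰 : ∀ U ∈ 𝒰, U.card ≤ r) :
    P {ω : OM (Fin n) k n b j | ErrN sg s 𝒰 (NO ω)} ≤
      (s + 2) * (r : ℝ) ^ (s + 1) * (1 / (b : ℝ)) ^ (s + 1) := by
  have h := path_bound (Ω := OM (Fin n) k n b j) sg 𝒰 r hr h𝒰 NO s ((1 / (b : ℝ)) ^ (s + 1))
    (by positivity) (fun V hV => (odd_sub hb V).trans (pow_le_pow_of_le_one (by positivity) (by
      rw [div_le_one (by exact_mod_cast hb)]
      exact_mod_cast hb) hV))
  refine le_trans (P_mono ?_) h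
  rintro ω ⟨h1, h2⟩
  refine ⟨fun F hF => (oddNeg_hits_comm _ _).mp (h1 F hF), fun ⟨V, hV, hVc, hVF⟩ => h2
    ⟨V, hV, hVc, fun U hU => (oddNeg_hits_comm _ _).mp (hVF U hU)⟩⟩

theorem oddNeg_P_coord {ι β : Type} [Finite ι] [Finite β] (i : ι) (S : Set β) :
    P {f : ι → β | f i ∈ S} ≤ P S := by
  rcases isEmpty_or_nonempty β with h | h
  · have : {f : ι → β | f i ∈ S} = ∅ := by
      ext f
      exact (IsEmpty.false (f i)).elim
    rw [this, P_empty]
    exact P_nonneg _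
  · have h1 : {f : ι → β | f i ∈ S} = {f : ι → β | ∀ i' ∈ ({i} : Finset ι), f i' ∈ S} := by
      ext f
      simp
    rw [h1, P_pi ({i} : Finset ι) (fun _ => S)]
    simp

theorem oddNeg_fix {k n b : ℕ} (hb : 0 < b) (X : Finset (Rw k n)) (hX : X.card = k) (j : ℕ) :
    P {ω : OM (Fin n) k n b j | Ev j (fun l => ∃ a ∈ X, (a, l) ∈ negI (NO ω))} ≤
      (n : ℝ) ^ j * (1 - (1 / (b : ℝ)) ^ k) ^ n := by
  classical
  have : Nonempty (Fin b) := ⟨⟨0, hb⟩⟩
  have hb1 : (1 / (b : ℝ)) ^ k ≤ 1 := by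
    refine pow_le_one₀ (by positivity) ?_
    rw [div_le_one (by exact_mod_cast hb)]
    exact_mod_cast hb
  have hnn : (0 : ℝ) ≤ (1 - (1 / (b : ℝ)) ^ k) ^ n := pow_nonneg (by linarith) _
  induction j with
  | zero =>
    rw [pow_zero, one_mul]
    refine P_fst_le _ _ hnn fun τ => ?_
    have h1 : P {g : Rw k n → Fin b | ∃ a ∈ X, (g a).val ≠ 0} = 1 - (1 / (b : ℝ)) ^ k := by
      have h2 : {g : Rw k n → Fin b | ∃ a ∈ X, (g a).val ≠ 0} =
          {g : Rw k n → Fin b | ∀ a ∈ X, g a ∈ {x : Fin b | x.val = 0}}ᶜ := by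
        ext g
        simp
      rw [h2, P_compl, P_pi X (fun _ => {x : Fin b | x.val = 0}), Finset.prod_const,
        oddNeg_P_zero hb, hX]
    have h4 := P_pi (Finset.univ : Finset (Fin n))
      (fun _ => {g : Rw k n → Fin b | ∃ a ∈ X, (g a).val ≠ 0})
    rw [Finset.prod_const, h1, Finset.card_univ, Fintype.card_fin] at h4
    rw [← h4]
    refine P_mono (α := Fin n → Rw k n → Fin b) ?_
    intro χ hχ v _
    have h5 : ∃ a ∈ X, (a, v) ∈ negI (NO (j := 0) (τ, χ)) := hχ v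
    obtain ⟨a, ha, h6⟩ := h5
    exact ⟨a, ha, fun h7 => h6 ((mem_NO (j := 0) (τ, χ) (a, v)).mpr ⟨v, rfl, h7⟩)⟩
  | succ j ih =>
    set S : Set (OM (Fin n) k n b j) :=
      {ω | Ev j (fun l => ∃ a ∈ X, (a, l) ∈ negI (NO ω))} with hS
    have h1 : {ω : OM (Fin n) k n b (j + 1) |
        Ev (j + 1) (fun l => ∃ a ∈ X, (a, l) ∈ negI (NO ω))} ⊆
        {ω | vOM (Fin n) k n b j ω ∈ {p : Fin n × (Fin n → OM (Fin n) k n b j) |
          ∃ z ∈ (Finset.univ : Finset (Fin n)), p.2 z ∈ S}} := by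
      intro ω hω
      obtain ⟨z, hz⟩ := hω ω.1.1
      refine ⟨z, Finset.mem_univ z, ?_⟩
      have h2 : (fun l : Lf (Fin n) n j => ∃ a ∈ X, (a, ((ω.1.1, z, l) : Lf (Fin n) n (j + 1))) ∈
          negI (NO ω)) = (fun l => ∃ a ∈ X, (a, l) ∈ negI (NO ((vOM (Fin n) k n b j ω).2 z))) := by
        funext l
        apply propext
        refine exists_congr fun a => and_congr_right fun _ => not_congr ?_
        constructor
        · intro h
          obtain ⟨c, h3, h4⟩ := (mem_NO _ _).mp h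
          refine (mem_NO _ _).mpr ?_
          have h5 : ((ω.1.1, z, l) : Fin n × Fin n × Lf (Fin n) n j) =
            (ω.1.1, c.1, leafM j (ω.1.2 c.1) c.2) := h3
          have h6 : z = c.1 := congrArg (fun x => x.2.1) h5
          have h7 : l = leafM j (ω.1.2 c.1) c.2 := congrArg (fun x => x.2.2) h5
          subst h6
          exact ⟨c.2, h7, h4⟩
        · intro h
          obtain ⟨c, h3, h4⟩ := (mem_NO _ _).mp h
          refine (mem_NO _ _).mpr ⟨(z, c), ?_, h4⟩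
          change ((ω.1.1, z, l) : Fin n × Fin n × Lf (Fin n) n j) =
            (ω.1.1, z, leafM j (ω.1.2 z) c)
          have h5 : l = leafM j (ω.1.2 z) c := h3
          rw [← h5]
      have h3 : Ev j (fun l : Lf (Fin n) n j => ∃ a ∈ X,
        (a, ((ω.1.1, z, l) : Lf (Fin n) n (j + 1))) ∈ negI (NO ω)) := hz
      rw [h2] at h3
      exact h3
    refine (P_mono h1).trans ?_
    rw [P_equiv]
    refine P_fst_le _ _ (by positivity) fun y => ?_
    refine (P_biUnion_le (Finset.univ : Finset (Fin n))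
      (fun z => {f : Fin n → OM (Fin n) k n b j | f z ∈ S}) _ (fun f hf => hf)).trans ?_
    refine (Finset.sum_le_sum fun z _ => (oddNeg_P_coord z S).trans ih).trans ?_
    rw [Finset.sum_const, Finset.card_univ, Fintype.card_fin, nsmul_eq_mul, pow_succ]
    apply le_of_eq
    ring

theorem odd_fail {k n b : ℕ} (hb : 0 < b) (j : ℕ) :
    P {ω : OM (Fin n) k n b j | fO k n j (negI (NO ω))} ≤
      ((k : ℝ) * n) ^ k * ((n : ℝ) ^ j * (1 - (1 / (b : ℝ)) ^ k) ^ n) := by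
  classical
  have hb1 : (1 / (b : ℝ)) ^ k ≤ 1 := by
    refine pow_le_one₀ (by positivity) ?_
    rw [div_le_one (by exact_mod_cast hb)]
    exact_mod_cast hb
  have hnn : (0 : ℝ) ≤ (1 - (1 / (b : ℝ)) ^ k) ^ n := pow_nonneg (by linarith) _
  refine (P_biUnion_le ((Finset.univ : Finset (Rw k n)).powersetCard k)
    (fun X => {ω : OM (Fin n) k n b j | Ev j (fun l => ∃ a ∈ X, (a, l) ∈ negI (NO ω))}) _
    ?_).trans ?_
  · rintro ω ⟨X, hX, h⟩
    exact ⟨X, Finset.mem_powersetCard.mpr ⟨Finset.subset_univ _, hX⟩, h⟩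
  · refine (Finset.sum_le_sum fun X hX =>
      oddNeg_fix hb X (Finset.mem_powersetCard.mp hX).2 j).trans ?_
    rw [Finset.sum_const, nsmul_eq_mul]
    refine mul_le_mul_of_nonneg_right ?_ (by positivity)
    rw [Finset.card_powersetCard, Finset.card_univ, Fintype.card_prod, Fintype.card_fin,
      Fintype.card_fin]
    have := Nat.choose_le_pow (k * n) k
    exact_mod_cast this

end Pool.Agent.W_MP_5f6b2a_mono
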