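import Pool.Agent.W_MP_5f6b2a_mono.OddPos
import Pool.Agent.W_MP_5f6b2a_mono.OddCol
import Pool.Agent.W_MP_5f6b2a_mono.OddNeg
import Pool.Agent.W_MP_5f6b2a_mono.OddLP
import Pool.Agent.W_MP_5f6b2a_mono.Depth
import Pool.Agent.W_MP_5f6b2a_mono.Core

/-! The criterion for the hard functions of odd index. -/

set_option autoImplicit false

namespace Pool.Agent.W_MP_5f6b2a_mono

theorem oddCrit_SP {n : ℕ} (hn : 0 < n) : ∀ j, Nonempty (SP n j)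
  | 0 => ⟨()⟩
  | j + 1 => by
    obtain ⟨x⟩ := oddCrit_SP hn j
    exact ⟨fun _ => (⟨0, hn⟩, x)⟩

theorem oddCrit_SM {n : ℕ} (hn : 0 < n) : ∀ j, Nonempty (SM n j)
  | 0 => ⟨()⟩
  | j + 1 => by
    obtain ⟨x⟩ := oddCrit_SM hn j
    exact ⟨(⟨0, hn⟩, fun _ => x)⟩

theorem oddCrit_base {k : ℕ} (hk : 0 < k) (s M : ℕ) : 0 ≤ (1 - 1 / (k : ℝ) ^ s) ^ M := by
  apply pow_nonneg
  have h1 : (1 : ℝ) ≤ (k : ℝ) ^ s := one_le_pow₀ (by exact_mod_cast hk)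
  have h2 : 1 / (k : ℝ) ^ s ≤ 1 := by
    rw [div_le_one (by linarith)]
    exact h1
  linarith

theorem oddCrit_dl {δ : ℝ} (hδ : 0 ≤ δ) (K N n : ℕ) : ∀ j, 0 ≤ dl δ K N n j
  | 0 => hδ
  | j + 1 => by
    have := oddCrit_dl hδ K N n j
    show 0 ≤ ((K : ℝ) / n + N * dl δ K N n j) ^ (n / 4)
    positivity

theorem oddCrit_form (k n b j s M Nf K' : ℕ) (hk : 0 < k) (hn : 0 < n)
    (hM : 2 * (k * (s * M)) < b) (hK' : 4 * Nf < 2 ^ K')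
    (hq : ∀ i < j, (K' : ℝ) / n + Nf * dl ((1 - 1 / (k : ℝ) ^ s) ^ M) K' Nf n i ≤ 1)
    (D : Fin k → Fin n) :
    ∀ i ≤ j, ∀ (A : Set (XO k n i)) (R : Set (OM (Fin n) k n b i)),
      PS Nf (LPO s D) (2 * i + 1) true A R → 1 / 2 ≤ P R →
      P A ≤ dl ((1 - 1 / (k : ℝ) ^ s) ^ M) K' Nf n i := by
  intro i
  induction i with
  | zero =>
    intro _ A R hp hR
    exact LPO_base hk s M Nf D hM A R hp hR
  | succ i ih =>
    intro hi A R hp hR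
    exact depth_step hn (vXO k n i) (vOM (Fin n) k n b i) (LPO s D) (LPO s D)
      (fun A R h y z c hc => LPO_restrict s D A R h y z c hc) Nf (2 * i + 1)
      (dl ((1 - 1 / (k : ℝ) ^ s) ^ M) K' Nf n i)
      (oddCrit_dl (oddCrit_base hk s M) K' Nf n i) (ih (by omega)) K' hK' (hq i (by omega)) A R hp hR

theorem odd_crit (k n b j s M K ℓ Nf K' : ℕ) (hk : 0 < k) (hn : 0 < n) (hs : 1 ≤ s) (hK : 1 ≤ K)
    (hM : 2 * (k * (s * M)) < b) (hK' : 4 * Nf < 2 ^ K')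
    (hq : ∀ i < j, (K' : ℝ) / n + Nf * dl ((1 - 1 / (k : ℝ) ^ s) ^ M) K' Nf n i ≤ 1)
    (h1 : 2 * ((ℓ : ℝ) * ((k + 1) * (s : ℝ) ^ k * (1 / (n : ℝ)) ^ k +
        2 ^ k * (1 - 1 / (k : ℝ) ^ s) ^ K)) +
      ℓ * ((s + 1) * ((s * K : ℕ) : ℝ) ^ s * ((s : ℝ) ^ (k + 1) * (1 / (n : ℝ)) ^ k)) < 1)
    (h2 : (ℓ : ℝ) * ((s + 2) * ((s * K : ℕ) : ℝ) ^ (s + 1) * (1 / (b : ℝ)) ^ (s + 1)) +
      ((k : ℝ) * n) ^ k * ((n : ℝ) ^ j * (1 - (1 / (b : ℝ)) ^ k) ^ n) ≤ 1 / 2) :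
    Crit (fO k n j) (2 * j + 1) ℓ Nf (dl ((1 - 1 / (k : ℝ) ^ s) ^ M) K' Nf n j) := by
  classical
  intro L hL hlen
  have hb : 0 < b := by omega
  have hr : 1 ≤ s * K := Nat.one_le_iff_ne_zero.2 (by positivity)
  have hlen' : (L.length : ℝ) ≤ ℓ := by exact_mod_cast hlen
  have hNX : Nonempty (XO k n j) := by
    obtain ⟨x⟩ := oddCrit_SP hn j
    exact ⟨(x, fun _ => ⟨0, hk⟩)⟩
  have hNO : Nonempty (OM (Fin n) k n b j) := by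
    obtain ⟨x⟩ := oddCrit_SM hn j
    exact ⟨(x, fun _ _ => ⟨0, hb⟩)⟩
  have hND : Nonempty (Fin k → Fin n) := ⟨fun _ => ⟨0, hn⟩⟩
  have hbase := oddCrit_base hk s K
  set a : ℝ := (k + 1) * (s : ℝ) ^ k * (1 / (n : ℝ)) ^ k + 2 ^ k * (1 - 1 / (k : ℝ) ^ s) ^ K
    with ha
  set β : ℝ := (s + 2) * ((s * K : ℕ) : ℝ) ^ (s + 1) * (1 / (b : ℝ)) ^ (s + 1) with hβ
  set γ : ℝ := (s + 1) * ((s * K : ℕ) : ℝ) ^ s * ((s : ℝ) ^ (k + 1) * (1 / (n : ℝ)) ^ k) with hγ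
  have ha0 : 0 ≤ a := by positivity
  have hβ0 : 0 ≤ β := by positivity
  have hγ0 : 0 ≤ γ := by positivity
  obtain ⟨BX, BΩ, hBX, hBΩ, happ⟩ := approx (ι := Rw k n × Lf (Fin n) n j)
    (κ := Rw k n × Lf (Fin n) n j) (X := (Fin k → Fin n) × XO k n j)
    (Ω := OM (Fin n) k n b j) sg (s * K) s (fun x => PXO x.1 x.2) (fun ω => NO ω)
    (fun i => by simpa [sg] using hr) hs a β
    (fun 𝒱 h𝒱 => odd_plus hk hn j s K hs 𝒱 h𝒱)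
    (fun 𝒰 h𝒰 => odd_minus hb s (s * K) hr 𝒰 h𝒰) L hL
  choose! UF hU1 hU2 hU3 using happ
  have hcol : ∀ T ∈ L, ∃ B : Set (Fin k → Fin n), P B ≤ γ ∧
      ∀ D ∉ B, ∀ V : Finset (Rw k n × Lf (Fin n) n j), V.card ≤ s →
        (∀ U ∈ UF T, Hits sg U V) →
        ∃ V' ⊆ V, (∀ U ∈ UF T, Hits sg U V') ∧ ∀ l, ∃ i, ((i, D i), l) ∉ V' := by
    intro T hT
    exact odd_col hk hn j s (s * K) hr (UF T) (hU1 T hT)
  choose! BD hBD1 hBD2 using hcol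
  -- choice of D
  have hD : ∃ D : Fin k → Fin n, P {x | (D, x) ∈ BX} ≤ 1 / 2 ∧ ∀ T ∈ L, D ∉ BD T := by
    by_contra hcon
    push Not at hcon
    have hcov : (Set.univ : Set (Fin k → Fin n)) ⊆
        {D | 1 / 2 < P {x | (D, x) ∈ BX}} ∪ {D | ∃ T ∈ L, D ∈ BD T} := by
      intro D _
      by_cases h : P {x | (D, x) ∈ BX} ≤ 1 / 2
      · obtain ⟨T, hT, hDT⟩ := hcon D h
        exact Or.inr ⟨T, hT, hDT⟩
      · exact Or.inl (not_le.1 h)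
    have e1 := P_mono hcov
    rw [P_univ] at e1
    have e2 := P_union_le {D : Fin k → Fin n | 1 / 2 < P {x | (D, x) ∈ BX}}
      {D | ∃ T ∈ L, D ∈ BD T}
    have e3 := P_markov BX
    have e4 : P {D : Fin k → Fin n | ∃ T ∈ L, D ∈ BD T} ≤ L.length * γ :=
      P_list_le L BD _ γ (fun D hD => hD) (fun T hT => hBD1 T hT)
    have e5 : (L.length : ℝ) * a ≤ ℓ * a := mul_le_mul_of_nonneg_right hlen' ha0
    have e6 : (L.length : ℝ) * γ ≤ ℓ * γ := mul_le_mul_of_nonneg_right hlen' hγ0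
    linarith
  obtain ⟨D, hD1, hD2⟩ := hD
  refine ⟨XO k n j, OM (Fin n) k n b j, inferInstance, inferInstance,
    fun x => posI sg (PXO D x), fun ω => negI (NO ω), {x | (D, x) ∉ BX},
    {ω | ω ∉ BΩ ∧ ¬ fO k n j (negI (NO ω))}, LPO s D, ?_, ?_, ?_, ?_, ?_, ?_⟩
  · intro x _
    exact fO_pos D x
  · intro ω hω
    exact hω.2
  · have e1 : {x : XO k n j | (D, x) ∉ BX} = {x | (D, x) ∈ BX}ᶜ := rfl
    rw [e1, P_compl]
    linarith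
  · have e1 : {ω : OM (Fin n) k n b j | ω ∉ BΩ ∧ ¬ fO k n j (negI (NO ω))} =
        (BΩ ∪ {ω | fO k n j (negI (NO ω))})ᶜ := by
      ext ω
      simp
    rw [e1, P_compl]
    have e2 := P_union_le BΩ {ω : OM (Fin n) k n b j | fO k n j (negI (NO ω))}
    have e3 := odd_fail (k := k) (n := n) hb j
    have e4 : (L.length : ℝ) * β ≤ ℓ * β := mul_le_mul_of_nonneg_right hlen' hβ0
    linarith
  · intro T hT ω hω
    obtain ⟨V, hV1, hV2, hV3⟩ := hU3 T hT ω hω.1.1 hω.2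
    obtain ⟨V', hV'1, hV'2, hV'3⟩ := hBD2 T hT D (hD2 T hT) V hV2 hV3
    refine ⟨V', (Finset.card_le_card hV'1).trans hV2, hV'1.trans hV1, hV'3, ?_⟩
    intro x hx
    obtain ⟨U, hU, hUx⟩ := hU2 T hT (D, x) hx.1 hx.2
    obtain ⟨e, he, heU⟩ := hV'2 U hU
    exact ⟨e, he, hUx (heU (by simp [sg]))⟩
  · exact oddCrit_form k n b j s M Nf K' hk hn hM hK' hq D j le_rfl

end Pool.Agent.W_MP_5f6b2a_mono
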