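import Pool.Agent.W_MP_5f6b2a_mono.ParamsAux

/-! Choice of the parameters, odd case. -/

set_option autoImplicit false

namespace Pool.Agent.W_MP_5f6b2a_mono

open Filter Topology

theorem odd_params (c d j : ℕ) (g : ℕ → ℕ) : ∃ k n b s M K K' m ℓ Nf : ℕ,
    0 < k ∧ 0 < n ∧ 1 ≤ s ∧ 1 ≤ K ∧ m = g k * (k * n * n ^ (2 * j + 1) + 1) ^ c ∧ ℓ = cl m d ∧
    Nf = bd m d ∧ 2 * (k * (s * M)) < b ∧ 4 * Nf < 2 ^ K' ∧
    (∀ i < j, (K' : ℝ) / n + Nf * dl ((1 - 1 / (k : ℝ) ^ s) ^ M) K' Nf n i ≤ 1) ∧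
    2 * ((ℓ : ℝ) * ((k + 1) * (s : ℝ) ^ k * (1 / (n : ℝ)) ^ k +
        2 ^ k * (1 - 1 / (k : ℝ) ^ s) ^ K)) +
      ℓ * ((s + 1) * ((s * K : ℕ) : ℝ) ^ s * ((s : ℝ) ^ (k + 1) * (1 / (n : ℝ)) ^ k)) < 1 ∧
    (ℓ : ℝ) * ((s + 2) * ((s * K : ℕ) : ℝ) ^ (s + 1) * (1 / (b : ℝ)) ^ (s + 1)) +
      ((k : ℝ) * n) ^ k * ((n : ℝ) ^ j * (1 - (1 / (b : ℝ)) ^ k) ^ n) ≤ 1 / 2 ∧
    ((m : ℝ) + 1) ^ (g k) * (Nf * dl ((1 - 1 / (k : ℝ) ^ s) ^ M) K' Nf n j) < 1 / 2 := by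
  set e1 := (2 * j + 2) * c with he1
  set c2 := e1 * 2 ^ d with hc2
  set k := 2 * c2 + 2 with hk
  set s := 4 * k * c2 + 1 with hs
  set a := 4 * k * c2 with ha
  set ρ : ℝ := 1 - 1 / (k : ℝ) ^ s with hρ
  set G := g k * (k + 1) ^ c with hG
  set A : ℝ := (((5 * (G + 3)) ^ (2 ^ d) : ℕ) : ℝ) with hA
  have hA0 : 0 ≤ A := Nat.cast_nonneg _
  have hk2 : (2 : ℝ) ≤ k := by
    have : 2 ≤ k := by omega
    exact_mod_cast this
  have hks : (2 : ℝ) ≤ (k : ℝ) ^ s := by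
    calc (2 : ℝ) ≤ (k : ℝ) ^ 1 := by simpa using hk2
      _ ≤ (k : ℝ) ^ s := pow_le_pow_right₀ (by linarith) (by omega)
  have hρ1 : ρ < 1 := by
    have : (0 : ℝ) < 1 / (k : ℝ) ^ s := by positivity
    rw [hρ]; linarith
  have hρ2 : 1 / 2 ≤ ρ := by
    have : 1 / (k : ℝ) ^ s ≤ 1 / 2 := one_div_le_one_div_of_le (by norm_num) hks
    rw [hρ]; linarith
  have hρ0 : 0 ≤ ρ := by linarith
  have E1 := eventually_gt_atTop (2 * (k * s))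
  have E2 := aux_exp (4 * A) a (1 / 2) (by norm_num) (by norm_num) 1 one_pos
  have E3 := aux_exp A a ρ hρ0 hρ1 (1 / 4) (by norm_num)
  have E4 := aux_exp (2 * A * 2 ^ k) a ρ hρ0 hρ1 (1 / 4) (by norm_num)
  have E5 := aux_inv (2 * A * ((k + 1) * (s : ℝ) ^ k)) (1 / 4) (by norm_num)
  have E6 := aux_inv (A * ((s + 1) * (s : ℝ) ^ s * (s : ℝ) ^ (k + 1))) (1 / 4) (by norm_num)
  have E7 := aux_inv (A * ((s + 2) * (s : ℝ) ^ (s + 1))) (1 / 4) (by norm_num)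
  have E8 := aux_exp ((k : ℝ) ^ k) (4 * k * (k + j)) ρ hρ0 hρ1 (1 / 4) (by norm_num)
  have E9 := aux_exp (((G : ℝ) + 1) ^ (g k) * A) (4 * k * e1 * g k + a) ρ hρ0 hρ1 (1 / 2)
    (by norm_num)
  have E10 := eventually_ge_atTop 4
  obtain ⟨q, F1, F2, F3, F4, F5, F6, F7, F8, F9, F10⟩ :=
    (E1.and (E2.and (E3.and (E4.and (E5.and (E6.and (E7.and (E8.and (E9.and E10))))))))).exists
  have hQ4 : (4 : ℝ) ≤ q := by exact_mod_cast F10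
  have hQ1 : (1 : ℝ) ≤ q := by linarith
  have hQ0 : (0 : ℝ) < q := by linarith
  set n := q ^ (4 * k) with hn
  have hn1 : 1 ≤ n := Nat.one_le_pow _ _ (by omega)
  have hnR : (n : ℝ) = (q : ℝ) ^ (4 * k) := by rw [hn]; push_cast; rfl
  set m := g k * (k * n * n ^ (2 * j + 1) + 1) ^ c with hm
  have hm' : m ≤ G * n ^ e1 := by
    have h1 : k * n * n ^ (2 * j + 1) + 1 ≤ (k + 1) * n ^ (2 * j + 2) := by
      have h2 : k * n * n ^ (2 * j + 1) = k * n ^ (2 * j + 2) := by ring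
      have h3 : 1 ≤ n ^ (2 * j + 2) := Nat.one_le_pow _ _ hn1
      rw [h2]; nlinarith
    calc m ≤ g k * ((k + 1) * n ^ (2 * j + 2)) ^ c :=
          Nat.mul_le_mul_left _ (Nat.pow_le_pow_left h1 _)
      _ = G * n ^ e1 := by rw [mul_pow, ← pow_mul, hG, he1, mul_assoc]
  obtain ⟨hcl, hbd⟩ := aux_poly G e1 d m n hn1 hm'
  have hnc : (n : ℝ) ^ (e1 * 2 ^ d) = (q : ℝ) ^ a := by rw [hnR, ← pow_mul]
  rw [hnc] at hcl hbd
  set ℓ := cl m d with hℓ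
  set Nf := bd m d with hNf
  have hqn : q ≤ n / 4 := by
    rw [Nat.le_div_iff_mul_le (by norm_num)]
    calc q * 4 ≤ q * q := Nat.mul_le_mul_left _ F10
      _ = q ^ 2 := by ring
      _ ≤ q ^ (4 * k) := Nat.pow_le_pow_right (by omega) (by omega)
  have hq_n : (q : ℝ) / n ≤ 1 / 4 := by
    rw [div_le_div_iff₀ (by rw [hnR]; positivity) (by norm_num)]
    have h1 : q * 4 ≤ n := by
      have := (Nat.le_div_iff_mul_le (by norm_num : 0 < 4)).mp hqn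
      exact this
    have h2 : ((q * 4 : ℕ) : ℝ) ≤ n := by exact_mod_cast h1
    push_cast at h2
    linarith
  have hsum : (q : ℝ) / n + Nf * ρ ^ q ≤ 1 / 2 := by
    have h1 : (Nf : ℝ) * ρ ^ q ≤ A * (q : ℝ) ^ a * ρ ^ q :=
      mul_le_mul_of_nonneg_right hbd (pow_nonneg hρ0 _)
    linarith
  have hdl : ∀ i, dl (ρ ^ q) q Nf n i ≤ ρ ^ q := fun i =>
    aux_dl ρ (ρ ^ q) q Nf n q hρ2 (pow_nonneg hρ0 _) le_rfl hqn hsum i
  have hdl0 : ∀ i, 0 ≤ dl (ρ ^ q) q Nf n i := fun i => dl_nonneg (pow_nonneg hρ0 _) _ _ _ _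
  have hinvn : ∀ y : ℕ, (1 / (n : ℝ)) ^ y = (1 / (q : ℝ)) ^ (4 * k * y) := by
    intro y; rw [hnR, ← one_div_pow, ← pow_mul]
  refine ⟨k, n, q ^ 2, s, q, q, q, m, ℓ, Nf, by omega, by omega, by omega, by omega, rfl, rfl,
    rfl, ?_, ?_, ?_, ?_, ?_, ?_⟩
  · nlinarith
  · have h1 : (4 : ℝ) * Nf < 2 ^ q := by
      have h2 : (4 : ℝ) * Nf ≤ 4 * A * (q : ℝ) ^ a := by nlinarith
      have h3 : 4 * A * (q : ℝ) ^ a < 2 ^ q := by
        have h4 : (0 : ℝ) < 2 ^ q := by positivity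
        rw [one_div_pow, mul_one_div, div_lt_one h4] at F2
        exact F2
      linarith
    exact_mod_cast h1
  · intro i _
    have h1 := mul_le_mul_of_nonneg_left (hdl i) (Nat.cast_nonneg (α := ℝ) Nf)
    linarith
  · -- h1
    have t1 : (ℓ : ℝ) * ((k + 1) * (s : ℝ) ^ k * (1 / (n : ℝ)) ^ k) ≤
        A * ((k + 1) * (s : ℝ) ^ k) / q := by
      have h1 := aux_Q q hQ1 a (4 * k * k) (by
        rw [ha]
        have : 4 * k * c2 + 1 ≤ 4 * k * (c2 + 1) := by nlinarith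
        exact this.trans (Nat.mul_le_mul_left _ (by omega)))
      calc (ℓ : ℝ) * ((k + 1) * (s : ℝ) ^ k * (1 / (n : ℝ)) ^ k)
          ≤ A * (q : ℝ) ^ a * ((k + 1) * (s : ℝ) ^ k * (1 / (n : ℝ)) ^ k) :=
            mul_le_mul_of_nonneg_right hcl (by positivity)
        _ = A * ((k + 1) * (s : ℝ) ^ k) * ((q : ℝ) ^ a * (1 / (q : ℝ)) ^ (4 * k * k)) := by
            rw [hinvn]; ring
        _ ≤ A * ((k + 1) * (s : ℝ) ^ k) * (1 / q) :=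
            mul_le_mul_of_nonneg_left h1 (by positivity)
        _ = _ := by ring
    have t2 : (ℓ : ℝ) * (2 ^ k * ρ ^ q) ≤ A * 2 ^ k * (q : ℝ) ^ a * ρ ^ q := by
      calc (ℓ : ℝ) * (2 ^ k * ρ ^ q) ≤ A * (q : ℝ) ^ a * (2 ^ k * ρ ^ q) :=
            mul_le_mul_of_nonneg_right hcl (by positivity)
        _ = _ := by ring
    have t3 : (ℓ : ℝ) * ((s + 1) * ((s * q : ℕ) : ℝ) ^ s *
        ((s : ℝ) ^ (k + 1) * (1 / (n : ℝ)) ^ k)) ≤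
        A * ((s + 1) * (s : ℝ) ^ s * (s : ℝ) ^ (k + 1)) / q := by
      have h1 := aux_Q q hQ1 (a + s) (4 * k * k) (by
        rw [hs, ha]
        have h2 : 4 * k * k = 4 * k * (2 * c2) + 4 * k * 2 := by rw [← Nat.mul_add]
        have h3 : 1 ≤ k := by omega
        nlinarith)
      calc (ℓ : ℝ) * ((s + 1) * ((s * q : ℕ) : ℝ) ^ s * ((s : ℝ) ^ (k + 1) * (1 / (n : ℝ)) ^ k))
          ≤ A * (q : ℝ) ^ a * ((s + 1) * ((s * q : ℕ) : ℝ) ^ s *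
            ((s : ℝ) ^ (k + 1) * (1 / (n : ℝ)) ^ k)) :=
            mul_le_mul_of_nonneg_right hcl (by positivity)
        _ = A * ((s + 1) * (s : ℝ) ^ s * (s : ℝ) ^ (k + 1)) *
            ((q : ℝ) ^ (a + s) * (1 / (q : ℝ)) ^ (4 * k * k)) := by
            rw [hinvn, Nat.cast_mul, mul_pow, pow_add]; ring
        _ ≤ A * ((s + 1) * (s : ℝ) ^ s * (s : ℝ) ^ (k + 1)) * (1 / q) :=
            mul_le_mul_of_nonneg_left h1 (by positivity)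
        _ = _ := by ring
    have e5 : 2 * (A * ((k + 1) * (s : ℝ) ^ k) / q) = 2 * A * ((k + 1) * (s : ℝ) ^ k) / q := by
      ring
    have e4 : 2 * (A * 2 ^ k * (q : ℝ) ^ a * ρ ^ q) = 2 * A * 2 ^ k * (q : ℝ) ^ a * ρ ^ q := by
      ring
    calc 2 * ((ℓ : ℝ) * ((k + 1) * (s : ℝ) ^ k * (1 / (n : ℝ)) ^ k + 2 ^ k * ρ ^ q)) +
          ℓ * ((s + 1) * ((s * q : ℕ) : ℝ) ^ s * ((s : ℝ) ^ (k + 1) * (1 / (n : ℝ)) ^ k))
        = 2 * ((ℓ : ℝ) * ((k + 1) * (s : ℝ) ^ k * (1 / (n : ℝ)) ^ k)) +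
          2 * (ℓ * (2 ^ k * ρ ^ q)) +
          ℓ * ((s + 1) * ((s * q : ℕ) : ℝ) ^ s * ((s : ℝ) ^ (k + 1) * (1 / (n : ℝ)) ^ k)) := by
          ring
      _ ≤ 2 * A * ((k + 1) * (s : ℝ) ^ k) / q + 2 * A * 2 ^ k * (q : ℝ) ^ a * ρ ^ q +
          A * ((s + 1) * (s : ℝ) ^ s * (s : ℝ) ^ (k + 1)) / q := by linarith
      _ < 1 := by linarith
  · -- h2
    have hb : ((q ^ 2 : ℕ) : ℝ) = (q : ℝ) ^ 2 := by push_cast; rfl
    have t1 : (ℓ : ℝ) * ((s + 2) * ((s * q : ℕ) : ℝ) ^ (s + 1) *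
        (1 / ((q ^ 2 : ℕ) : ℝ)) ^ (s + 1)) ≤ A * ((s + 2) * (s : ℝ) ^ (s + 1)) / q := by
      have h1 := aux_Q q hQ1 (a + (s + 1)) (2 * (s + 1)) (by omega)
      calc (ℓ : ℝ) * ((s + 2) * ((s * q : ℕ) : ℝ) ^ (s + 1) *
            (1 / ((q ^ 2 : ℕ) : ℝ)) ^ (s + 1))
          ≤ A * (q : ℝ) ^ a * ((s + 2) * ((s * q : ℕ) : ℝ) ^ (s + 1) *
            (1 / ((q ^ 2 : ℕ) : ℝ)) ^ (s + 1)) :=
            mul_le_mul_of_nonneg_right hcl (by positivity)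
        _ = A * ((s + 2) * (s : ℝ) ^ (s + 1)) *
            ((q : ℝ) ^ (a + (s + 1)) * (1 / (q : ℝ)) ^ (2 * (s + 1))) := by
            rw [hb, ← one_div_pow, ← pow_mul, Nat.cast_mul, mul_pow, pow_add]; ring
        _ ≤ A * ((s + 2) * (s : ℝ) ^ (s + 1)) * (1 / q) :=
            mul_le_mul_of_nonneg_left h1 (by positivity)
        _ = _ := by ring
    have t2 : (1 - (1 / ((q ^ 2 : ℕ) : ℝ)) ^ k) ^ n ≤ ρ ^ q := by
      set x : ℝ := (1 / ((q ^ 2 : ℕ) : ℝ)) ^ k with hx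
      have hx0 : 0 ≤ x := by positivity
      have hx1 : x ≤ 1 := by
        rw [hx, hb]
        apply pow_le_one₀ (by positivity)
        rw [div_le_one (by positivity)]
        exact one_le_pow₀ hQ1
      have h1 : 1 - x ≤ Real.exp (-x) := by
        have := Real.add_one_le_exp (-x)
        linarith
      have h2 : (1 - x) ^ n ≤ Real.exp (-x) ^ n := pow_le_pow_left₀ (by linarith) h1 n
      have h3 : Real.exp (-x) ^ n = Real.exp (-(x * n)) := by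
        rw [← Real.exp_nat_mul]; congr 1; ring
      have h4 : x * n = (q : ℝ) ^ (2 * k) := by
        rw [hx, hb, hnR, one_div_pow, ← pow_mul]
        have : (q : ℝ) ^ (4 * k) = (q : ℝ) ^ (2 * k) * (q : ℝ) ^ (2 * k) := by
          rw [← pow_add]; congr 1; ring
        rw [this]
        field_simp
      have h5 : (q : ℝ) ≤ (q : ℝ) ^ (2 * k) := by
        calc (q : ℝ) = (q : ℝ) ^ 1 := (pow_one _).symm
          _ ≤ (q : ℝ) ^ (2 * k) := pow_le_pow_right₀ hQ1 (by omega)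
      have h6 : Real.exp (-(x * n)) ≤ Real.exp (-(q : ℝ)) := by
        apply Real.exp_le_exp.mpr
        rw [h4]; linarith
      have h7 : Real.exp (-(q : ℝ)) = Real.exp (-1) ^ q := by
        rw [← Real.exp_nat_mul]; congr 1; ring
      have h8 : Real.exp (-1) ≤ 1 / 2 := by
        rw [Real.exp_neg, ← one_div]
        apply one_div_le_one_div_of_le (by norm_num)
        have := Real.add_one_le_exp (1 : ℝ)
        linarith
      calc (1 - x) ^ n ≤ Real.exp (-x) ^ n := h2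
        _ = Real.exp (-(x * n)) := h3
        _ ≤ Real.exp (-(q : ℝ)) := h6
        _ = Real.exp (-1) ^ q := h7
        _ ≤ (1 / 2) ^ q := pow_le_pow_left₀ (Real.exp_pos _).le h8 _
        _ ≤ ρ ^ q := pow_le_pow_left₀ (by norm_num) hρ2 _
    have t3 : ((k : ℝ) * n) ^ k * ((n : ℝ) ^ j * (1 - (1 / ((q ^ 2 : ℕ) : ℝ)) ^ k) ^ n) ≤
        (k : ℝ) ^ k * (q : ℝ) ^ (4 * k * (k + j)) * ρ ^ q := by
      calc ((k : ℝ) * n) ^ k * ((n : ℝ) ^ j * (1 - (1 / ((q ^ 2 : ℕ) : ℝ)) ^ k) ^ n)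
          ≤ ((k : ℝ) * n) ^ k * ((n : ℝ) ^ j * ρ ^ q) := by gcongr
        _ = (k : ℝ) ^ k * (q : ℝ) ^ (4 * k * (k + j)) * ρ ^ q := by
          rw [hnR]; ring
    linarith
  · have h1 : (m : ℝ) + 1 ≤ ((G : ℝ) + 1) * (q : ℝ) ^ (4 * k * e1) := by
      have h2 : (m : ℝ) ≤ G * (n : ℝ) ^ e1 := by exact_mod_cast hm'
      rw [hnR, ← pow_mul] at h2
      have h3 : (1 : ℝ) ≤ (q : ℝ) ^ (4 * k * e1) := one_le_pow₀ hQ1
      nlinarith
    have h4 : ((m : ℝ) + 1) ^ (g k) ≤ ((G : ℝ) + 1) ^ (g k) * (q : ℝ) ^ (4 * k * e1 * g k) := by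
      calc ((m : ℝ) + 1) ^ (g k) ≤ (((G : ℝ) + 1) * (q : ℝ) ^ (4 * k * e1)) ^ (g k) :=
            pow_le_pow_left₀ (by positivity) h1 _
        _ = _ := by rw [mul_pow, ← pow_mul]
    have h5 : (Nf : ℝ) * dl (ρ ^ q) q Nf n j ≤ A * (q : ℝ) ^ a * ρ ^ q :=
      mul_le_mul hbd (hdl j) (hdl0 j) (by positivity)
    calc ((m : ℝ) + 1) ^ (g k) * ((Nf : ℝ) * dl (ρ ^ q) q Nf n j)
        ≤ (((G : ℝ) + 1) ^ (g k) * (q : ℝ) ^ (4 * k * e1 * g k)) *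
          (A * (q : ℝ) ^ a * ρ ^ q) :=
          mul_le_mul h4 h5 (mul_nonneg (Nat.cast_nonneg _) (hdl0 j)) (by positivity)
      _ = ((G : ℝ) + 1) ^ (g k) * A * (q : ℝ) ^ (4 * k * e1 * g k + a) * ρ ^ q := by
          rw [pow_add]; ring
      _ < 1 / 2 := F9

end Pool.Agent.W_MP_5f6b2a_mono
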