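import Pool.Agent.W_MP_5f6b2a_mono.ParamsAux

/-! Choice of the parameters, even case. -/

set_option autoImplicit false

namespace Pool.Agent.W_MP_5f6b2a_mono

open Filter Topology

theorem even_params (c d j : ℕ) (g : ℕ → ℕ) : ∃ k n b s K K' m ℓ Nf : ℕ,
    0 < k ∧ 0 < n ∧ 3 ≤ s ∧ 1 ≤ K ∧ m = g k * (k * n * (k * n) * n ^ (2 * (j + 1)) + 1) ^ c ∧
    ℓ = cl m d ∧ Nf = bd m d ∧ 2 * s ^ 2 < b ∧ b < k ∧ 4 * Nf < 2 ^ K' ∧
    (∀ i < j + 1, (K' : ℝ) / n + Nf * dl 0 K' Nf n i ≤ 1) ∧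
    2 * ((ℓ : ℝ) * ((s + 2) * (((s ^ 2 * K) ^ 2 : ℕ) : ℝ) ^ (s + 1) *
      (1 / (n : ℝ)) ^ (s + 1))) < 1 ∧
    (ℓ : ℝ) * (1 - 1 / (b : ℝ) ^ (s ^ 2)) ^ K ≤ 1 / 2 ∧
    ((m : ℝ) + 1) ^ (g k) * (Nf * dl 0 K' Nf n (j + 1)) < 1 / 2 := by
  set e1 := (2 * j + 4) * c with he1
  set c2 := e1 * 2 ^ d with hc2
  set s := 3 * c2 + 3 with hs
  set b := 2 * s ^ 2 + 1 with hb
  set k := b + 1 with hk
  set a := 3 * c2 with ha
  set ρ : ℝ := 1 - 1 / (b : ℝ) ^ (s ^ 2) with hρ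
  set G := g k * (k ^ 2 + 1) ^ c with hG
  set A : ℝ := (((5 * (G + 3)) ^ (2 ^ d) : ℕ) : ℝ) with hA
  have hA0 : 0 ≤ A := Nat.cast_nonneg _
  have hs1 : 1 ≤ s ^ 2 := Nat.one_le_pow _ _ (by omega)
  have hb2 : (2 : ℝ) ≤ b := by
    have : 2 ≤ b := by omega
    exact_mod_cast this
  have hks : (2 : ℝ) ≤ (b : ℝ) ^ (s ^ 2) := by
    calc (2 : ℝ) ≤ (b : ℝ) ^ 1 := by simpa using hb2
      _ ≤ (b : ℝ) ^ (s ^ 2) := pow_le_pow_right₀ (by linarith) hs1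
  have hρ1 : ρ < 1 := by
    have : (0 : ℝ) < 1 / (b : ℝ) ^ (s ^ 2) := by positivity
    rw [hρ]; linarith
  have hρ2 : 1 / 2 ≤ ρ := by
    have : 1 / (b : ℝ) ^ (s ^ 2) ≤ 1 / 2 := one_div_le_one_div_of_le (by norm_num) hks
    rw [hρ]; linarith
  have hρ0 : 0 ≤ ρ := by linarith
  have E2 := aux_exp (4 * A) a (1 / 2) (by norm_num) (by norm_num) 1 one_pos
  have E3 := aux_exp A a ρ hρ0 hρ1 (1 / 4) (by norm_num)
  have E5 := aux_inv (2 * A * ((s + 2) * (s : ℝ) ^ (4 * (s + 1)))) 1 one_pos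
  have E9 := aux_exp (((G : ℝ) + 1) ^ (g k) * A) (3 * e1 * g k + a) ρ hρ0 hρ1 (1 / 2)
    (by norm_num)
  have E10 := eventually_ge_atTop 4
  obtain ⟨q, F2, F3, F5, F9, F10⟩ := (E2.and (E3.and (E5.and (E9.and E10)))).exists
  have hQ4 : (4 : ℝ) ≤ q := by exact_mod_cast F10
  have hQ1 : (1 : ℝ) ≤ q := by linarith
  have hQ0 : (0 : ℝ) < q := by linarith
  set n := q ^ 3 with hn
  have hn1 : 1 ≤ n := Nat.one_le_pow _ _ (by omega)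
  have hnR : (n : ℝ) = (q : ℝ) ^ 3 := by rw [hn]; push_cast; rfl
  set m := g k * (k * n * (k * n) * n ^ (2 * (j + 1)) + 1) ^ c with hm
  have hm' : m ≤ G * n ^ e1 := by
    have h1 : k * n * (k * n) * n ^ (2 * (j + 1)) + 1 ≤ (k ^ 2 + 1) * n ^ (2 * j + 4) := by
      have h2 : k * n * (k * n) * n ^ (2 * (j + 1)) = k ^ 2 * n ^ (2 * j + 4) := by ring
      have h3 : 1 ≤ n ^ (2 * j + 4) := Nat.one_le_pow _ _ hn1
      rw [h2]; nlinarith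
    calc m ≤ g k * ((k ^ 2 + 1) * n ^ (2 * j + 4)) ^ c :=
          Nat.mul_le_mul_left _ (Nat.pow_le_pow_left h1 _)
      _ = G * n ^ e1 := by rw [mul_pow, ← pow_mul, hG, he1, mul_assoc]
  obtain ⟨hcl, hbd⟩ := aux_poly G e1 d m n hn1 hm'
  have hnc : (n : ℝ) ^ (e1 * 2 ^ d) = (q : ℝ) ^ a := by rw [hnR, ← pow_mul]
  rw [hnc] at hcl hbd
  set ℓ := cl m d with hℓ
  set Nf := bd m d with hNf
  have hqn : q ≤ n / 4 := by
    rw [Nat.le_div_iff_mul_le (by norm_num)]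
    calc q * 4 ≤ q * q := Nat.mul_le_mul_left _ F10
      _ = q ^ 2 := by ring
      _ ≤ q ^ 3 := Nat.pow_le_pow_right (by omega) (by omega)
  have hq_n : (q : ℝ) / n ≤ 1 / 4 := by
    rw [div_le_div_iff₀ (by rw [hnR]; positivity) (by norm_num)]
    have h1 : q * 4 ≤ n := by
      have := (Nat.le_div_iff_mul_le (by norm_num : 0 < 4)).mp hqn
      exact this
    have h2 : ((q * 4 : ℕ) : ℝ) ≤ n := by exact_mod_cast h1
    push_cast at h2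
    linarith
  have hsum : (q : ℝ) / n + Nf * ρ ^ q ≤ 1 / 2 := by
    have h1 : (Nf : ℝ) * ρ ^ q ≤ A * (q : ℝ) ^ a * ρ ^ q :=
      mul_le_mul_of_nonneg_right hbd (pow_nonneg hρ0 _)
    linarith
  have hdl : ∀ i, dl 0 q Nf n i ≤ ρ ^ q := fun i =>
    aux_dl ρ 0 q Nf n q hρ2 le_rfl (pow_nonneg hρ0 _) hqn hsum i
  have hdl0 : ∀ i, 0 ≤ dl 0 q Nf n i := fun i => dl_nonneg le_rfl _ _ _ _
  refine ⟨k, n, b, s, q, q, m, ℓ, Nf, by omega, by omega, by omega, by omega, rfl, rfl,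
    rfl, by omega, by omega, ?_, ?_, ?_, ?_, ?_⟩
  · have h1 : (4 : ℝ) * Nf < 2 ^ q := by
      have h2 : (4 : ℝ) * Nf ≤ 4 * A * (q : ℝ) ^ a := by nlinarith
      have h3 : 4 * A * (q : ℝ) ^ a < 2 ^ q := by
        have h4 : (0 : ℝ) < 2 ^ q := by positivity
        rw [one_div_pow, mul_one_div, div_lt_one h4] at F2
        exact F2
      linarith
    exact_mod_cast h1
  · intro i _
    have h1 := mul_le_mul_of_nonneg_left (hdl i) (Nat.cast_nonneg (α := ℝ) Nf)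
    linarith
  · have h1 := aux_Q q hQ1 (a + 2 * (s + 1)) (3 * (s + 1)) (by omega)
    have t1 : (ℓ : ℝ) * ((s + 2) * (((s ^ 2 * q) ^ 2 : ℕ) : ℝ) ^ (s + 1) *
        (1 / (n : ℝ)) ^ (s + 1)) ≤ A * ((s + 2) * (s : ℝ) ^ (4 * (s + 1))) / q := by
      calc (ℓ : ℝ) * ((s + 2) * (((s ^ 2 * q) ^ 2 : ℕ) : ℝ) ^ (s + 1) *
            (1 / (n : ℝ)) ^ (s + 1))
          ≤ A * (q : ℝ) ^ a * ((s + 2) * (((s ^ 2 * q) ^ 2 : ℕ) : ℝ) ^ (s + 1) *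
            (1 / (n : ℝ)) ^ (s + 1)) :=
            mul_le_mul_of_nonneg_right hcl (by positivity)
        _ = A * ((s + 2) * (s : ℝ) ^ (4 * (s + 1))) *
            ((q : ℝ) ^ (a + 2 * (s + 1)) * (1 / (q : ℝ)) ^ (3 * (s + 1))) := by
            have e1 : (((s ^ 2 * q) ^ 2 : ℕ) : ℝ) = (s : ℝ) ^ 4 * (q : ℝ) ^ 2 := by
              push_cast; ring
            have e2 : (1 / (n : ℝ)) = (1 / (q : ℝ)) ^ 3 := by rw [hnR, one_div_pow]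
            rw [e1, e2, mul_pow, ← pow_mul, ← pow_mul, ← pow_mul, pow_add]; ring
        _ ≤ A * ((s + 2) * (s : ℝ) ^ (4 * (s + 1))) * (1 / q) :=
            mul_le_mul_of_nonneg_left h1 (by positivity)
        _ = _ := by ring
    have e5 : 2 * (A * ((s + 2) * (s : ℝ) ^ (4 * (s + 1))) / q) =
        2 * A * ((s + 2) * (s : ℝ) ^ (4 * (s + 1))) / q := by ring
    linarith
  · have h1 : (ℓ : ℝ) * ρ ^ q ≤ A * (q : ℝ) ^ a * ρ ^ q :=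
      mul_le_mul_of_nonneg_right hcl (pow_nonneg hρ0 _)
    linarith
  · have h1 : (m : ℝ) + 1 ≤ ((G : ℝ) + 1) * (q : ℝ) ^ (3 * e1) := by
      have h2 : (m : ℝ) ≤ G * (n : ℝ) ^ e1 := by exact_mod_cast hm'
      rw [hnR, ← pow_mul] at h2
      have h3 : (1 : ℝ) ≤ (q : ℝ) ^ (3 * e1) := one_le_pow₀ hQ1
      nlinarith
    have h4 : ((m : ℝ) + 1) ^ (g k) ≤ ((G : ℝ) + 1) ^ (g k) * (q : ℝ) ^ (3 * e1 * g k) := by
      calc ((m : ℝ) + 1) ^ (g k) ≤ (((G : ℝ) + 1) * (q : ℝ) ^ (3 * e1)) ^ (g k) :=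
            pow_le_pow_left₀ (by positivity) h1 _
        _ = _ := by rw [mul_pow, ← pow_mul]
    have h5 : (Nf : ℝ) * dl 0 q Nf n (j + 1) ≤ A * (q : ℝ) ^ a * ρ ^ q :=
      mul_le_mul hbd (hdl _) (hdl0 _) (by positivity)
    calc ((m : ℝ) + 1) ^ (g k) * ((Nf : ℝ) * dl 0 q Nf n (j + 1))
        ≤ (((G : ℝ) + 1) ^ (g k) * (q : ℝ) ^ (3 * e1 * g k)) *
          (A * (q : ℝ) ^ a * ρ ^ q) :=
          mul_le_mul h4 h5 (mul_nonneg (Nat.cast_nonneg _) (hdl0 _)) (by positivity)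
      _ = ((G : ℝ) + 1) ^ (g k) * A * (q : ℝ) ^ (3 * e1 * g k + a) * ρ ^ q := by
          rw [pow_add]; ring
      _ < 1 / 2 := F9

end Pool.Agent.W_MP_5f6b2a_mono
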