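import Pool.Agent.W_MP_5f6b2a_mono.FamDefs
import Pool.Agent.W_MP_5f6b2a_mono.OddCrit
import Pool.Agent.W_MP_5f6b2a_mono.EvenCrit
import Pool.Agent.W_MP_5f6b2a_mono.Params
import Pool.Agent.W_MP_5f6b2a_mono.ParamsE

/-! Lower bounds for the separating families. -/

set_option autoImplicit false

namespace Pool.Agent.W_MP_5f6b2a_mono

theorem FamLow_transport {ι : Type} {N0 : ℕ} (eq : ι ≃ Fin N0) (f : Set ι → Prop)
    (f' : Set (Fin N0) → Prop) (hf : ∀ e : Set (Fin N0), f' e ↔ f {a | eq a ∈ e})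
    (t ℓ Nf m gk d : ℕ) (δ : ℝ) (crit : Crit f t ℓ Nf δ) (k' N : ℕ) {M : ℕ}
    (T : Fin M → Set (Fin N0) → Prop) (L : List (Set (Fin N0) → Prop)) (C : List (Gate N M))
    (o : Gate N M) (hL : Mono L) (hm : L.length ≤ m) (hT : ∀ j, T j ∈ L)
    (hC : Circ C) (hs : C.length ≤ m) (ho : o ∈ C) (hw : o.weft ≤ t) (hd : o.depth ≤ d)
    (h1 : ℓ = cl m d) (h2 : Nf = bd m d) (hδ : 0 ≤ δ) (hN : N ≤ m) (hk' : k' ≤ gk)
    (h3 : ((m : ℝ) + 1) ^ gk * (Nf * δ) < 1 / 2)
    (hrep : ∀ e : Set (Fin N0), f' e ↔ ∃ S : Finset (Fin N), S.card = k' ∧ o.fn ↑S {j | T j e}) :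
    False := by
  refine core f t ℓ Nf δ crit (N := N) (M := M) (k' := k') (m := m) (s := m) (d := d)
    (fun j E => T j (eq '' E)) _ C o (Mono.map eq L hL) (by simpa using hm) ?_ hC hs ho hw hd
    h1.symm.le h2.symm.le hδ ?_ ?_
  · intro j
    exact List.mem_map.2 ⟨T j, hT j, rfl⟩
  · refine lt_of_le_of_lt ?_ h3
    refine mul_le_mul_of_nonneg_right ?_ (mul_nonneg (Nat.cast_nonneg _) hδ)
    have hNm : (N : ℝ) ≤ m := by exact_mod_cast hN
    have a1 : ((N : ℝ) + 1) ^ k' ≤ ((m : ℝ) + 1) ^ k' :=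
      pow_le_pow_left₀ (by positivity) (by linarith) _
    have a2 : ((m : ℝ) + 1) ^ k' ≤ ((m : ℝ) + 1) ^ gk :=
      pow_le_pow_right₀ (by
        have : (0 : ℝ) ≤ m := Nat.cast_nonneg _
        linarith) hk'
    exact a1.trans a2
  · intro E
    have h := hrep (eq '' E)
    rw [hf] at h
    have e1 : {a | eq a ∈ eq '' E} = E := by
      ext a
      simp
    rw [e1] at h
    exact h

theorem famO_not_mem (j : ℕ) : famO j ∉ MW (2 * j + 1) := by
  rintro ⟨c, d, g, h⟩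
  obtain ⟨k, n, b, s, M, K, K', m, ℓ, Nf, hk, hn, hs, hK, hm, hℓ, hNf, hM, hK', hq, p1, p2, p3⟩ :=
    odd_params c d j g
  have card : ∀ n' : ℕ, Nat.card (Rw k n' × Lf (Fin n') n' j) = k * n' ^ (2 * j + 2) := by
    intro n'
    rw [Nat.card_prod, Nat.card_prod, card_Lf]
    simp only [Nat.card_eq_fintype_card, Fintype.card_fin]
    ring
  have hN0 : Nat.card (Rw k n × Lf (Fin n) n j) = k * n * n ^ (2 * j + 1) := by
    rw [card]
    ring
  obtain ⟨N, M', k', T, L, C, o, h1, h2, h3, h4, h5, h6, h7, h8, h9, h10, h11⟩ :=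
    h (k * n * n ^ (2 * j + 1)) k
  rw [← hm] at h2 h5 h6
  refine FamLow_transport (Finite.equivFinOfCardEq hN0) (fO k n j) _ ?_ (2 * j + 1) ℓ Nf m (g k) d
    _ (odd_crit k n b j s M K ℓ Nf K' hk hn hs hK hM hK' hq p1 p2) k' N T L C o h1 h2 h3 h4 h5
    h8 h9 h10 hℓ hNf ?_ h6 h7 p3 h11
  · intro e
    constructor
    · rintro ⟨n', hn', h', hf⟩
      have : n' = n := by
        have e1 : k * n' ^ (2 * j + 2) = k * n ^ (2 * j + 2) := by
          rw [← card n', h', ← hN0, card n]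
        have e2 := Nat.eq_of_mul_eq_mul_left hk e1
        exact Nat.pow_left_injective (by omega : 2 * j + 2 ≠ 0) e2
      subst this
      exact hf
    · intro hf
      refine ⟨n, ?_, hN0, hf⟩
      have a1 : 1 ≤ n ^ (2 * j + 1) := Nat.one_le_pow _ _ hn
      calc n = 1 * n * 1 := by ring
        _ ≤ k * n * n ^ (2 * j + 1) := Nat.mul_le_mul (Nat.mul_le_mul_right _ hk) a1
  · apply dl_nonneg
    apply pow_nonneg
    have : (1 : ℝ) ≤ (k : ℝ) ^ s := one_le_pow₀ (by exact_mod_cast hk)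
    have : 1 / (k : ℝ) ^ s ≤ 1 := by
      rw [div_le_one (by linarith)]
      exact this
    linarith

theorem famE_not_mem (j : ℕ) : famE (j + 1) ∉ MW (2 * (j + 1)) := by
  rintro ⟨c, d, g, h⟩
  obtain ⟨k, n, b, s, K, K', m, ℓ, Nf, hk, hn, hs, hK, hm, hℓ, hNf, hb, hbk, hK', hq, p1, p2,
    p3⟩ := even_params c d j g
  have card : ∀ n' : ℕ, Nat.card ((Rw k n' × Rw k n') × Lf Unit n' (j + 1)) =
      (k * k) * n' ^ (2 * j + 4) := by
    intro n'
    rw [Nat.card_prod, Nat.card_prod, Nat.card_prod, card_Lf]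
    simp only [Nat.card_eq_fintype_card, Fintype.card_fin, Fintype.card_unit]
    ring
  have hN0 : Nat.card ((Rw k n × Rw k n) × Lf Unit n (j + 1)) =
      k * n * (k * n) * n ^ (2 * (j + 1)) := by
    rw [card]
    ring
  obtain ⟨N, M', k', T, L, C, o, h1, h2, h3, h4, h5, h6, h7, h8, h9, h10, h11⟩ :=
    h (k * n * (k * n) * n ^ (2 * (j + 1))) k
  rw [← hm] at h2 h5 h6
  refine FamLow_transport (Finite.equivFinOfCardEq hN0) (fE k n (j + 1)) _ ?_ (2 * (j + 1)) ℓ Nf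
    m (g k) d _ (even_crit k n b j s K ℓ Nf K' hn hs hK hb hbk hK' hq p1 p2) k' N T L C o h1 h2
    h3 h4 h5 h8 h9 h10 hℓ hNf (dl_nonneg le_rfl _ _ _ _) h6 h7 p3 h11
  · intro e
    constructor
    · rintro ⟨n', hn', h', hf⟩
      have : n' = n := by
        have e1 : (k * k) * n' ^ (2 * j + 4) = (k * k) * n ^ (2 * j + 4) := by
          rw [← card n', h', ← hN0, card n]
        have e2 := Nat.eq_of_mul_eq_mul_left (Nat.mul_pos hk hk) e1
        exact Nat.pow_left_injective (by omega : 2 * j + 4 ≠ 0) e2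
      subst this
      exact hf
    · intro hf
      refine ⟨n, ?_, hN0, hf⟩
      have a1 : 1 ≤ n ^ (2 * (j + 1)) := Nat.one_le_pow _ _ hn
      have a2 : 1 ≤ k * n := Nat.mul_pos hk hn
      calc n = 1 * n * 1 * 1 := by ring
        _ ≤ k * n * (k * n) * n ^ (2 * (j + 1)) :=
          Nat.mul_le_mul (Nat.mul_le_mul (Nat.mul_le_mul_right _ hk) a2) a1

end Pool.Agent.W_MP_5f6b2a_mono
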