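import Pool.Agent.W_MP_5f6b2a_mono.Gates
import Pool.Agent.W_MP_5f6b2a_mono.EvenDefs

/-! The hard functions of even index have representations of the next weft. -/

set_option autoImplicit false

namespace Pool.Agent.W_MP_5f6b2a_mono

/-- the circuit which consists of the negated weighted inputs and the instance inputs -/
theorem UpperE_inputs (N M : ℕ) : ∃ C : List (Gate N M), Circ C ∧ C.length ≤ N + M ∧
    (∀ i : Fin N, ∃ g ∈ C, g.fn = (fun x _ => i ∉ x) ∧ g.weft ≤ 0 ∧ g.depth ≤ 1) ∧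
    (∀ i : Fin M, ∃ g ∈ C, g.fn = (fun _ y => i ∈ y) ∧ g.weft ≤ 0 ∧ g.depth ≤ 0) := by
  have h1 : ∀ l : List (Fin N), Circ (M := M) (l.map (fun i => ⟨fun x _ => i ∉ x, 0, 1⟩)) := by
    intro l
    induction l with
    | nil => exact Circ.nil
    | cons a l ih => exact Circ.neg a _ ih
  have h2 : ∀ (l : List (Fin M)) (C : List (Gate N M)), Circ C →
      Circ (l.map (fun i => ⟨fun _ y => i ∈ y, 0, 0⟩) ++ C) := by
    intro l
    induction l with
    | nil => intro C hC; exact hC
    | cons a l ih => intro C hC; exact Circ.inst a _ (ih C hC)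
  refine ⟨_, h2 (List.finRange M) _ (h1 (List.finRange N)), ?_, ?_, ?_⟩
  · simp only [List.length_append, List.length_map, List.length_finRange]
    omega
  · intro i
    refine ⟨⟨fun x _ => i ∉ x, 0, 1⟩, ?_, rfl, le_rfl, le_rfl⟩
    apply List.mem_append_right
    exact List.mem_map.2 ⟨i, List.mem_finRange i, rfl⟩
  · intro i
    refine ⟨⟨fun _ y => i ∈ y, 0, 0⟩, ?_, rfl, le_rfl, le_rfl⟩
    apply List.mem_append_left
    exact List.mem_map.2 ⟨i, List.mem_finRange i, rfl⟩

theorem Ev_congr_UpperE {β : Type} {n : ℕ} (j : ℕ) (φ ψ : Lf β n j → Prop)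
    (h : ∀ l, φ l ↔ ψ l) : Ev j φ ↔ Ev j ψ := by
  rw [show φ = ψ from funext fun l => propext (h l)]

theorem upE (k n j N : ℕ) (h : Nat.card ((Rw k n × Rw k n) × Lf Unit n j) = N) :
    ∃ (C : List (Gate (k * n) N)) (o : Gate (k * n) N), Circ C ∧
      C.length ≤ (k + 3) ^ 2 * (n + 2) ^ (2 * j + 5) ∧ o ∈ C ∧ o.weft ≤ 2 * j + 1 ∧
      o.depth ≤ 2 * j + 5 ∧ ∀ e : Set (Fin N),
        fE k n j {a | Finite.equivFinOfCardEq h a ∈ e} ↔
          ∃ S : Finset (Fin (k * n)), S.card = k ∧ o.fn ↑S e := by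
  classical
  have hN : N = k * n * (k * n) * n ^ (2 * j) := by
    rw [← h, Nat.card_prod, card_Lf, Nat.card_prod, Nat.card_prod]
    simp
  obtain ⟨C0, hC0, hlen0, hx0, hy0⟩ := UpperE_inputs (k * n) N
  -- the small disjunctions of two negated weighted inputs
  obtain ⟨C1, hC1, hsub1, hlen1, hg1⟩ := gates_ex (ι := Rw k n × Rw k n) (κ := Bool)
    C0 hC0 0 1 (fun p b x _ => if b then finProdFinEquiv p.1 ∉ x
      else finProdFinEquiv p.2 ∉ x) (by
      intro p b
      cases b with
      | true =>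
        obtain ⟨g, hg, hfn, h1, h2⟩ := hx0 (finProdFinEquiv p.1)
        exact ⟨g, hg, by rw [hfn]; simp, h1, h2⟩
      | false =>
        obtain ⟨g, hg, hfn, h1, h2⟩ := hx0 (finProdFinEquiv p.2)
        exact ⟨g, hg, by rw [hfn]; simp, h1, h2⟩)
  -- the small disjunctions with the instance inputs
  obtain ⟨C2, hC2, hsub2, hlen2, hg2⟩ := gates_ex (ι := (Rw k n × Rw k n) × Lf Unit n j)
    (κ := Bool)
    C1 hC1 0 2 (fun p b x y => if b then (∃ b : Bool, if b then finProdFinEquiv p.1.1 ∉ x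
      else finProdFinEquiv p.1.2 ∉ x) else Finite.equivFinOfCardEq h p ∈ y) (by
      intro p b
      cases b with
      | true =>
        obtain ⟨g, hg, hfn, h1, h2⟩ := hg1 p.1
        refine ⟨g, hg, by rw [hfn]; simp, ?_, h2⟩
        simpa using h1
      | false =>
        obtain ⟨g, hg, hfn, h1, h2⟩ := hy0 (Finite.equivFinOfCardEq h p)
        exact ⟨g, hsub1 hg, by rw [hfn]; simp, h1, by omega⟩)
  -- the conjunctions over the pairs of different rows
  obtain ⟨C3, hC3, hsub3, hlen3, hg3⟩ := gates_all (ι := Lf Unit n j)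
    (κ := {p : Rw k n × Rw k n // p.1 ≠ p.2})
    C2 hC2 0 3 (fun l a x y => ∃ b : Bool, if b then (∃ b : Bool,
      if b then finProdFinEquiv a.1.1 ∉ x else finProdFinEquiv a.1.2 ∉ x)
      else Finite.equivFinOfCardEq h (a.1, l) ∈ y) (by
      intro l a
      obtain ⟨g, hg, hfn, h1, h2⟩ := hg2 (a.1, l)
      refine ⟨g, hg, hfn, ?_, h2⟩
      simpa using h1)
  -- the tree
  obtain ⟨C4, hC4, hsub4, hlen4, hg4⟩ := gates_tree (β := Unit) (n := n) j (ι := Unit)
    C3 hC3 1 4 (fun _ l x y => ∀ a : {p : Rw k n × Rw k n // p.1 ≠ p.2},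
      ∃ b : Bool, if b then (∃ b : Bool,
      if b then finProdFinEquiv a.1.1 ∉ x else finProdFinEquiv a.1.2 ∉ x)
      else Finite.equivFinOfCardEq h (a.1, l) ∈ y) (by
      intro _ l
      obtain ⟨g, hg, hfn, h1, h2⟩ := hg3 l
      refine ⟨g, hg, hfn, ?_, h2⟩
      split_ifs at h1 <;> omega)
  obtain ⟨o, ho, hfn, hw, hd⟩ := hg4 ()
  refine ⟨C4, o, hC4, ?_, ho, ?_, by omega, ?_⟩
  · -- the size
    rw [card_Lf] at hlen3
    rw [h] at hlen2
    simp only [Nat.card_unique, one_mul, Nat.card_fin, Nat.card_prod] at hlen1 hlen3 hlen4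
    have hp1 : n ^ (2 * j) ≤ (n + 2) ^ (2 * j) := Nat.pow_le_pow_left (by omega) _
    have hp2 : (n + 1) ^ (2 * j) ≤ (n + 2) ^ (2 * j) := Nat.pow_le_pow_left (by omega) _
    have hp0 : 1 ≤ (n + 2) ^ (2 * j) := Nat.one_le_pow _ _ (by omega)
    have e1 : (n + 2) ^ (2 * j + 5) = (n + 2) ^ 5 * (n + 2) ^ (2 * j) := by
      rw [pow_add]; ring
    rw [e1]
    set A := (n + 2) ^ (2 * j) with hA
    have hNle : N ≤ k * n * (k * n) * A := by
      rw [hN]
      exact Nat.mul_le_mul_left _ hp1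
    have h3 : C4.length ≤ k * n * A + 3 * (k * n * (k * n) * A) + 2 * A := by
      have h4 : k * n ≤ k * n * A := Nat.le_mul_of_pos_right _ hp0
      have h5 : k * n * (k * n) ≤ k * n * (k * n) * A := Nat.le_mul_of_pos_right _ hp0
      omega
    refine h3.trans ?_
    have h5 : k * n * A + 3 * (k * n * (k * n) * A) + 2 * A =
        (k * n + 3 * (k * n * (k * n)) + 2) * A := by ring
    rw [h5, ← mul_assoc ((k + 3) ^ 2)]
    refine Nat.mul_le_mul_right _ ?_
    have h6 : 4 * (n + 2) ^ 2 ≤ (n + 2) ^ 5 := by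
      have : 4 ≤ (n + 2) ^ 3 := le_trans (by norm_num : 4 ≤ 2 ^ 3)
        (Nat.pow_le_pow_left (by omega) 3)
      calc 4 * (n + 2) ^ 2 ≤ (n + 2) ^ 3 * (n + 2) ^ 2 := Nat.mul_le_mul_right _ this
        _ = _ := by ring
    have h7 : (k + 3) ^ 2 * (4 * (n + 2) ^ 2) = (k * n + 3 * (k * n * (k * n)) + 2) +
        (k ^ 2 * n ^ 2 + 16 * k ^ 2 * n + 16 * k ^ 2 + 24 * k * n ^ 2 + 95 * k * n + 96 * k +
          36 * n ^ 2 + 144 * n + 142) := by ring
    calc k * n + 3 * (k * n * (k * n)) + 2 ≤ (k + 3) ^ 2 * (4 * (n + 2) ^ 2) := by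
          rw [h7]; exact Nat.le_add_right _ _
      _ ≤ _ := Nat.mul_le_mul_left _ h6
  · simp only [Nat.card_unique] at hw
    split_ifs at hw <;> omega
  · intro e
    rw [hfn]
    have key : ∀ (X : Finset (Rw k n)) (S : Finset (Fin (k * n))),
        (∀ a, a ∈ X ↔ finProdFinEquiv a ∈ S) →
        (Ev j (fun l => ∀ a ∈ X, ∀ a' ∈ X, a ≠ a' →
          ((a, a'), l) ∈ {a | Finite.equivFinOfCardEq h a ∈ e}) ↔
        Ev j (fun l => ∀ a : {p : Rw k n × Rw k n // p.1 ≠ p.2},
          ∃ b : Bool, if b then (∃ b : Bool,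
          if b then finProdFinEquiv a.1.1 ∉ (↑S : Set (Fin (k * n)))
          else finProdFinEquiv a.1.2 ∉ (↑S : Set (Fin (k * n))))
          else Finite.equivFinOfCardEq h (a.1, l) ∈ e)) := by
      intro X S hXS
      apply Ev_congr_UpperE
      intro l
      constructor
      · rintro H ⟨⟨a, a'⟩, hne⟩
        by_cases ha : a ∈ X
        · by_cases ha' : a' ∈ X
          · exact ⟨false, by simpa using H a ha a' ha' hne⟩
          · refine ⟨true, ?_⟩
            simp only [if_true]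
            refine ⟨false, ?_⟩
            rw [hXS] at ha'
            simpa using ha'
        · refine ⟨true, ?_⟩
          simp only [if_true]
          refine ⟨true, ?_⟩
          rw [hXS] at ha
          simpa using ha
      · intro H a ha a' ha' hne
        obtain ⟨b, hb⟩ := H ⟨(a, a'), hne⟩
        rw [hXS] at ha ha'
        cases b with
        | false => simpa using hb
        | true =>
          exfalso
          simp only [if_true] at hb
          obtain ⟨b, hb⟩ := hb
          cases b with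
          | false => exact (by simpa using hb : finProdFinEquiv a' ∉ S) ha'
          | true => exact (by simpa using hb : finProdFinEquiv a ∉ S) ha
    constructor
    · rintro ⟨X, hX, hE⟩
      refine ⟨X.map finProdFinEquiv.toEmbedding, by simpa using hX, ?_⟩
      refine (key X _ ?_).1 hE
      intro a
      simp
    · rintro ⟨S, hS, hE⟩
      refine ⟨S.map finProdFinEquiv.symm.toEmbedding, by simpa using hS, ?_⟩
      refine (key _ S ?_).2 hE
      intro a
      simp

end Pool.Agent.W_MP_5f6b2a_mono
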