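import Pool.Agent.W_MP_5f6b2a_mono.Gates
import Pool.Agent.W_MP_5f6b2a_mono.OddDefs

/-! The hard functions have representations of the next weft. -/

set_option autoImplicit false

namespace Pool.Agent.W_MP_5f6b2a_mono

/-- the circuit which consists of all inputs -/
theorem UpperO_inputs (N M : ℕ) : ∃ C : List (Gate N M), Circ C ∧ C.length ≤ N + M ∧
    (∀ i : Fin N, ∃ g ∈ C, g.fn = (fun x _ => i ∈ x) ∧ g.weft ≤ 0 ∧ g.depth ≤ 0) ∧
    (∀ i : Fin M, ∃ g ∈ C, g.fn = (fun _ y => i ∈ y) ∧ g.weft ≤ 0 ∧ g.depth ≤ 0) := by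
  have h1 : ∀ l : List (Fin N), Circ (M := M) (l.map (fun i => ⟨fun x _ => i ∈ x, 0, 0⟩)) := by
    intro l
    induction l with
    | nil => exact Circ.nil
    | cons a l ih => exact Circ.pos a _ ih
  have h2 : ∀ (l : List (Fin M)) (C : List (Gate N M)), Circ C →
      Circ (l.map (fun i => ⟨fun _ y => i ∈ y, 0, 0⟩) ++ C) := by
    intro l
    induction l with
    | nil => intro C hC; exact hC
    | cons a l ih => intro C hC; exact Circ.inst a _ (ih C hC)
  refine ⟨_, h2 (List.finRange M) _ (h1 (List.finRange N)), ?_, ?_, ?_⟩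
  · simp only [List.length_append, List.length_map, List.length_finRange]
    omega
  · intro i
    refine ⟨⟨fun x _ => i ∈ x, 0, 0⟩, ?_, rfl, le_rfl, le_rfl⟩
    apply List.mem_append_right
    exact List.mem_map.2 ⟨i, List.mem_finRange i, rfl⟩
  · intro i
    refine ⟨⟨fun _ y => i ∈ y, 0, 0⟩, ?_, rfl, le_rfl, le_rfl⟩
    apply List.mem_append_left
    exact List.mem_map.2 ⟨i, List.mem_finRange i, rfl⟩

theorem Ev_congr_UpperO {β : Type} {n : ℕ} (j : ℕ) (φ ψ : Lf β n j → Prop)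
    (h : ∀ l, φ l ↔ ψ l) : Ev j φ ↔ Ev j ψ := by
  rw [show φ = ψ from funext fun l => propext (h l)]

theorem upO (k n j N : ℕ) (h : Nat.card (Rw k n × Lf (Fin n) n j) = N) :
    ∃ (C : List (Gate (k * n) N)) (o : Gate (k * n) N), Circ C ∧
      C.length ≤ (k + 3) ^ 2 * (n + 2) ^ (2 * j + 5) ∧ o ∈ C ∧ o.weft ≤ 2 * j + 2 ∧
      o.depth ≤ 2 * j + 4 ∧ ∀ e : Set (Fin N),
        fO k n j {a | Finite.equivFinOfCardEq h a ∈ e} ↔
          ∃ S : Finset (Fin (k * n)), S.card = k ∧ o.fn ↑S e := by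
  classical
  have hN : N = k * n * (n * n ^ (2 * j)) := by
    rw [← h, Nat.card_prod, card_Lf, Nat.card_prod]
    simp
  obtain ⟨C0, hC0, hlen0, hx0, hy0⟩ := UpperO_inputs (k * n) N
  -- the small conjunctions
  obtain ⟨C1, hC1, hsub1, hlen1, hg1⟩ := gates_all (ι := Rw k n × Lf (Fin n) n j) (κ := Bool)
    C0 hC0 0 0 (fun p b x y => if b then finProdFinEquiv p.1 ∈ x
      else Finite.equivFinOfCardEq h p ∈ y) (by
      intro p b
      cases b with
      | true =>
        obtain ⟨g, hg, hfn, h1, h2⟩ := hx0 (finProdFinEquiv p.1)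
        exact ⟨g, hg, by rw [hfn]; simp, h1, h2⟩
      | false =>
        obtain ⟨g, hg, hfn, h1, h2⟩ := hy0 (Finite.equivFinOfCardEq h p)
        exact ⟨g, hg, by rw [hfn]; simp, h1, h2⟩)
  -- the disjunctions over the rows
  obtain ⟨C2, hC2, hsub2, hlen2, hg2⟩ := gates_ex (ι := Lf (Fin n) n j) (κ := Rw k n)
    C1 hC1 0 1 (fun l a x y => ∀ b : Bool, if b then finProdFinEquiv a ∈ x
      else Finite.equivFinOfCardEq h (a, l) ∈ y) (by
      intro l a
      obtain ⟨g, hg, hfn, h1, h2⟩ := hg1 (a, l)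
      refine ⟨g, hg, hfn, ?_, h2⟩
      simpa using h1)
  -- the tree
  obtain ⟨C3, hC3, hsub3, hlen3, hg3⟩ := gates_tree (β := Fin n) (n := n) j (ι := Unit)
    C2 hC2 1 2 (fun _ l x y => ∃ a : Rw k n, ∀ b : Bool, if b then finProdFinEquiv a ∈ x
      else Finite.equivFinOfCardEq h (a, l) ∈ y) (by
      intro _ l
      obtain ⟨g, hg, hfn, h1, h2⟩ := hg2 l
      refine ⟨g, hg, hfn, ?_, h2⟩
      split_ifs at h1 <;> omega)
  obtain ⟨o, ho, hfn, hw, hd⟩ := hg3 ()
  refine ⟨C3, o, hC3, ?_, ho, ?_, by omega, ?_⟩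
  · -- the size
    rw [card_Lf] at hlen2
    rw [h] at hlen1
    simp only [Nat.card_unique, one_mul, Nat.card_fin] at hlen2 hlen3
    have hp1 : n ^ (2 * j) ≤ (n + 2) ^ (2 * j) := Nat.pow_le_pow_left (by omega) _
    have hp2 : (n + 1) ^ (2 * j) ≤ (n + 2) ^ (2 * j) := Nat.pow_le_pow_left (by omega) _
    have hp0 : 1 ≤ (n + 2) ^ (2 * j) := Nat.one_le_pow _ _ (by omega)
    have e1 : (n + 2) ^ (2 * j + 5) = (n + 2) ^ 5 * (n + 2) ^ (2 * j) := by
      rw [pow_add]; ring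
    rw [e1]
    set A := (n + 2) ^ (2 * j) with hA
    have hNle : N ≤ k * n * n * A := by
      rw [hN, ← mul_assoc]
      exact Nat.mul_le_mul_left _ hp1
    have h3 : C3.length ≤ k * n * A + 2 * (k * n * n * A) + n * A + A := by
      have : k * n ≤ k * n * A := Nat.le_mul_of_pos_right _ hp0
      have h4 : n * n ^ (2 * j) ≤ n * A := Nat.mul_le_mul_left _ hp1
      omega
    refine h3.trans ?_
    have h5 : k * n * A + 2 * (k * n * n * A) + n * A + A =
        (k * n + 2 * (k * n * n) + n + 1) * A := by ring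
    rw [h5, ← mul_assoc ((k + 3) ^ 2)]
    refine Nat.mul_le_mul_right _ ?_
    have h6 : (n + 2) ^ 2 ≤ (n + 2) ^ 5 := Nat.pow_le_pow_right (by omega) (by omega)
    have h7 : (k + 3) ^ 2 * (n + 2) ^ 2 = (k * n + 2 * (k * n * n) + n + 1) +
        (k ^ 2 * n ^ 2 + 4 * k ^ 2 * n + 4 * k ^ 2 + 4 * k * n ^ 2 + 23 * k * n + 24 * k +
          9 * n ^ 2 + 35 * n + 35) := by ring
    calc k * n + 2 * (k * n * n) + n + 1 ≤ (k + 3) ^ 2 * (n + 2) ^ 2 := by
          rw [h7]; exact Nat.le_add_right _ _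
      _ ≤ _ := Nat.mul_le_mul_left _ h6
  · split_ifs at hw <;> omega
  · intro e
    rw [hfn]
    have key : ∀ (X : Finset (Rw k n)) (S : Finset (Fin (k * n))),
        (∀ a, a ∈ X ↔ finProdFinEquiv a ∈ S) →
        (Ev j (fun l => ∃ a ∈ X, (a, l) ∈ {a | Finite.equivFinOfCardEq h a ∈ e}) ↔
        Ev j (fun l => ∃ a : Rw k n, ∀ b : Bool, if b then finProdFinEquiv a ∈
          (↑S : Set (Fin (k * n))) else Finite.equivFinOfCardEq h (a, l) ∈ e)) := by
      intro X S hXS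
      apply Ev_congr_UpperO
      intro l
      refine exists_congr fun a => ?_
      simp [hXS, and_comm]
    constructor
    · rintro ⟨X, hX, hE⟩
      refine ⟨X.map finProdFinEquiv.toEmbedding, by simpa using hX, ?_⟩
      refine (key X _ ?_).1 hE
      intro a
      simp
    · rintro ⟨S, hS, hE⟩
      refine ⟨S.map finProdFinEquiv.symm.toEmbedding, by simpa using hS, ?_⟩
      refine (key _ S ?_).2 hE
      intro a
      simp

end Pool.Agent.W_MP_5f6b2a_mono
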