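import Pool.Agent.W_MP_5f6b2a_mono.FamDefs
import Pool.Agent.W_MP_5f6b2a_mono.UpperO
import Pool.Agent.W_MP_5f6b2a_mono.UpperE

/-! Membership of the separating families. -/

set_option autoImplicit false

namespace Pool.Agent.W_MP_5f6b2a_mono

lemma FamUp_inputs {ι : Type} (l : List ι) :
    Mono (l.map (fun i => fun e : Set ι => i ∈ e)) := by
  induction l with
  | nil => exact Mono.nil
  | cons i l ih => exact Mono.input i _ ih

lemma FamUp_mem (f : ∀ n : ℕ, ℕ → Set (Fin n) → Prop) (t c d : ℕ) (hc : 1 ≤ c)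
    (h : ∀ N k : ℕ, (∀ e, ¬ f N k e) ∨ ∃ n ≤ N, ∃ (C : List (Gate (k * n) N))
      (o : Gate (k * n) N), Circ C ∧ C.length ≤ (k + 3) ^ 2 * (n + 2) ^ c ∧ o ∈ C ∧
        o.weft ≤ t ∧ o.depth ≤ d ∧ ∀ e, f N k e ↔
          ∃ S : Finset (Fin (k * n)), S.card = k ∧ o.fn ↑S e) : f ∈ MW t := by
  refine ⟨c, d, fun k => (k + 3) ^ 2 * 2 ^ c, fun N k => ?_⟩
  have hN1 : 1 ≤ (N + 1) ^ c := Nat.one_le_pow _ _ (Nat.succ_pos _)
  have hN2 : N + 1 ≤ (N + 1) ^ c := by
    calc N + 1 = (N + 1) ^ 1 := (pow_one _).symm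
      _ ≤ (N + 1) ^ c := Nat.pow_le_pow_right (Nat.succ_pos _) hc
  have hg1 : (k + 3) ^ 2 ≤ (k + 3) ^ 2 * 2 ^ c :=
    Nat.le_mul_of_pos_right _ (Nat.pos_of_ne_zero (by positivity))
  have hk2 : k + 3 ≤ (k + 3) ^ 2 := by nlinarith
  have hL : ((List.finRange N).map (fun i => fun e : Set (Fin N) => i ∈ e)).length ≤
      (k + 3) ^ 2 * 2 ^ c * (N + 1) ^ c := by
    rw [List.length_map, List.length_finRange]
    calc N ≤ 1 * (N + 1) ^ c := by omega
      _ ≤ (k + 3) ^ 2 * 2 ^ c * (N + 1) ^ c := Nat.mul_le_mul_right _ (by omega)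
  have hT : ∀ j : Fin N, (fun e : Set (Fin N) => j ∈ e) ∈
      (List.finRange N).map (fun i => fun e : Set (Fin N) => i ∈ e) := fun j =>
    List.mem_map.2 ⟨j, List.mem_finRange j, rfl⟩
  rcases h N k with h0 | ⟨n, hn, C, o, hC, hCl, ho, how, hod, hf⟩
  · refine ⟨0, N, 0, fun j e => j ∈ e,
      (List.finRange N).map (fun i => fun e : Set (Fin N) => i ∈ e),
      [⟨fun x y => ∃ g ∈ ([] : List (Gate 0 N)), g.fn x y, 0, 0⟩],
      ⟨fun x y => ∃ g ∈ ([] : List (Gate 0 N)), g.fn x y, 0, 0⟩,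
      FamUp_inputs _, hL, hT, ?_, ?_, Nat.zero_le _, Nat.zero_le _, List.mem_cons_self,
      Nat.zero_le _, Nat.zero_le _, ?_⟩
    · exact Circ.or [] [] 0 0 (List.nil_subset _) Circ.nil (by simp) (by simp)
    · have h1 : 1 * 1 ≤ (k + 3) ^ 2 * 2 ^ c * (N + 1) ^ c :=
        Nat.mul_le_mul (by omega) hN1
      simpa using h1
    · intro e
      constructor
      · intro he
        exact absurd he (h0 e)
      · rintro ⟨S, _, g, hg, _⟩
        simp at hg
  · refine ⟨k * n, N, k, fun j e => j ∈ e,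
      (List.finRange N).map (fun i => fun e : Set (Fin N) => i ∈ e), C, o,
      FamUp_inputs _, hL, hT, hC, ?_, ?_,
      (by omega : k ≤ (k + 3) ^ 2).trans hg1, ho, how, hod, ?_⟩
    · have h1 : (n + 2) ^ c ≤ 2 ^ c * (N + 1) ^ c := by
        rw [← mul_pow]
        exact Nat.pow_le_pow_left (by omega) c
      calc C.length ≤ (k + 3) ^ 2 * (n + 2) ^ c := hCl
        _ ≤ (k + 3) ^ 2 * (2 ^ c * (N + 1) ^ c) := Nat.mul_le_mul_left _ h1
        _ = (k + 3) ^ 2 * 2 ^ c * (N + 1) ^ c := by ring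
    · exact Nat.mul_le_mul ((by omega : k ≤ (k + 3) ^ 2).trans hg1) (by omega)
    · intro e
      have h1 : {j : Fin N | j ∈ e} = e := rfl
      rw [h1]
      exact hf e

lemma FamUp_unique {m N n n' j : ℕ} (hn : n ≤ N) (hn' : n' ≤ N)
    (h : m * n ^ (2 * j + 2) = N) (h' : m * n' ^ (2 * j + 2) = N) : n = n' := by
  rcases Nat.eq_zero_or_pos N with h0 | h0
  · omega
  · have hmpos : 0 < m := by
      rcases Nat.eq_zero_or_pos m with h1 | h1
      · rw [h1, Nat.zero_mul] at h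
        omega
      · exact h1
    have h2 : n ^ (2 * j + 2) = n' ^ (2 * j + 2) :=
      Nat.eq_of_mul_eq_mul_left hmpos (h.trans h'.symm)
    exact Nat.pow_left_injective (by omega : 2 * j + 2 ≠ 0) h2

theorem famO_mem (j : ℕ) : famO j ∈ MW (2 * j + 2) := by
  classical
  apply FamUp_mem _ _ (2 * j + 5) (2 * j + 4) (by omega)
  intro N k
  by_cases hex : ∃ n ≤ N, Nat.card (Rw k n × Lf (Fin n) n j) = N
  · right
    obtain ⟨n, hn, h⟩ := hex
    obtain ⟨C, o, hC, hCl, ho, how, hod, hf⟩ := upO k n j N h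
    refine ⟨n, hn, C, o, hC, hCl, ho, how, hod, fun e => ?_⟩
    rw [← hf e]
    constructor
    · rintro ⟨n', hn', h', he⟩
      have hcard : ∀ n, Nat.card (Rw k n × Lf (Fin n) n j) = k * n ^ (2 * j + 2) := by
        intro n
        rw [Nat.card_prod, card_Lf, Nat.card_prod, Nat.card_fin, Nat.card_fin]
        ring
      have hnn : n = n' := FamUp_unique (m := k) hn hn'
        ((hcard n).symm.trans h) ((hcard n').symm.trans h')
      subst hnn
      exact he
    · intro he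
      exact ⟨n, hn, h, he⟩
  · left
    rintro e ⟨n, hn, h, _⟩
    exact hex ⟨n, hn, h⟩

theorem famE_mem (j : ℕ) : famE j ∈ MW (2 * j + 1) := by
  classical
  apply FamUp_mem _ _ (2 * j + 5) (2 * j + 5) (by omega)
  intro N k
  by_cases hex : ∃ n ≤ N, Nat.card ((Rw k n × Rw k n) × Lf Unit n j) = N
  · right
    obtain ⟨n, hn, h⟩ := hex
    obtain ⟨C, o, hC, hCl, ho, how, hod, hf⟩ := upE k n j N h
    refine ⟨n, hn, C, o, hC, hCl, ho, how, hod, fun e => ?_⟩
    rw [← hf e]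
    constructor
    · rintro ⟨n', hn', h', he⟩
      have hcard : ∀ n, Nat.card ((Rw k n × Rw k n) × Lf Unit n j) =
          k ^ 2 * n ^ (2 * j + 2) := by
        intro n
        rw [Nat.card_prod, card_Lf, Nat.card_prod, Nat.card_prod, Nat.card_fin, Nat.card_fin,
          Nat.card_unique]
        ring
      have hnn : n = n' := FamUp_unique (m := k ^ 2) hn hn'
        ((hcard n).symm.trans h) ((hcard n').symm.trans h')
      subst hnn
      exact he
    · intro he
      exact ⟨n, hn, h, he⟩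
  · left
    rintro e ⟨n, hn, h, _⟩
    exact hex ⟨n, hn, h⟩

end Pool.Agent.W_MP_5f6b2a_mono
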