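import Pool.Agent.W_MP_5f6b2a_mono.Prob

/-! Alternating trees, strategies and leaves. -/

set_option autoImplicit false

namespace Pool.Agent.W_MP_5f6b2a_mono

/-- the leaves of the tree of depth `j`: `(y₁, z₁, …, y_j, z_j, b)` -/
def Lf (β : Type) (n : ℕ) : ℕ → Type
  | 0 => β
  | j + 1 => Fin n × Fin n × Lf β n j

/-- the choices of one player along the tree with the final `b` -/
def Cd (β : Type) (n : ℕ) : ℕ → Type
  | 0 => β
  | j + 1 => Fin n × Cd β n j

/-- strategies of the player who chooses the `z` -/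
def SP (n : ℕ) : ℕ → Type
  | 0 => Unit
  | j + 1 => Fin n → Fin n × SP n j

/-- strategies of the player who chooses the `y` -/
def SM (n : ℕ) : ℕ → Type
  | 0 => Unit
  | j + 1 => Fin n × (Fin n → SM n j)

instance finLf (β : Type) [Finite β] (n : ℕ) : ∀ j, Finite (Lf β n j)
  | 0 => inferInstanceAs (Finite β)
  | j + 1 => by
    have := finLf β n j
    exact inferInstanceAs (Finite (Fin n × Fin n × Lf β n j))

instance finCd (β : Type) [Finite β] (n : ℕ) : ∀ j, Finite (Cd β n j)
  | 0 => inferInstanceAs (Finite β)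
  | j + 1 => by
    have := finCd β n j
    exact inferInstanceAs (Finite (Fin n × Cd β n j))

instance finSP (n : ℕ) : ∀ j, Finite (SP n j)
  | 0 => inferInstanceAs (Finite Unit)
  | j + 1 => by
    have := finSP n j
    exact inferInstanceAs (Finite (Fin n → Fin n × SP n j))

instance finSM (n : ℕ) : ∀ j, Finite (SM n j)
  | 0 => inferInstanceAs (Finite Unit)
  | j + 1 => by
    have := finSM n j
    exact inferInstanceAs (Finite (Fin n × (Fin n → SM n j)))

/-- the leaf reached by the strategy `σ` when the other player chooses `c` -/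
def leafP {β : Type} {n : ℕ} : ∀ j, SP n j → Cd β n j → Lf β n j
  | 0, _, c => c
  | j + 1, σ, c => (c.1, (σ c.1).1, leafP j (σ c.1).2 c.2)

/-- the leaf reached by the strategy `τ` when the other player chooses `c` -/
def leafM {β : Type} {n : ℕ} : ∀ j, SM n j → Cd β n j → Lf β n j
  | 0, _, c => c
  | j + 1, τ, c => (τ.1, c.1, leafM j (τ.2 c.1) c.2)

theorem leafP_inj {β : Type} {n : ℕ} (j : ℕ) (σ : SP n j) :
    Function.Injective (leafP (β := β) j σ) := by
  induction j with
  | zero => exact fun a b h => h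
  | succ j ih =>
    rintro ⟨y, c⟩ ⟨y', c'⟩ h
    have h1 : y = y' := congrArg Prod.fst h
    subst h1
    have h2 : leafP (β := β) j (σ y).2 c = leafP j (σ y).2 c' :=
      congrArg (fun l : Fin n × Fin n × Lf β n j => l.2.2) h
    exact congrArg (Prod.mk y) (ih _ h2)

theorem leafM_inj {β : Type} {n : ℕ} (j : ℕ) (τ : SM n j) :
    Function.Injective (leafM (β := β) j τ) := by
  induction j with
  | zero => exact fun a b h => h
  | succ j ih =>
    rintro ⟨y, c⟩ ⟨y', c'⟩ h
    have h1 : y = y' := congrArg (fun l : Fin n × Fin n × Lf β n j => l.2.1) h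
    subst h1
    have h2 : leafM (β := β) j (τ.2 y) c = leafM j (τ.2 y) c' :=
      congrArg (fun l : Fin n × Fin n × Lf β n j => l.2.2) h
    exact congrArg (Prod.mk y) (ih _ h2)

/-- the value of the tree -/
def Ev {β : Type} {n : ℕ} : ∀ j, (Lf β n j → Prop) → Prop
  | 0, φ => ∀ b : β, φ b
  | j + 1, φ => ∀ y : Fin n, ∃ z : Fin n, Ev j (fun l => φ (y, z, l))

theorem Ev_of_leafP {β : Type} {n : ℕ} (j : ℕ) (σ : SP n j) (φ : Lf β n j → Prop)
    (h : ∀ c, φ (leafP j σ c)) : Ev j φ := by
  induction j with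
  | zero => exact fun b => h b
  | succ j ih =>
    exact fun y => ⟨(σ y).1, ih (σ y).2 (fun l => φ (y, (σ y).1, l)) fun c => h (y, c)⟩

/-- the rows -/
abbrev Rw (k n : ℕ) : Type := Fin k × Fin n

/-- positive choices, odd case -/
abbrev XO (k n j : ℕ) : Type := SP n j × (Cd (Fin n) n j → Fin k)

/-- negative choices: a strategy and labels in `Fin b` of the rows at the leaves -/
abbrev OM (β : Type) (k n b j : ℕ) : Type := SM n j × (Cd β n j → Rw k n → Fin b)

/-- the two descriptions of the positive choices, odd case -/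
def vXO (k n j : ℕ) : XO k n (j + 1) ≃ (Fin n → Fin n × XO k n j) where
  toFun x := fun y => ((x.1 y).1, ((x.1 y).2, fun c => x.2 (y, c)))
  invFun f := (fun y => ((f y).1, (f y).2.1), fun c => (f c.1).2.2 c.2)
  left_inv x := by
    rfl
  right_inv f := by
    rfl

/-- the two descriptions of the positive choices, even case -/
def vXE (n j : ℕ) : SP n (j + 1) ≃ (Fin n → Fin n × SP n j) := Equiv.refl _

/-- the two descriptions of the negative choices -/
def vOM (β : Type) (k n b j : ℕ) : OM β k n b (j + 1) ≃ Fin n × (Fin n → OM β k n b j) where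
  toFun x := (x.1.1, fun z => (x.1.2 z, fun c => x.2 (z, c)))
  invFun f := ((f.1, fun z => (f.2 z).1), fun c => (f.2 c.1).2 c.2)
  left_inv x := by
    rfl
  right_inv f := by
    rfl

theorem card_Lf (β : Type) [Finite β] (n j : ℕ) :
    Nat.card (Lf β n j) = Nat.card β * n ^ (2 * j) := by
  induction j with
  | zero =>
    show Nat.card β = _
    simp
  | succ j ih =>
    show Nat.card (Fin n × Fin n × Lf β n j) = _
    rw [Nat.card_prod, Nat.card_prod, ih, Nat.card_eq_fintype_card, Fintype.card_fin]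
    ring

theorem games_nonempty_SP {n : ℕ} (hn : 0 < n) : ∀ j, Nonempty (SP n j)
  | 0 => ⟨()⟩
  | j + 1 => by
    obtain ⟨s⟩ := games_nonempty_SP hn j
    exact ⟨fun _ => (⟨0, hn⟩, s)⟩

theorem games_P_singleton {α : Type} [Finite α] (a : α) : P ({a} : Set α) = 1 / Nat.card α := by
  unfold P
  rw [Set.ncard_singleton]
  simp

theorem games_P_fin {n : ℕ} (a : Fin n) : P ({a} : Set (Fin n)) = 1 / (n : ℝ) := by
  rw [games_P_singleton, Nat.card_eq_fintype_card, Fintype.card_fin]

/-- the strategies reaching all leaves in `L` -/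
def gamesR {n : ℕ} (j : ℕ) (L : Finset (Lf Unit n j)) : Set (SP n j) :=
  {σ | ∀ l ∈ L, ∃ c, leafP j σ c = l}

theorem games_step {n : ℕ} (hn : 0 < n) (j : ℕ)
    (ih : ∀ L : Finset (Lf Unit n j), L.Nonempty →
      P (gamesR j L) ≤ (1 / (n : ℝ)) ^ (L.card - 1))
    (L : Finset (Fin n × Fin n × Lf Unit n j)) :
    P {f : Fin n → Fin n × SP n j | ∀ l ∈ L, ∃ c : Fin n × Cd Unit n j,
      ((c.1, (f c.1).1, leafP j (f c.1).2 c.2) : Fin n × Fin n × Lf Unit n j) = l}
      ≤ (1 / (n : ℝ)) ^ L.card := by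
  classical
  have := games_nonempty_SP hn j
  have : Nonempty (Fin n) := ⟨⟨0, hn⟩⟩
  set I : Finset (Fin n) := L.image Prod.fst with hI
  let B : Fin n → Set (Fin n × SP n j) := fun y =>
    {p | ∀ l ∈ L, l.1 = y → l.2.1 = p.1 ∧ ∃ c, leafP j p.2 c = l.2.2}
  have hsub : {f : Fin n → Fin n × SP n j | ∀ l ∈ L, ∃ c : Fin n × Cd Unit n j,
      ((c.1, (f c.1).1, leafP j (f c.1).2 c.2) : Fin n × Fin n × Lf Unit n j) = l}
      ⊆ {f | ∀ y ∈ I, f y ∈ B y} := by
    intro f hf y _ l hl hly
    obtain ⟨c, hc⟩ := hf l hl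
    subst hc
    simp only at hly ⊢
    subst hly
    exact ⟨rfl, c.2, rfl⟩
  refine (P_mono hsub).trans ?_
  rw [P_pi]
  have hcard : L.card = ∑ y ∈ I, (L.filter fun l => l.1 = y).card :=
    Finset.card_eq_sum_card_image Prod.fst L
  rw [hcard, ← Finset.prod_pow_eq_pow_sum]
  refine Finset.prod_le_prod (fun y _ => P_nonneg _) fun y hy => ?_
  by_cases hB : (B y).Nonempty
  · obtain ⟨p0, hp0⟩ := hB
    obtain ⟨l0, hl0, hl0y⟩ := Finset.mem_image.mp hy
    set M : Finset (Fin n × Fin n × Lf Unit n j) := L.filter fun l => l.1 = y with hM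
    set M' : Finset (Lf Unit n j) := M.image fun l => l.2.2 with hM'
    have hMcard : M'.card = M.card := by
      refine Finset.card_image_of_injOn ?_
      intro l hl l' hl' h
      have hl1 := Finset.mem_filter.mp (Finset.mem_coe.mp hl)
      have hl2 := Finset.mem_filter.mp (Finset.mem_coe.mp hl')
      have e1 := (hp0 l hl1.1 hl1.2).1
      have e2 := (hp0 l' hl2.1 hl2.2).1
      exact Prod.ext (hl1.2.trans hl2.2.symm) (Prod.ext (e1.trans e2.symm) h)
    have hMne : M.Nonempty := ⟨l0, Finset.mem_filter.mpr ⟨hl0, hl0y⟩⟩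
    have hM'ne : M'.Nonempty := hMne.image _
    have hBsub : B y ⊆ {p : Fin n × SP n j | p.1 ∈ ({p0.1} : Set (Fin n)) ∧ p.2 ∈ gamesR j M'} := by
      intro p hp
      refine ⟨?_, ?_⟩
      · rw [Set.mem_singleton_iff, ← (hp l0 hl0 hl0y).1, ← (hp0 l0 hl0 hl0y).1]
      · intro l' hl'
        obtain ⟨l, hl, rfl⟩ := Finset.mem_image.mp hl'
        have hl1 := Finset.mem_filter.mp hl
        exact (hp l hl1.1 hl1.2).2
    refine (P_mono hBsub).trans ?_
    rw [P_prod, games_P_fin]
    have h1 := ih M' hM'ne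
    rw [hMcard] at h1
    have hpos : 0 < M.card := Finset.card_pos.mpr hMne
    calc 1 / (n : ℝ) * P (gamesR j M') ≤ 1 / (n : ℝ) * (1 / (n : ℝ)) ^ (M.card - 1) :=
          mul_le_mul_of_nonneg_left h1 (by positivity)
      _ = (1 / (n : ℝ)) ^ M.card := by
          rw [← pow_succ', Nat.sub_add_cancel hpos]
  · rw [Set.not_nonempty_iff_eq_empty] at hB
    rw [hB, P_empty]
    positivity

theorem games_weak {n : ℕ} (hn : 0 < n) : ∀ (j : ℕ) (L : Finset (Lf Unit n j)), L.Nonempty →
    P (gamesR j L) ≤ (1 / (n : ℝ)) ^ (L.card - 1)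
  | 0, L, _ => by
    have h1 : L.card ≤ 1 := Finset.card_le_one.mpr fun a _ b _ => Subsingleton.elim (α := Unit) a b
    have h2 : L.card - 1 = 0 := by omega
    rw [h2, pow_zero]
    exact P_le_one _
  | j + 1, L, _ => by
    refine (games_step hn j (games_weak hn j) L).trans ?_
    refine pow_le_pow_of_le_one (by positivity) ?_ (Nat.sub_le _ _)
    rw [div_le_one (by exact_mod_cast hn)]
    exact_mod_cast hn

/-- the chosen leaves are unlikely to contain a given set -/
theorem P_leaves {n : ℕ} (hn : 0 < n) (j : ℕ) (L : Finset (Lf Unit n (j + 1))) :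
    P {σ : SP n (j + 1) | ∀ l ∈ L, ∃ c, leafP (j + 1) σ c = l} ≤ (1 / (n : ℝ)) ^ L.card :=
  games_step hn j (games_weak hn j) L

/-- the chosen rows are unlikely to contain a given set -/
theorem P_rows {k n : ℕ} (hn : 0 < n) (W : Finset (Rw k n)) :
    P {D : Fin k → Fin n | ∀ a ∈ W, D a.1 = a.2} ≤ (1 / (n : ℝ)) ^ W.card := by
  classical
  have : Nonempty (Fin n) := ⟨⟨0, hn⟩⟩
  set I : Finset (Fin k) := W.image Prod.fst with hI
  let B : Fin k → Set (Fin n) := fun i => {b | ∀ a ∈ W, a.1 = i → b = a.2}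
  have hsub : {D : Fin k → Fin n | ∀ a ∈ W, D a.1 = a.2} ⊆ {D | ∀ i ∈ I, D i ∈ B i} := by
    intro D hD i _ a ha hai
    rw [← hai]
    exact hD a ha
  refine (P_mono hsub).trans ?_
  rw [P_pi]
  have hcard : W.card = ∑ i ∈ I, (W.filter fun a => a.1 = i).card :=
    Finset.card_eq_sum_card_image Prod.fst W
  rw [hcard, ← Finset.prod_pow_eq_pow_sum]
  refine Finset.prod_le_prod (fun i _ => P_nonneg _) fun i hi => ?_
  obtain ⟨a0, ha0, ha0i⟩ := Finset.mem_image.mp hi
  by_cases hB : (B i).Nonempty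
  · obtain ⟨b0, hb0⟩ := hB
    have h1 : (W.filter fun a => a.1 = i).card = 1 := by
      refine Finset.card_eq_one.mpr ⟨a0, ?_⟩
      ext a
      rw [Finset.mem_filter, Finset.mem_singleton]
      constructor
      · rintro ⟨ha, hai⟩
        refine Prod.ext (hai.trans ha0i.symm) ?_
        rw [← hb0 a ha hai, ← hb0 a0 ha0 ha0i]
      · rintro rfl
        exact ⟨ha0, ha0i⟩
    rw [h1, pow_one, ← games_P_fin a0.2]
    exact P_mono fun b hb => hb a0 ha0 ha0i
  · rw [Set.not_nonempty_iff_eq_empty] at hB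
    rw [hB, P_empty]
    positivity

end Pool.Agent.W_MP_5f6b2a_mono
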