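import Pool.Agent.W_MP_5f6b2a_mono.Games
import Pool.Agent.W_MP_5f6b2a_mono.Defs

/-! Building circuits for alternating trees. -/

set_option autoImplicit false

namespace Pool.Agent.W_MP_5f6b2a_mono

variable {N M : ℕ}

/-- the gates `∀ l, φ i l` for the indices `i` in a list -/
theorem Gates_all_aux {ι κ : Type} [Finite κ] (C : List (Gate N M)) (hC : Circ C)
    (w d : ℕ) (φ : ι → κ → Set (Fin N) → Set (Fin M) → Prop)
    (h : ∀ i l, ∃ g ∈ C, g.fn = φ i l ∧ g.weft ≤ w ∧ g.depth ≤ d) (L : List ι) :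
    ∃ C' : List (Gate N M), Circ C' ∧ C ⊆ C' ∧ C'.length ≤ C.length + L.length ∧
      ∀ i ∈ L, ∃ g ∈ C', g.fn = (fun x y => ∀ l, φ i l x y) ∧
        g.weft ≤ w + (if 2 < Nat.card κ then 1 else 0) ∧ g.depth ≤ d + 1 := by
  classical
  have := Fintype.ofFinite κ
  choose g hg hfn hw hd using h
  induction L with
  | nil => exact ⟨C, hC, fun _ h => h, le_rfl, by simp⟩
  | cons i L ih =>
    obtain ⟨C', h1, h2, h3, h4⟩ := ih
    have hJl : ((Finset.univ : Finset κ).toList.map (g i)).length = Nat.card κ := by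
      simp [Nat.card_eq_fintype_card]
    refine ⟨⟨fun x y => ∀ f ∈ (Finset.univ : Finset κ).toList.map (g i), f.fn x y,
      w + (if 2 < Nat.card κ then 1 else 0), d + 1⟩ :: C', ?_, ?_, ?_, ?_⟩
    · refine Circ.and _ C' _ _ ?_ h1 ?_ ?_
      · intro f hf
        obtain ⟨l, -, rfl⟩ := List.mem_map.1 hf
        exact h2 (hg i l)
      · intro f hf
        obtain ⟨l, -, rfl⟩ := List.mem_map.1 hf
        exact Nat.succ_le_succ (hd i l)
      · intro f hf
        obtain ⟨l, -, rfl⟩ := List.mem_map.1 hf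
        rw [hJl]
        exact Nat.add_le_add_right (hw i l) _
    · exact fun f hf => List.mem_cons_of_mem _ (h2 hf)
    · simp only [List.length_cons]
      omega
    · intro i' hi'
      rcases List.mem_cons.1 hi' with rfl | hi'
      · refine ⟨_, List.mem_cons_self, ?_, le_rfl, le_rfl⟩
        funext x y
        apply propext
        constructor
        · intro hx l
          have := hx (g i' l) (List.mem_map.2 ⟨l, by simp, rfl⟩)
          rwa [hfn] at this
        · intro hx f hf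
          obtain ⟨l, -, rfl⟩ := List.mem_map.1 hf
          rw [hfn]
          exact hx l
      · obtain ⟨f, hf, hr⟩ := h4 i' hi'
        exact ⟨f, List.mem_cons_of_mem _ hf, hr⟩

/-- the gates `∃ l, φ i l` for the indices `i` in a list -/
theorem Gates_ex_aux {ι κ : Type} [Finite κ] (C : List (Gate N M)) (hC : Circ C)
    (w d : ℕ) (φ : ι → κ → Set (Fin N) → Set (Fin M) → Prop)
    (h : ∀ i l, ∃ g ∈ C, g.fn = φ i l ∧ g.weft ≤ w ∧ g.depth ≤ d) (L : List ι) :
    ∃ C' : List (Gate N M), Circ C' ∧ C ⊆ C' ∧ C'.length ≤ C.length + L.length ∧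
      ∀ i ∈ L, ∃ g ∈ C', g.fn = (fun x y => ∃ l, φ i l x y) ∧
        g.weft ≤ w + (if 2 < Nat.card κ then 1 else 0) ∧ g.depth ≤ d + 1 := by
  classical
  have := Fintype.ofFinite κ
  choose g hg hfn hw hd using h
  induction L with
  | nil => exact ⟨C, hC, fun _ h => h, le_rfl, by simp⟩
  | cons i L ih =>
    obtain ⟨C', h1, h2, h3, h4⟩ := ih
    have hJl : ((Finset.univ : Finset κ).toList.map (g i)).length = Nat.card κ := by
      simp [Nat.card_eq_fintype_card]
    refine ⟨⟨fun x y => ∃ f ∈ (Finset.univ : Finset κ).toList.map (g i), f.fn x y,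
      w + (if 2 < Nat.card κ then 1 else 0), d + 1⟩ :: C', ?_, ?_, ?_, ?_⟩
    · refine Circ.or _ C' _ _ ?_ h1 ?_ ?_
      · intro f hf
        obtain ⟨l, -, rfl⟩ := List.mem_map.1 hf
        exact h2 (hg i l)
      · intro f hf
        obtain ⟨l, -, rfl⟩ := List.mem_map.1 hf
        exact Nat.succ_le_succ (hd i l)
      · intro f hf
        obtain ⟨l, -, rfl⟩ := List.mem_map.1 hf
        rw [hJl]
        exact Nat.add_le_add_right (hw i l) _
    · exact fun f hf => List.mem_cons_of_mem _ (h2 hf)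
    · simp only [List.length_cons]
      omega
    · intro i' hi'
      rcases List.mem_cons.1 hi' with rfl | hi'
      · refine ⟨_, List.mem_cons_self, ?_, le_rfl, le_rfl⟩
        funext x y
        apply propext
        constructor
        · rintro ⟨f, hf, hx⟩
          obtain ⟨l, -, rfl⟩ := List.mem_map.1 hf
          rw [hfn] at hx
          exact ⟨l, hx⟩
        · rintro ⟨l, hx⟩
          refine ⟨g i' l, List.mem_map.2 ⟨l, by simp, rfl⟩, ?_⟩
          rwa [hfn]
      · obtain ⟨f, hf, hr⟩ := h4 i' hi'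
        exact ⟨f, List.mem_cons_of_mem _ hf, hr⟩

theorem gates_all {ι κ : Type} [Finite ι] [Finite κ] (C : List (Gate N M)) (hC : Circ C)
    (w d : ℕ) (φ : ι → κ → Set (Fin N) → Set (Fin M) → Prop)
    (h : ∀ i l, ∃ g ∈ C, g.fn = φ i l ∧ g.weft ≤ w ∧ g.depth ≤ d) :
    ∃ C' : List (Gate N M), Circ C' ∧ C ⊆ C' ∧ C'.length ≤ C.length + Nat.card ι ∧
      ∀ i, ∃ g ∈ C', g.fn = (fun x y => ∀ l, φ i l x y) ∧
        g.weft ≤ w + (if 2 < Nat.card κ then 1 else 0) ∧ g.depth ≤ d + 1 := by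
  classical
  have := Fintype.ofFinite ι
  obtain ⟨C', h1, h2, h3, h4⟩ := Gates_all_aux C hC w d φ h (Finset.univ : Finset ι).toList
  refine ⟨C', h1, h2, ?_, fun i => h4 i (by simp)⟩
  rwa [Finset.length_toList, Finset.card_univ, ← Nat.card_eq_fintype_card] at h3

theorem gates_ex {ι κ : Type} [Finite ι] [Finite κ] (C : List (Gate N M)) (hC : Circ C)
    (w d : ℕ) (φ : ι → κ → Set (Fin N) → Set (Fin M) → Prop)
    (h : ∀ i l, ∃ g ∈ C, g.fn = φ i l ∧ g.weft ≤ w ∧ g.depth ≤ d) :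
    ∃ C' : List (Gate N M), Circ C' ∧ C ⊆ C' ∧ C'.length ≤ C.length + Nat.card ι ∧
      ∀ i, ∃ g ∈ C', g.fn = (fun x y => ∃ l, φ i l x y) ∧
        g.weft ≤ w + (if 2 < Nat.card κ then 1 else 0) ∧ g.depth ≤ d + 1 := by
  classical
  have := Fintype.ofFinite ι
  obtain ⟨C', h1, h2, h3, h4⟩ := Gates_ex_aux C hC w d φ h (Finset.univ : Finset ι).toList
  refine ⟨C', h1, h2, ?_, fun i => h4 i (by simp)⟩
  rwa [Finset.length_toList, Finset.card_univ, ← Nat.card_eq_fintype_card] at h3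

/-- the gates for `Ev` -/
theorem gates_tree {β : Type} [Finite β] {n : ℕ} (j : ℕ) {ι : Type} [Finite ι]
    (C : List (Gate N M)) (hC : Circ C) (w d : ℕ)
    (φ : ι → Lf β n j → Set (Fin N) → Set (Fin M) → Prop)
    (h : ∀ i l, ∃ g ∈ C, g.fn = φ i l ∧ g.weft ≤ w ∧ g.depth ≤ d) :
    ∃ C' : List (Gate N M), Circ C' ∧ C ⊆ C' ∧
      C'.length ≤ C.length + Nat.card ι * (n + 1) ^ (2 * j) ∧
      ∀ i, ∃ g ∈ C', g.fn = (fun x y => Ev j (fun l => φ i l x y)) ∧
        g.weft ≤ w + (if 2 < Nat.card β then 1 else 0) + 2 * j ∧ g.depth ≤ d + 1 + 2 * j := by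
  induction j generalizing ι with
  | zero =>
    obtain ⟨C', h1, h2, h3, h4⟩ := gates_all (κ := β) C hC w d φ h
    exact ⟨C', h1, h2, by simpa using h3, fun i => h4 i⟩
  | succ j ih =>
    obtain ⟨C₁, a1, a2, a3, a4⟩ := ih (ι := ι × Fin n × Fin n)
      (fun p l => φ p.1 (p.2.1, p.2.2, l)) (fun p l => h p.1 (p.2.1, p.2.2, l))
    obtain ⟨C₂, b1, b2, b3, b4⟩ := gates_ex (ι := ι × Fin n) (κ := Fin n) C₁ a1 _ _
      (fun p z x y => Ev j (fun l => φ p.1 (p.2, z, l) x y)) (fun p z => a4 (p.1, p.2, z))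
    obtain ⟨C₃, c1, c2, c3, c4⟩ := gates_all (ι := ι) (κ := Fin n) C₂ b1 _ _
      (fun i v x y => ∃ z, Ev j (fun l => φ i (v, z, l) x y)) (fun i v => b4 (i, v))
    refine ⟨C₃, c1, fun f hf => c2 (b2 (a2 hf)), ?_, ?_⟩
    · simp only [Nat.card_prod, Nat.card_eq_fintype_card (α := Fin n), Fintype.card_fin]
        at a3 b3
      have e1 : (n * n) * (n + 1) ^ (2 * j) + n + 1 ≤ (n + 1) ^ (2 * (j + 1)) := by
        have e2 : (n + 1) ^ (2 * (j + 1)) = (n + 1) ^ 2 * (n + 1) ^ (2 * j) := by ring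
        have e3 : 1 ≤ (n + 1) ^ (2 * j) := Nat.one_le_pow _ _ (Nat.succ_pos n)
        rw [e2]
        nlinarith
      have e4 := Nat.mul_le_mul_left (Nat.card ι) e1
      have e5 : Nat.card ι * (n * n * (n + 1) ^ (2 * j) + n + 1) =
        Nat.card ι * (n * n) * (n + 1) ^ (2 * j) + Nat.card ι * n + Nat.card ι := by ring
      rw [e5] at e4
      omega
    · intro i
      obtain ⟨g, hg, hfn, hw, hd⟩ := c4 i
      have hite : (if 2 < Nat.card (Fin n) then 1 else 0) ≤ 1 := by split_ifs <;> omega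
      refine ⟨g, hg, hfn, ?_, ?_⟩
      · omega
      · omega

end Pool.Agent.W_MP_5f6b2a_mono
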