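import Pool.Agent.W_MP_5f6b2a_mono.FamUp
import Pool.Agent.W_MP_5f6b2a_mono.FamLow

/-! Strictness. -/

set_option autoImplicit false

namespace Pool.Agent.W_MP_5f6b2a_mono

theorem MW_mono (t : ℕ) : MW t ⊆ MW (t + 1) := by
  rintro f ⟨c, d, g, h⟩
  refine ⟨c, d, g, fun n k => ?_⟩
  obtain ⟨N, M, k', T, L, C, o, h1, h2, h3, h4, h5, h6, h7, h8, h9, h10, h11⟩ := h n k
  exact ⟨N, M, k', T, L, C, o, h1, h2, h3, h4, h5, h6, h7, h8, by omega, h10, h11⟩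

theorem main (t : ℕ) (ht : 1 ≤ t) : MW t ⊂ MW (t + 1) := by
  refine ⟨MW_mono t, fun h => ?_⟩
  obtain ⟨j, hj⟩ | ⟨j, hj⟩ : (∃ j, t = 2 * (j + 1)) ∨ ∃ j, t = 2 * j + 1 := by
    rcases Nat.even_or_odd' t with ⟨i, hi | hi⟩
    · exact Or.inl ⟨i - 1, by omega⟩
    · exact Or.inr ⟨i, hi⟩
  · subst hj
    exact famE_not_mem j (h (famE_mem (j + 1)))
  · subst hj
    exact famO_not_mem j (h (famO_mem j))

end Pool.Agent.W_MP_5f6b2a_mono
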