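import Pool.Agent.W_MP_5f6b2a_mono.OddDefs
import Pool.Agent.W_MP_5f6b2a_mono.Paths
import Pool.Agent.W_MP_5f6b2a_mono.Cube

/-! Positive inputs, odd case. -/

set_option autoImplicit false

namespace Pool.Agent.W_MP_5f6b2a_mono

theorem oddPos_sg {ι : Type} (e : ι) (W : Finset ι) : sg e ⊆ W ↔ e ∈ W := by
  simp [sg]

theorem fO_pos {k n j : ℕ} (D : Fin k → Fin n) (x : XO k n j) : fO k n j (posI sg (PXO D x)) := by
  classical
  refine ⟨Finset.univ.image (fun i : Fin k => (i, D i)), ?_, ?_⟩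
  · rw [Finset.card_image_of_injective _ (fun i i' h => (Prod.mk.inj h).1)]
    simp
  · refine Ev_of_leafP j x.1 _ ?_
    intro c
    refine ⟨(x.2 c, D (x.2 c)), by simp, ?_⟩
    show sg _ ⊆ PXO D x
    rw [oddPos_sg, mem_PXO]
    exact ⟨c, rfl⟩

/-- the rows `(i, D i)` -/
def oddPos_W {k n : ℕ} (D : Fin k → Fin n) : Finset (Rw k n) :=
  Finset.univ.image (fun i : Fin k => (i, D i))

theorem oddPos_mem_W {k n : ℕ} (D : Fin k → Fin n) (a : Rw k n) : a ∈ oddPos_W D ↔ D a.1 = a.2 := by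
  simp only [oddPos_W, Finset.mem_image, Finset.mem_univ, true_and]
  constructor
  · rintro ⟨i, rfl⟩
    rfl
  · intro h
    exact ⟨a.1, Prod.ext rfl h⟩

/-- all rows are needed -/
theorem oddPos_A {k n : ℕ} (hk : 0 < k) (hn : 0 < n) (j s : ℕ) (hs : 1 ≤ s)
    (𝒱 : Set (Finset (Rw k n × Lf (Fin n) n j))) (h𝒱 : ∀ V ∈ 𝒱, V.card ≤ s) (x : XO k n j) :
    P {D : Fin k → Fin n | (∀ V ∈ 𝒱, Hits sg (PXO D x) V) ∧
      ¬ ∃ I : Finset (Fin k), I ≠ Finset.univ ∧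
        ∀ V ∈ 𝒱, ∃ c, x.2 c ∈ I ∧ ((x.2 c, D (x.2 c)), leafP j x.1 c) ∈ V} ≤
      (k + 1) * (s : ℝ) ^ k * (1 / (n : ℝ)) ^ k := by
  classical
  set fl : Finset (Rw k n × Lf (Fin n) n j) → Finset (Rw k n) := fun V =>
    (V.filter (fun e => ∃ c, e.2 = leafP j x.1 c ∧ x.2 c = e.1.1)).image Prod.fst with hfl
  have hflc : ∀ V ∈ 𝒱, (fl V).card ≤ s := fun V hV =>
    (Finset.card_image_le.trans (Finset.card_filter_le _ _)).trans (h𝒱 V hV)
  have hmem : ∀ (V : Finset (Rw k n × Lf (Fin n) n j)) (a : Rw k n),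
      a ∈ fl V ↔ ∃ c, x.2 c = a.1 ∧ (a, leafP j x.1 c) ∈ V := by
    intro V a
    simp only [hfl, Finset.mem_image, Finset.mem_filter]
    constructor
    · rintro ⟨⟨a', l⟩, ⟨h1, c, h2, h3⟩, h4⟩
      simp only at h2 h3 h4
      subst h4
      subst h2
      exact ⟨c, h3, h1⟩
    · rintro ⟨c, h1, h2⟩
      exact ⟨(a, leafP j x.1 c), ⟨h2, c, rfl, h1⟩, rfl⟩
  have hn1 : (1 : ℝ) ≤ n := by exact_mod_cast hn
  have hp0 : (0 : ℝ) ≤ 1 / (n : ℝ) := by positivity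
  have hp1 : 1 / (n : ℝ) ≤ 1 := by
    rw [div_le_one (by linarith)]
    exact hn1
  have key := path_bound (ι := Rw k n) (κ := Rw k n) (Ω := Fin k → Fin n) sg (fl '' 𝒱) s hs
    (by
      rintro _ ⟨V, hV, rfl⟩
      exact hflc V hV)
    (fun D => oddPos_W D) (k - 1) ((1 / (n : ℝ)) ^ k) (by positivity)
    (by
      intro V hV
      refine (P_mono (B := {D : Fin k → Fin n | ∀ a ∈ V, D a.1 = a.2}) ?_).trans
        ((P_rows hn V).trans ?_)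
      · intro D hD a ha
        exact (oddPos_mem_W D a).1 (hD ha)
      · exact pow_le_pow_of_le_one hp0 hp1 (by omega))
  have hcast : (((k - 1 : ℕ) : ℝ) + 2) = (k : ℝ) + 1 := by
    rw [Nat.cast_sub (by omega)]
    push_cast
    ring
  rw [hcast, Nat.sub_add_cancel hk] at key
  refine (P_mono ?_).trans key
  rintro D ⟨h1, h2⟩
  refine ⟨?_, ?_⟩
  · rintro _ ⟨V, hV, rfl⟩
    obtain ⟨e, he, heQ⟩ := h1 V hV
    rw [oddPos_sg, mem_PXO] at heQ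
    obtain ⟨c, rfl⟩ := heQ
    refine ⟨(x.2 c, D (x.2 c)), (hmem V _).2 ⟨c, rfl, he⟩, ?_⟩
    rw [oddPos_sg, oddPos_mem_W]
  · rintro ⟨U, hUW, hUc, hU⟩
    refine h2 ⟨U.image Prod.fst, ?_, ?_⟩
    · intro h
      have h3 : (U.image Prod.fst).card ≤ U.card := Finset.card_image_le
      rw [h, Finset.card_univ, Fintype.card_fin] at h3
      omega
    · intro V hV
      obtain ⟨a, ha, haU⟩ := hU _ ⟨V, hV, rfl⟩
      rw [oddPos_sg] at haU
      obtain ⟨c, hc1, hc2⟩ := (hmem V a).1 ha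
      have h4 : D a.1 = a.2 := (oddPos_mem_W D a).1 (hUW haU)
      refine ⟨c, ?_, ?_⟩
      · rw [hc1]
        exact Finset.mem_image.2 ⟨a, haU, rfl⟩
      · have h5 : (x.2 c, D (x.2 c)) = a := by
          rw [hc1, h4]
        rw [h5]
        exact hc2

/-- few coordinates suffice if some row is not needed -/
theorem oddPos_B {k n : ℕ} (hk : 0 < k) (j s K : ℕ)
    (𝒱 : Set (Finset (Rw k n × Lf (Fin n) n j))) (h𝒱 : ∀ V ∈ 𝒱, V.card ≤ s)
    (D : Fin k → Fin n) (σ : SP n j) (I : Finset (Fin k)) (hI : I ≠ Finset.univ) :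
    P {ξ : Cd (Fin n) n j → Fin k |
      (∀ V ∈ 𝒱, ∃ c, ξ c ∈ I ∧ ((ξ c, D (ξ c)), leafP j σ c) ∈ V) ∧
      ¬ ∃ U ⊆ PXO D (σ, ξ), U.card ≤ s * K ∧ ∀ V ∈ 𝒱, Hits sg U V} ≤
      (1 - 1 / (k : ℝ) ^ s) ^ K := by
  classical
  have hne : Nonempty (Fin k) := ⟨⟨0, hk⟩⟩
  obtain ⟨i0, hi0⟩ : ∃ i0, i0 ∉ I := by
    by_contra h
    push Not at h
    exact hI (Finset.eq_univ_iff_forall.2 h)
  set QV : Finset (Rw k n × Lf (Fin n) n j) → Set (Cd (Fin n) n j → Fin k) := fun V =>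
    {ξ | ¬ ∃ c, ξ c ∈ I ∧ ((ξ c, D (ξ c)), leafP j σ c) ∈ V} with hQV
  have key := reveal (C := Cd (Fin n) n j) (B := Fin k) s K (QV '' 𝒱) (by
    rintro _ ⟨V, hV, rfl⟩
    refine ⟨(Set.toFinite {c : Cd (Fin n) n j | leafP j σ c ∈ V.image Prod.snd}).toFinset, ?_, ?_⟩
    · refine le_trans ?_ ((Finset.card_image_le (s := V) (f := Prod.snd)).trans (h𝒱 V hV))
      refine Finset.card_le_card_of_injOn (leafP j σ) ?_ ((leafP_inj j σ).injOn)
      intro c hc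
      simpa using hc
    · intro f g hfg
      have hcon : ∀ f g : Cd (Fin n) n j → Fin k, (∀ c ∈ (Set.toFinite {c : Cd (Fin n) n j |
          leafP j σ c ∈ V.image Prod.snd}).toFinset, f c = g c) → f ∈ QV V → g ∈ QV V := by
        intro f g hfg hf
        rintro ⟨c, hc1, hc2⟩
        have : f c = g c := by
          refine hfg c ?_
          rw [Set.Finite.mem_toFinset]
          exact Finset.mem_image.2 ⟨_, hc2, rfl⟩
        exact hf ⟨c, by rw [this]; exact hc1, by rw [this]; exact hc2⟩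
      exact ⟨hcon f g hfg, hcon g f (fun c hc => (hfg c hc).symm)⟩)
  rw [Nat.card_eq_fintype_card, Fintype.card_fin] at key
  refine (P_mono ?_).trans key
  rintro ξ ⟨h1, h2⟩
  refine ⟨?_, ?_⟩
  · rintro _ ⟨V, hV, rfl⟩ hξ
    exact hξ (h1 V hV)
  · rintro ⟨S, hSc, hS⟩
    refine h2 ⟨(S.filter (fun c => ξ c ∈ I)).image (fun c => ((ξ c, D (ξ c)), leafP j σ c)), ?_,
      (Finset.card_image_le.trans (Finset.card_filter_le _ _)).trans hSc, ?_⟩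
    · intro e he
      obtain ⟨c, _, rfl⟩ := Finset.mem_image.1 he
      rw [mem_PXO]
      exact ⟨c, rfl⟩
    · intro V hV
      have h3 := hS (fun c => if c ∈ S then ξ c else i0) (by
        intro c hc
        simp [hc]) (QV V) ⟨V, hV, rfl⟩
      simp only [hQV, Set.mem_setOf_eq, not_not] at h3
      obtain ⟨c, hc1, hc2⟩ := h3
      by_cases hcS : c ∈ S
      · simp only [hcS, if_true] at hc1 hc2
        refine ⟨_, hc2, ?_⟩
        rw [oddPos_sg]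
        exact Finset.mem_image.2 ⟨c, Finset.mem_filter.2 ⟨hcS, hc1⟩, rfl⟩
      · simp only [hcS, if_false] at hc1
        exact absurd hc1 hi0

theorem odd_plus {k n : ℕ} (hk : 0 < k) (hn : 0 < n) (j s K : ℕ) (hs : 1 ≤ s)
    (𝒱 : Set (Finset (Rw k n × Lf (Fin n) n j))) (h𝒱 : ∀ V ∈ 𝒱, V.card ≤ s) :
    P {x : (Fin k → Fin n) × XO k n j | ErrP sg (s * K) 𝒱 (PXO x.1 x.2)} ≤
      (k + 1) * (s : ℝ) ^ k * (1 / (n : ℝ)) ^ k + 2 ^ k * (1 - 1 / (k : ℝ) ^ s) ^ K := by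
  classical
  have hk1 : (1 : ℝ) ≤ k := by exact_mod_cast hk
  have hfac : 0 ≤ (1 - 1 / (k : ℝ) ^ s) ^ K := pow_nonneg (cube_fac_nonneg hk1 s) K
  set SA : Set ((Fin k → Fin n) × XO k n j) := {x | (∀ V ∈ 𝒱, Hits sg (PXO x.1 x.2) V) ∧
      ¬ ∃ I : Finset (Fin k), I ≠ Finset.univ ∧
        ∀ V ∈ 𝒱, ∃ c, x.2.2 c ∈ I ∧ ((x.2.2 c, x.1 (x.2.2 c)), leafP j x.2.1 c) ∈ V} with hSA
  set SI : Finset (Fin k) → Set ((Fin k → Fin n) × XO k n j) := fun I =>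
    {x | I ≠ Finset.univ ∧
      (∀ V ∈ 𝒱, ∃ c, x.2.2 c ∈ I ∧ ((x.2.2 c, x.1 (x.2.2 c)), leafP j x.2.1 c) ∈ V) ∧
      ¬ ∃ U ⊆ PXO x.1 x.2, U.card ≤ s * K ∧ ∀ V ∈ 𝒱, Hits sg U V} with hSI
  have hA : P SA ≤ (k + 1) * (s : ℝ) ^ k * (1 / (n : ℝ)) ^ k := by
    refine P_snd_le SA _ (by positivity) ?_
    intro x
    exact oddPos_A hk hn j s hs 𝒱 h𝒱 x
  have hI : ∀ I : Finset (Fin k), P (SI I) ≤ (1 - 1 / (k : ℝ) ^ s) ^ K := by
    intro I
    refine P_fst_le (SI I) _ hfac ?_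
    intro D
    refine P_fst_le {x : XO k n j | (D, x) ∈ SI I} _ hfac ?_
    intro σ
    by_cases hI : I = Finset.univ
    · have : {b : Cd (Fin n) n j → Fin k | (σ, b) ∈ {x : XO k n j | (D, x) ∈ SI I}} = ∅ := by
        ext ξ
        simp [hSI, hI]
      rw [this, P_empty]
      exact hfac
    · refine (P_mono ?_).trans (oddPos_B hk j s K 𝒱 h𝒱 D σ I hI)
      rintro ξ ⟨_, h1, h2⟩
      exact ⟨h1, h2⟩
  have hB : P (⋃ I, SI I) ≤ 2 ^ k * (1 - 1 / (k : ℝ) ^ s) ^ K := by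
    refine (P_biUnion_le (Finset.univ : Finset (Finset (Fin k))) SI _ ?_).trans ?_
    · intro x hx
      obtain ⟨I, hI⟩ := Set.mem_iUnion.1 hx
      exact ⟨I, Finset.mem_univ _, hI⟩
    · refine (Finset.sum_le_card_nsmul _ _ _ (fun I _ => hI I)).trans ?_
      rw [nsmul_eq_mul, Finset.card_univ, Fintype.card_finset, Fintype.card_fin]
      push_cast
      exact le_refl _
  refine (P_mono ?_).trans ((P_union_le SA (⋃ I, SI I)).trans (add_le_add hA hB))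
  rintro x ⟨h1, h2⟩
  by_cases hx : ∃ I : Finset (Fin k), I ≠ Finset.univ ∧
        ∀ V ∈ 𝒱, ∃ c, x.2.2 c ∈ I ∧ ((x.2.2 c, x.1 (x.2.2 c)), leafP j x.2.1 c) ∈ V
  · obtain ⟨I, hI1, hI2⟩ := hx
    exact Or.inr (Set.mem_iUnion.2 ⟨I, hI1, hI2, h2⟩)
  · exact Or.inl ⟨h1, hx⟩

end Pool.Agent.W_MP_5f6b2a_mono
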