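import Pool.Agent.W_MP_5f6b2a_mono.OddDefs
import Pool.Agent.W_MP_5f6b2a_mono.Closure

/-! Auxiliary bounds for the choice of the parameters. -/

set_option autoImplicit false

namespace Pool.Agent.W_MP_5f6b2a_mono

open Filter Topology

theorem dl_nonneg {δ₀ : ℝ} (h : 0 ≤ δ₀) (K N n j : ℕ) : 0 ≤ dl δ₀ K N n j := by
  induction j with
  | zero => exact h
  | succ j ih =>
    show 0 ≤ ((K : ℝ) / n + N * dl δ₀ K N n j) ^ (n / 4)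
    positivity

theorem aux_cl (m d : ℕ) : 5 * (cl m d + 1) ≤ (5 * (m + 3)) ^ (2 ^ d) := by
  induction d with
  | zero => simp [cl]
  | succ d ih =>
    have h1 : cl m (d + 1) + 1 ≤ 5 * (cl m d + 1) ^ 2 := by
      show 4 * (cl m d + 1) ^ 2 + 1 ≤ _
      nlinarith [Nat.zero_le (cl m d)]
    calc 5 * (cl m (d + 1) + 1) ≤ 5 * (5 * (cl m d + 1) ^ 2) := Nat.mul_le_mul_left _ h1
      _ = (5 * (cl m d + 1)) ^ 2 := by ring
      _ ≤ ((5 * (m + 3)) ^ (2 ^ d)) ^ 2 := Nat.pow_le_pow_left ih 2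
      _ = (5 * (m + 3)) ^ (2 ^ (d + 1)) := by rw [← pow_mul, pow_succ]

theorem aux_bd (m d : ℕ) : 2 * (m + 1) * bd m d ≤ (2 * (m + 1)) ^ (2 ^ d) := by
  induction d with
  | zero => simp [bd]
  | succ d ih =>
    calc 2 * (m + 1) * bd m (d + 1) = (2 * (m + 1) * bd m d) ^ 2 := by
          show 2 * (m + 1) * (2 * (m + 1) * (bd m d) ^ 2) = _
          ring
      _ ≤ ((2 * (m + 1)) ^ (2 ^ d)) ^ 2 := Nat.pow_le_pow_left ih 2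
      _ = (2 * (m + 1)) ^ (2 ^ (d + 1)) := by rw [← pow_mul, pow_succ]

theorem aux_cl' (m d : ℕ) : cl m d ≤ (5 * (m + 3)) ^ (2 ^ d) := by
  have := aux_cl m d
  omega

theorem aux_bd' (m d : ℕ) : bd m d ≤ (5 * (m + 3)) ^ (2 ^ d) := by
  have h1 := aux_bd m d
  have h2 : (2 * (m + 1)) ^ (2 ^ d) ≤ (5 * (m + 3)) ^ (2 ^ d) :=
    Nat.pow_le_pow_left (by omega) _
  have h3 : bd m d ≤ 2 * (m + 1) * bd m d := by
    nlinarith [Nat.zero_le (bd m d), Nat.zero_le m]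
  omega

/-- Both sizes are polynomial. -/
theorem aux_poly (G e1 d m n : ℕ) (hn : 1 ≤ n) (hm : m ≤ G * n ^ e1) :
    (cl m d : ℝ) ≤ ((5 * (G + 3)) ^ (2 ^ d) : ℕ) * (n : ℝ) ^ (e1 * 2 ^ d) ∧
    (bd m d : ℝ) ≤ ((5 * (G + 3)) ^ (2 ^ d) : ℕ) * (n : ℝ) ^ (e1 * 2 ^ d) := by
  have hn1 : 1 ≤ n ^ e1 := Nat.one_le_pow _ _ hn
  have h1 : 5 * (m + 3) ≤ 5 * (G + 3) * n ^ e1 := by nlinarith
  have h2 : (5 * (m + 3)) ^ (2 ^ d) ≤ (5 * (G + 3)) ^ (2 ^ d) * n ^ (e1 * 2 ^ d) := by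
    calc (5 * (m + 3)) ^ (2 ^ d) ≤ (5 * (G + 3) * n ^ e1) ^ (2 ^ d) := Nat.pow_le_pow_left h1 _
      _ = (5 * (G + 3)) ^ (2 ^ d) * n ^ (e1 * 2 ^ d) := by rw [mul_pow, ← pow_mul]
  constructor
  · exact_mod_cast (aux_cl' m d).trans h2
  · exact_mod_cast (aux_bd' m d).trans h2

theorem aux_exp (C : ℝ) (a : ℕ) (ρ : ℝ) (h0 : 0 ≤ ρ) (h1 : ρ < 1) (ε : ℝ) (hε : 0 < ε) :
    ∀ᶠ q : ℕ in atTop, C * (q : ℝ) ^ a * ρ ^ q < ε := by
  have h := tendsto_pow_const_mul_const_pow_of_abs_lt_one a (r := ρ) (by rwa [abs_of_nonneg h0])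
  have h2 := h.const_mul C
  rw [mul_zero] at h2
  filter_upwards [h2.eventually (gt_mem_nhds hε)] with q hq
  rw [mul_assoc]
  exact hq

theorem aux_inv (C : ℝ) (ε : ℝ) (hε : 0 < ε) : ∀ᶠ q : ℕ in atTop, C / (q : ℝ) < ε := by
  have h := tendsto_const_div_atTop_nhds_zero_nat C
  exact h.eventually (gt_mem_nhds hε)

theorem aux_dl (ρ δ₀ : ℝ) (K N n q : ℕ) (hρ : 1 / 2 ≤ ρ) (h0 : 0 ≤ δ₀) (hδ : δ₀ ≤ ρ ^ q)
    (hn : q ≤ n / 4) (hs : (K : ℝ) / n + N * ρ ^ q ≤ 1 / 2) (i : ℕ) : dl δ₀ K N n i ≤ ρ ^ q := by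
  induction i with
  | zero => exact hδ
  | succ i ih =>
    have h1 : (K : ℝ) / n + N * dl δ₀ K N n i ≤ 1 / 2 := by
      have := mul_le_mul_of_nonneg_left ih (Nat.cast_nonneg (α := ℝ) N)
      linarith
    have h2 : 0 ≤ (K : ℝ) / n + N * dl δ₀ K N n i := by
      have := dl_nonneg h0 K N n i
      positivity
    calc dl δ₀ K N n (i + 1) = ((K : ℝ) / n + N * dl δ₀ K N n i) ^ (n / 4) := rfl
      _ ≤ (1 / 2) ^ (n / 4) := pow_le_pow_left₀ h2 h1 _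
      _ ≤ (1 / 2) ^ q := pow_le_pow_of_le_one (by norm_num) (by norm_num) hn
      _ ≤ ρ ^ q := pow_le_pow_left₀ (by norm_num) hρ _

theorem aux_Q (Q : ℝ) (hQ : 1 ≤ Q) (x y : ℕ) (h : x + 1 ≤ y) : Q ^ x * (1 / Q) ^ y ≤ 1 / Q := by
  have h0 : 0 < Q := by linarith
  rw [one_div_pow, mul_one_div, div_le_div_iff₀ (by positivity) h0, one_mul, ← pow_succ]
  exact pow_le_pow_right₀ hQ h

end Pool.Agent.W_MP_5f6b2a_mono
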