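import Pool.Agent.W_MP_5f6b2a_mono.ProbDef

/-! Basic properties of uniform probabilities. -/

set_option autoImplicit false

namespace Pool.Agent.W_MP_5f6b2a_mono

section
variable {α β : Type} [Finite α] [Finite β]

theorem P_nonneg (A : Set α) : 0 ≤ P A := by
  unfold P
  positivity

theorem P_le_one (A : Set α) : P A ≤ 1 := by
  unfold P
  have h : A.ncard ≤ Nat.card α := by
    rw [← Set.ncard_univ]
    exact Set.ncard_le_ncard (Set.subset_univ A)
  exact div_le_one_of_le₀ (by exact_mod_cast h) (Nat.cast_nonneg _)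

theorem P_empty : P (∅ : Set α) = 0 := by
  simp [P]

theorem P_univ [Nonempty α] : P (Set.univ : Set α) = 1 := by
  have h : (Nat.card α : ℝ) ≠ 0 := by exact_mod_cast Nat.card_pos.ne'
  unfold P
  rw [Set.ncard_univ, div_self h]

theorem P_mono {A B : Set α} (h : A ⊆ B) : P A ≤ P B := by
  unfold P
  have h1 : A.ncard ≤ B.ncard := Set.ncard_le_ncard h
  exact div_le_div_of_nonneg_right (by exact_mod_cast h1) (Nat.cast_nonneg _)

theorem P_union_le (A B : Set α) : P (A ∪ B) ≤ P A + P B := by
  unfold P
  rw [← add_div]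
  have h1 : (A ∪ B).ncard ≤ A.ncard + B.ncard := Set.ncard_union_le A B
  exact div_le_div_of_nonneg_right (by exact_mod_cast h1) (Nat.cast_nonneg _)

theorem P_compl [Nonempty α] (A : Set α) : P Aᶜ = 1 - P A := by
  have h : (Nat.card α : ℝ) ≠ 0 := by exact_mod_cast Nat.card_pos.ne'
  have h1 : A.ncard + Aᶜ.ncard = Nat.card α := Set.ncard_add_ncard_compl A
  have h2 : (A.ncard : ℝ) + (Aᶜ.ncard : ℝ) = Nat.card α := by exact_mod_cast h1
  unfold P
  rw [eq_sub_iff_add_eq, ← add_div, add_comm, h2, div_self h]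

/-- union bound -/
theorem P_biUnion_le {ι : Type} (I : Finset ι) (A : ι → Set α) (S : Set α)
    (hS : ∀ x ∈ S, ∃ i ∈ I, x ∈ A i) : P S ≤ ∑ i ∈ I, P (A i) := by
  classical
  induction I using Finset.induction_on generalizing S with
  | empty =>
    have h : S = ∅ := by
      ext x
      constructor
      · intro hx
        obtain ⟨i, hi, _⟩ := hS x hx
        simp at hi
      · intro hx
        exact hx.elim
    rw [h, P_empty]
    simp
  | insert a I ha ih =>
    rw [Finset.sum_insert ha]
    have h1 : P (S \ A a) ≤ ∑ i ∈ I, P (A i) := by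
      refine ih _ fun x hx => ?_
      obtain ⟨i, hi, hxi⟩ := hS x hx.1
      rcases Finset.mem_insert.1 hi with rfl | hi
      · exact absurd hxi hx.2
      · exact ⟨i, hi, hxi⟩
    have h2 : P S ≤ P (A a ∪ (S \ A a)) := P_mono (by
      intro x hx
      by_cases h : x ∈ A a
      · exact Or.inl h
      · exact Or.inr ⟨hx, h⟩)
    have h3 := P_union_le (A a) (S \ A a)
    linarith

/-- union bound for lists -/
theorem P_list_le {ι : Type} (l : List ι) (A : ι → Set α) (S : Set α) (c : ℝ)
    (hS : ∀ x ∈ S, ∃ i ∈ l, x ∈ A i) (hc : ∀ i ∈ l, P (A i) ≤ c) : P S ≤ l.length * c := by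
  induction l generalizing S with
  | nil =>
    have h : S = ∅ := by
      ext x
      constructor
      · intro hx
        obtain ⟨i, hi, _⟩ := hS x hx
        simp at hi
      · intro hx
        exact hx.elim
    rw [h, P_empty]
    simp
  | cons a l ih =>
    have h1 : P (S \ A a) ≤ l.length * c := by
      refine ih _ (fun x hx => ?_) fun i hi => hc i (List.mem_cons_of_mem a hi)
      obtain ⟨i, hi, hxi⟩ := hS x hx.1
      rcases List.mem_cons.1 hi with rfl | hi
      · exact absurd hxi hx.2
      · exact ⟨i, hi, hxi⟩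
    have h2 : P S ≤ P (A a ∪ (S \ A a)) := P_mono (by
      intro x hx
      by_cases h : x ∈ A a
      · exact Or.inl h
      · exact Or.inr ⟨hx, h⟩)
    have h3 := P_union_le (A a) (S \ A a)
    have h4 := hc a List.mem_cons_self
    rw [List.length_cons]
    push_cast
    linarith

/-- pigeonhole -/
theorem P_pigeon {ι : Type} (l : List ι) (A : ι → Set α) (S : Set α)
    (hS : ∀ x ∈ S, ∃ i ∈ l, x ∈ A i) (h0 : 0 < P S) : ∃ i ∈ l, P S ≤ l.length * P (A i) := by
  have hl : 0 < l.length := by
    rcases l with _ | ⟨a, l⟩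
    · exfalso
      have h := P_list_le [] A S 0 hS (by simp)
      simp at h
      linarith
    · simp
  have hl' : (0 : ℝ) < l.length := by exact_mod_cast hl
  by_contra hcon
  push Not at hcon
  obtain ⟨m, hm, hmax⟩ : ∃ m ∈ l, ∀ i ∈ l, P (A i) ≤ P (A m) := by
    have hne : l ≠ [] := List.ne_nil_of_length_pos hl
    classical
    obtain ⟨m, hm, hmax⟩ := l.toFinset.exists_max_image (fun i => P (A i))
      (by
        obtain ⟨a, ha⟩ := List.exists_mem_of_ne_nil l hne
        exact ⟨a, List.mem_toFinset.2 ha⟩)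
    exact ⟨m, List.mem_toFinset.1 hm, fun i hi => hmax i (List.mem_toFinset.2 hi)⟩
  have h1 := P_list_le l A S (P (A m)) hS hmax
  have h2 := hcon m hm
  linarith

theorem P_pos_iff (A : Set α) : 0 < P A ↔ A.Nonempty := by
  constructor
  · intro h
    by_contra hne
    rw [Set.not_nonempty_iff_eq_empty] at hne
    rw [hne, P_empty] at h
    exact lt_irrefl _ h
  · rintro ⟨a, ha⟩
    have h1 : 0 < A.ncard := (Set.ncard_pos (Set.toFinite A)).2 ⟨a, ha⟩
    haveI : Nonempty α := ⟨a⟩
    have h2 : 0 < Nat.card α := Nat.card_pos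
    unfold P
    exact div_pos (by exact_mod_cast h1) (by exact_mod_cast h2)

theorem P_equiv (e : α ≃ β) (B : Set β) : P {a | e a ∈ B} = P B := by
  unfold P
  rw [Nat.card_congr e]
  congr 2
  have h : {a | e a ∈ B} = e.symm '' B := by
    ext a
    constructor
    · intro ha
      exact ⟨e a, ha, by simp⟩
    · rintro ⟨b, hb, rfl⟩
      simpa using hb
  rw [h, Set.ncard_image_of_injective _ e.symm.injective]

end

end Pool.Agent.W_MP_5f6b2a_mono
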