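import Mathlib

/-! Uniform probabilities on finite types. -/

set_option autoImplicit false

namespace Pool.Agent.W_MP_5f6b2a_mono

/-- the uniform probability of a set in a finite type -/
noncomputable def P {α : Type} (A : Set α) : ℝ := (A.ncard : ℝ) / (Nat.card α : ℝ)

end Pool.Agent.W_MP_5f6b2a_mono
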